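import Mathlib
import Pool.Agent.Q253.LQ.Stm

set_option autoImplicit false

/-!
# Project LQ, job MV: mean values of exponentials of almost periodic cosine series with positive coefficients
-/

namespace Pool.Agent.Q151.LQ

open MeasureTheory Filter Topology Set Complex
open Pool.Agent.Q253.LQ (I0 S_MV)

/-- mean value of a single exponential -/
theorem mean_exp (a : ℝ) :
    Tendsto (fun U : ℝ => ((1 / U : ℝ) : ℂ) * ∫ u in (0 : ℝ)..U, cexp (I * a * u)) atTop
      (𝓝 (if a = 0 then 1 else 0)) := by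
  by_cases ha : a = 0
  · subst ha
    simp only [if_true]
    refine Tendsto.congr' ?_ tendsto_const_nhds
    filter_upwards [eventually_gt_atTop 0] with U hU
    have hU' : (U : ℂ) ≠ 0 := by exact_mod_cast hU.ne'
    simp [hU']
  · rw [if_neg ha]
    have hI : (I * a : ℂ) ≠ 0 := mul_ne_zero I_ne_zero (by exact_mod_cast ha)
    rw [tendsto_zero_iff_norm_tendsto_zero]
    refine squeeze_zero' (g := fun U : ℝ => (2 / |a|) * U⁻¹) (Eventually.of_forall fun U => norm_nonneg _) ?_ ?_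
    · filter_upwards [eventually_gt_atTop 0] with U hU
      rw [integral_exp_mul_complex hI]
      rw [norm_mul, norm_div]
      have h1 : ‖(((1 / U : ℝ) : ℂ))‖ = U⁻¹ := by
        rw [Complex.norm_real, Real.norm_eq_abs, abs_of_pos (by positivity)]
        simp
      have h2 : ‖(I * a : ℂ)‖ = |a| := by
        rw [norm_mul, Complex.norm_I, one_mul, Complex.norm_real, Real.norm_eq_abs]
      have h3 : ∀ t : ℝ, ‖cexp (I * a * t)‖ = 1 := by
        intro t
        rw [show (I * a * t : ℂ) = ((a * t : ℝ) : ℂ) * I from by push_cast; ring]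
        exact Complex.norm_exp_ofReal_mul_I _
      have h4 : ‖cexp (I * a * U) - cexp (I * a * (0 : ℝ))‖ ≤ 2 := by
        refine (norm_sub_le _ _).trans ?_
        rw [h3, h3]
        norm_num
      rw [h1, h2, mul_comm]
      have h5 : 0 < |a| := abs_pos.mpr ha
      gcongr
    · have := (tendsto_inv_atTop_zero (𝕜 := ℝ)).const_mul (2 / |a|)
      simpa using this

/-- the mean value of an absolutely convergent series of exponentials -/
theorem mean_series {J : Type} [Countable J] (w a : J → ℝ) (hw : ∀ n, 0 ≤ w n) (hs : Summable w) (F : ℝ → ℝ)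
    (hF : ∀ u : ℝ, ((F u : ℝ) : ℂ) = ∑' n, (w n : ℂ) * cexp (I * a n * u)) :
    Tendsto (fun U : ℝ => (1 / U) * ∫ u in (0 : ℝ)..U, F u) atTop (𝓝 (∑' n, if a n = 0 then w n else 0)) := by
  have hn : ∀ (n : J) (u : ℝ), ‖(w n : ℂ) * cexp (I * a n * u)‖ = w n := by
    intro n u
    rw [norm_mul, Complex.norm_real, Real.norm_eq_abs, abs_of_nonneg (hw n)]
    rw [show (I * a n * u : ℂ) = ((a n * u : ℝ) : ℂ) * I from by push_cast; ring]
    rw [Complex.norm_exp_ofReal_mul_I, mul_one]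
  have hint : ∀ U : ℝ, 0 < U → (∫ u in (0 : ℝ)..U, ((F u : ℝ) : ℂ)) =
      ∑' n, ∫ u in (0 : ℝ)..U, (w n : ℂ) * cexp (I * a n * u) := by
    intro U hU
    have h1 := intervalIntegral.hasSum_integral_of_dominated_convergence (μ := volume) (a := 0) (b := U)
      (F := fun (n : J) (u : ℝ) => (w n : ℂ) * cexp (I * a n * u)) (f := fun u => ((F u : ℝ) : ℂ))
      (fun n _ => w n) (fun n => ?_) (fun n => ?_) ?_ ?_ ?_
    · exact h1.tsum_eq.symm
    · exact (by fun_prop : Continuous fun u : ℝ => (w n : ℂ) * cexp (I * a n * u)).aestronglyMeasurable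
    · exact Eventually.of_forall fun u _ => (hn n u).le
    · exact Eventually.of_forall fun u _ => hs
    · exact intervalIntegrable_const
    · refine Eventually.of_forall fun u _ => ?_
      rw [hF u]
      exact (Summable.of_norm (by simpa only [hn] using hs)).hasSum
  have hlim : Tendsto (fun U : ℝ => ∑' n, (w n : ℂ) * (((1 / U : ℝ) : ℂ) * ∫ u in (0 : ℝ)..U, cexp (I * a n * u))) atTop
      (𝓝 (∑' n, (w n : ℂ) * (if a n = 0 then 1 else 0))) := by
    refine tendsto_tsum_of_dominated_convergence (bound := w) hs (fun n => ?_) ?_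
    · exact (mean_exp (a n)).const_mul _
    · filter_upwards [eventually_gt_atTop 0] with U hU n
      rw [norm_mul, Complex.norm_real, Real.norm_eq_abs, abs_of_nonneg (hw n)]
      have h2 : ‖(((1 / U : ℝ) : ℂ) * ∫ u in (0 : ℝ)..U, cexp (I * a n * u))‖ ≤ 1 := by
        rw [norm_mul]
        have h3 : ‖∫ u in (0 : ℝ)..U, cexp (I * a n * u)‖ ≤ 1 * |U - 0| := by
          refine intervalIntegral.norm_integral_le_of_norm_le_const fun u _ => ?_
          rw [show (I * a n * u : ℂ) = ((a n * u : ℝ) : ℂ) * I from by push_cast; ring]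
          rw [Complex.norm_exp_ofReal_mul_I]
        rw [sub_zero, one_mul, abs_of_pos hU] at h3
        rw [Complex.norm_real, Real.norm_eq_abs, abs_of_pos (by positivity)]
        calc 1 / U * ‖∫ u in (0 : ℝ)..U, cexp (I * a n * u)‖ ≤ 1 / U * U := by gcongr
          _ = 1 := by field_simp
      calc w n * _ ≤ w n * 1 := mul_le_mul_of_nonneg_left h2 (hw n)
        _ = w n := mul_one _
  have hlim2 : Tendsto (fun U : ℝ => (((1 / U) * ∫ u in (0 : ℝ)..U, F u : ℝ) : ℂ)) atTop
      (𝓝 ((∑' n, if a n = 0 then w n else 0 : ℝ) : ℂ)) := by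
    have e1 : ((∑' n, if a n = 0 then w n else 0 : ℝ) : ℂ) = ∑' n, (w n : ℂ) * (if a n = 0 then 1 else 0) := by
      rw [Complex.ofReal_tsum]
      refine tsum_congr fun n => ?_
      split_ifs <;> simp
    rw [e1]
    refine hlim.congr' ?_
    filter_upwards [eventually_gt_atTop 0] with U hU
    rw [Complex.ofReal_mul, ← intervalIntegral.integral_ofReal, hint U hU, ← tsum_mul_left]
    refine tsum_congr fun n => ?_
    rw [intervalIntegral.integral_const_mul]
    ring
  have := (Complex.continuous_re.tendsto _).comp hlim2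
  simpa [Function.comp_def] using this

/-- `F` is an absolutely convergent series of exponentials with nonnegative coefficients and frequencies in `T`, all
frequencies in `T` appear, and the constant term is `M` -/
def Rp (F : ℝ → ℝ) (T : AddSubgroup ℝ) (M : ℝ) : Prop :=
  ∃ (J : Type) (_ : Countable J) (w a : J → ℝ), (∀ n, 0 ≤ w n) ∧ Summable w ∧
    (∀ u : ℝ, ((F u : ℝ) : ℂ) = ∑' n, (w n : ℂ) * cexp (I * a n * u)) ∧ (∀ n, a n ∈ T) ∧
    (∀ b ∈ T, ∃ n, a n = b ∧ 0 < w n) ∧ M = ∑' n, if a n = 0 then w n else 0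

theorem Rp.mean {F : ℝ → ℝ} {T : AddSubgroup ℝ} {M : ℝ} (h : Rp F T M) :
    Tendsto (fun U : ℝ => (1 / U) * ∫ u in (0 : ℝ)..U, F u) atTop (𝓝 M) := by
  obtain ⟨J, hJ, w, a, hw, hs, hF, -, -, hM⟩ := h
  rw [hM]
  exact mean_series w a hw hs F hF

theorem Rp.one : Rp (fun _ => 1) ⊥ 1 := by
  refine ⟨Unit, inferInstance, fun _ => 1, fun _ => 0, fun _ => zero_le_one, ?_, ?_, ?_, ?_, ?_⟩
  · exact (hasSum_fintype _).summable
  · intro u
    simp
  · intro n
    exact AddSubgroup.zero_mem _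
  · intro b hb
    rw [AddSubgroup.mem_bot] at hb
    exact ⟨(), hb.symm, zero_lt_one⟩
  · simp

/-- the coefficients of the exponential series are summable -/
theorem sm_exp (x : ℝ) : Summable (fun k : ℕ => x ^ k / (k.factorial : ℝ)) := Real.summable_pow_div_factorial x

theorem exp_expand (x g u : ℝ) :
    ((Real.exp (2 * x * Real.cos (g * u)) : ℝ) : ℂ) = ∑' p : ℕ × ℕ,
      ((x ^ p.1 / (p.1.factorial : ℝ) * (x ^ p.2 / (p.2.factorial : ℝ)) : ℝ) : ℂ) *
        cexp (I * (((p.1 : ℝ) - (p.2 : ℝ)) * g : ℝ) * u) := by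
  have e1 : ((Real.exp (2 * x * Real.cos (g * u)) : ℝ) : ℂ) =
      cexp (x * cexp (I * g * u)) * cexp (x * cexp (-(I * g * u))) := by
    rw [← Complex.exp_add]
    push_cast
    congr 1
    rw [Complex.cos]
    rw [show (g * u * I : ℂ) = I * g * u from by ring, show (-(g * u : ℂ)) * I = -(I * g * u) from by ring]
    ring
  have e2 : ∀ z : ℂ, cexp z = ∑' n : ℕ, z ^ n / (n.factorial : ℂ) := fun z => by
    rw [Complex.exp_eq_exp_ℂ, NormedSpace.exp_eq_tsum_div]
  have hs : ∀ z : ℂ, Summable (fun n : ℕ => ‖z ^ n / (n.factorial : ℂ)‖) := fun z =>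
    NormedSpace.norm_expSeries_div_summable z
  rw [e1, e2 (x * cexp (I * g * u)), e2 (x * cexp (-(I * g * u))), tsum_mul_tsum_of_summable_norm (hs _) (hs _)]
  refine tsum_congr fun p => ?_
  rw [mul_pow, mul_pow, ← Complex.exp_nat_mul, ← Complex.exp_nat_mul]
  have e3 : cexp (I * (((p.1 : ℝ) - (p.2 : ℝ)) * g : ℝ) * u) =
      cexp (p.1 * (I * g * u)) * cexp (p.2 * (-(I * g * u))) := by
    rw [← Complex.exp_add]
    congr 1
    push_cast
    ring
  rw [e3]
  push_cast
  ring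

/-- multiplication with one factor -/
theorem Rp.mul {F : ℝ → ℝ} {T : AddSubgroup ℝ} {M : ℝ} (h : Rp F T M) (x g b : ℝ) (hx : 0 < x)
    (hb : b = ∑' k : ℕ, (x ^ k / (k.factorial : ℝ)) * (x ^ k / (k.factorial : ℝ))) :
    ∃ M', Rp (fun u => F u * Real.exp (2 * x * Real.cos (g * u))) (T ⊔ AddSubgroup.closure {g}) M' ∧ M * b ≤ M' ∧
      ((∀ q : ℕ, 0 < q → q • g ∉ T) → M' = M * b) ∧ ((∃ q : ℕ, 0 < q ∧ q • g ∈ T) → M * b < M') := by
  obtain ⟨J, hJ, w, a, hw, hs, hF, hT, hT', hM⟩ := h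
  obtain ⟨e, he⟩ : ∃ e : ℕ → ℝ, e = fun k : ℕ => x ^ k / (k.factorial : ℝ) := ⟨_, rfl⟩
  have he' : ∀ k : ℕ, x ^ k / (k.factorial : ℝ) = e k := fun k => by rw [he]
  have hepos : ∀ k, 0 < e k := fun k => by rw [he]; positivity
  have hes : Summable e := by rw [he]; exact sm_exp x
  have hps : Summable (fun p : ℕ × ℕ => e p.1 * e p.2) :=
    hes.mul_of_nonneg hes (fun k => (hepos k).le) (fun k => (hepos k).le)
  obtain ⟨w', hw'⟩ : ∃ w' : J × (ℕ × ℕ) → ℝ, w' = fun j => w j.1 * (e j.2.1 * e j.2.2) := ⟨_, rfl⟩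
  obtain ⟨a', ha'⟩ : ∃ a' : J × (ℕ × ℕ) → ℝ, a' = fun j => a j.1 + ((j.2.1 : ℝ) - (j.2.2 : ℝ)) * g := ⟨_, rfl⟩
  have hw'e : ∀ j, w' j = w j.1 * (e j.2.1 * e j.2.2) := fun j => by rw [hw']
  have ha'e : ∀ j, a' j = a j.1 + ((j.2.1 : ℝ) - (j.2.2 : ℝ)) * g := fun j => by rw [ha']
  have hw0 : ∀ j, 0 ≤ w' j := fun j => by
    rw [hw'e]; exact mul_nonneg (hw _) (mul_pos (hepos _) (hepos _)).le
  have hws : Summable w' := by
    rw [hw']
    exact hs.mul_of_nonneg hps hw (fun p => (mul_pos (hepos _) (hepos _)).le)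
  -- the two sums
  obtain ⟨N, hN⟩ : ∃ N : J × (ℕ × ℕ) → ℝ, N = fun j => if a' j = 0 then w' j else 0 := ⟨_, rfl⟩
  obtain ⟨D, hD⟩ : ∃ D : J × (ℕ × ℕ) → ℝ, D = fun j => if a j.1 = 0 ∧ j.2.1 = j.2.2 then w' j else 0 := ⟨_, rfl⟩
  have hNe : ∀ j, N j = if a' j = 0 then w' j else 0 := fun j => by rw [hN]
  have hDe : ∀ j, D j = if a j.1 = 0 ∧ j.2.1 = j.2.2 then w' j else 0 := fun j => by rw [hD]
  have hNs : Summable N := by
    refine Summable.of_nonneg_of_le (fun j => ?_) (fun j => ?_) hws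
    · rw [hNe]; split_ifs <;> simp [hw0]
    · rw [hNe]; split_ifs <;> simp [hw0]
  have hDs : Summable D := by
    refine Summable.of_nonneg_of_le (fun j => ?_) (fun j => ?_) hws
    · rw [hDe]; split_ifs <;> simp [hw0]
    · rw [hDe]; split_ifs <;> simp [hw0]
  have hDN : ∀ j, D j ≤ N j := by
    intro j
    rw [hDe, hNe]
    by_cases h1 : a j.1 = 0 ∧ j.2.1 = j.2.2
    · have h2 : a' j = 0 := by
        rw [ha'e, h1.1, h1.2]; ring
      rw [if_pos h1, if_pos h2]
    · rw [if_neg h1]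
      split_ifs <;> simp [hw0]
  have hDsum : ∑' j, D j = M * b := by
    have hinj : Function.Injective (fun p : J × ℕ => ((p.1, (p.2, p.2)) : J × (ℕ × ℕ))) := by
      rintro ⟨p1, p2⟩ ⟨q1, q2⟩ hpq
      simp only [Prod.mk.injEq] at hpq
      exact Prod.ext hpq.1 hpq.2.1
    have hsup : Function.support D ⊆ Set.range (fun p : J × ℕ => ((p.1, (p.2, p.2)) : J × (ℕ × ℕ))) := by
      intro j hj
      rw [Function.mem_support, hDe] at hj
      have h1 : a j.1 = 0 ∧ j.2.1 = j.2.2 := by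
        by_contra hc
        rw [if_neg hc] at hj
        exact hj rfl
      obtain ⟨j1, j2, j3⟩ := j
      exact ⟨(j1, j2), by simp only [Prod.mk.injEq, true_and]; exact h1.2⟩
    rw [← hinj.tsum_eq hsup]
    have h2 : Summable (fun n : J => if a n = 0 then w n else 0) := by
      refine Summable.of_nonneg_of_le (fun j => ?_) (fun j => ?_) hs
      · split_ifs <;> simp [hw]
      · split_ifs <;> simp [hw]
    have h3 : Summable (fun k : ℕ => e k * e k) :=
      hps.comp_injective (i := fun k : ℕ => ((k, k) : ℕ × ℕ)) (fun k l hkl => (Prod.mk.inj hkl).1)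
    have h4 : M * b = (∑' n : J, if a n = 0 then w n else 0) * ∑' k : ℕ, e k * e k := by
      rw [hM, hb, he]
    have h2' : ∀ n, 0 ≤ (if a n = 0 then w n else 0) := fun n => by split_ifs <;> simp [hw]
    have h3' : ∀ k, 0 ≤ e k * e k := fun k => (mul_pos (hepos _) (hepos _)).le
    rw [h4, h2.tsum_mul_tsum h3 (h2.mul_of_nonneg h3 h2' h3')]
    refine tsum_congr fun p => ?_
    rw [hDe, hw'e]
    by_cases h5 : a p.1 = 0
    · simp [h5]
    · simp [h5]
  refine ⟨∑' j, N j, ⟨J × (ℕ × ℕ), inferInstance, w', a', hw0, hws, ?_, ?_, ?_, ?_⟩, ?_, ?_, ?_⟩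
  · intro u
    rw [Complex.ofReal_mul, hF u, exp_expand x g u]
    rw [tsum_mul_tsum_of_summable_norm]
    · refine tsum_congr fun j => ?_
      rw [hw'e, ha'e, he' , he']
      have e3 : cexp (I * ((a j.1 + ((j.2.1 : ℝ) - (j.2.2 : ℝ)) * g : ℝ) : ℂ) * u) =
          cexp (I * a j.1 * u) * cexp (I * ((((j.2.1 : ℝ) - (j.2.2 : ℝ)) * g : ℝ) : ℂ) * u) := by
        rw [← Complex.exp_add]
        congr 1
        push_cast
        ring
      rw [e3]
      push_cast
      ring
    · have hn : ∀ n : J, ‖(w n : ℂ) * cexp (I * a n * u)‖ = w n := by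
        intro n
        rw [norm_mul, Complex.norm_real, Real.norm_eq_abs, abs_of_nonneg (hw n)]
        rw [show (I * a n * u : ℂ) = ((a n * u : ℝ) : ℂ) * I from by push_cast; ring]
        rw [Complex.norm_exp_ofReal_mul_I, mul_one]
      simpa only [hn] using hs
    · have hn : ∀ p : ℕ × ℕ, ‖((x ^ p.1 / (p.1.factorial : ℝ) * (x ^ p.2 / (p.2.factorial : ℝ)) : ℝ) : ℂ) *
          cexp (I * (((p.1 : ℝ) - (p.2 : ℝ)) * g : ℝ) * u)‖ = e p.1 * e p.2 := by
        intro p
        rw [norm_mul, Complex.norm_real, Real.norm_eq_abs, he', he', abs_of_pos (mul_pos (hepos _) (hepos _))]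
        rw [show (I * (((p.1 : ℝ) - (p.2 : ℝ)) * g : ℝ) * u : ℂ) = ((((p.1 : ℝ) - (p.2 : ℝ)) * g * u : ℝ) : ℂ) * I from by
          push_cast; ring]
        rw [Complex.norm_exp_ofReal_mul_I, mul_one]
      simpa only [hn] using hps
  · intro j
    rw [ha'e]
    refine AddSubgroup.add_mem _ (AddSubgroup.mem_sup_left (hT _)) (AddSubgroup.mem_sup_right ?_)
    rw [AddSubgroup.mem_closure_singleton]
    refine ⟨(j.2.1 : ℤ) - (j.2.2 : ℤ), ?_⟩
    rw [zsmul_eq_mul]
    push_cast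
    ring
  · intro y hy
    rw [AddSubgroup.mem_sup] at hy
    obtain ⟨y1, hy1, y2, hy2, hy3⟩ := hy
    rw [AddSubgroup.mem_closure_singleton] at hy2
    obtain ⟨m, hm⟩ := hy2
    obtain ⟨n, hn1, hn2⟩ := hT' y1 hy1
    refine ⟨(n, (m.toNat, (-m).toNat)), ?_, ?_⟩
    · rw [ha'e]
      simp only
      rw [hn1, ← hy3, ← hm, zsmul_eq_mul]
      have h6 : ((m.toNat : ℝ)) - (((-m).toNat : ℕ) : ℝ) = (m : ℝ) := by
        have h7 : ((m.toNat : ℤ)) - (((-m).toNat : ℕ) : ℤ) = m := by omega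
        exact_mod_cast h7
      rw [h6]
    · rw [hw'e]
      exact mul_pos hn2 (mul_pos (hepos _) (hepos _))
  · rw [hN]
  · rw [← hDsum]
    exact hDs.tsum_le_tsum hDN hNs
  · intro hq
    rw [← hDsum]
    refine tsum_congr fun j => ?_
    rw [hNe, hDe]
    by_cases h1 : a j.1 = 0 ∧ j.2.1 = j.2.2
    · have h2 : a' j = 0 := by
        rw [ha'e, h1.1, h1.2]; ring
      rw [if_pos h1, if_pos h2]
    · rw [if_neg h1, if_neg]
      intro h2
      rw [ha'e] at h2
      rcases lt_trichotomy j.2.1 j.2.2 with h3 | h3 | h3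
      · refine hq (j.2.2 - j.2.1) (by omega) ?_
        have : (j.2.2 - j.2.1) • g = a j.1 := by
          rw [nsmul_eq_mul, Nat.cast_sub h3.le]
          linarith
        rw [this]
        exact hT _
      · refine h1 ⟨?_, h3⟩
        rw [h3] at h2
        linarith
      · refine hq (j.2.1 - j.2.2) (by omega) ?_
        have : (j.2.1 - j.2.2) • g = -a j.1 := by
          rw [nsmul_eq_mul, Nat.cast_sub h3.le]
          linarith
        rw [this]
        exact AddSubgroup.neg_mem _ (hT _)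
  · rintro ⟨q, hq, hqT⟩
    rw [← hDsum]
    obtain ⟨n, hn1, hn2⟩ := hT' (-(q • g)) (AddSubgroup.neg_mem _ hqT)
    refine hDs.tsum_lt_tsum (i := (n, (q, 0))) hDN ?_ hNs
    have h1 : D (n, (q, 0)) = 0 := by
      rw [hDe, if_neg]
      rintro ⟨-, h⟩
      simp only at h
      omega
    have h2 : N (n, (q, 0)) = w' (n, (q, 0)) := by
      rw [hNe, if_pos]
      rw [ha'e]
      simp only
      rw [hn1, nsmul_eq_mul]
      push_cast
      ring
    rw [h1, h2, hw'e]
    exact mul_pos hn2 (mul_pos (hepos _) (hepos _))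

/-! ### Families -/

/-- the group generated by the frequencies in `S` -/
def TS {ι : Type} (g : ι → ℝ) (S : Finset ι) : AddSubgroup ℝ := AddSubgroup.closure (g '' (S : Set ι))

theorem TS_insert {ι : Type} [DecidableEq ι] (g : ι → ℝ) (S : Finset ι) (i : ι) :
    TS g S ⊔ AddSubgroup.closure {g i} = TS g (insert i S) := by
  unfold TS
  rw [← AddSubgroup.closure_union, Finset.coe_insert, Set.image_insert_eq, Set.union_comm, Set.singleton_union]

theorem TS_mono {ι : Type} (g : ι → ℝ) {S S' : Finset ι} (h : S ⊆ S') : TS g S ≤ TS g S' :=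
  AddSubgroup.closure_mono (Set.image_mono (by exact_mod_cast h))

/-- the finite products -/
noncomputable def FS {ι : Type} (g x : ι → ℝ) (S : Finset ι) (u : ℝ) : ℝ :=
  Real.exp (∑ i ∈ S, 2 * x i * Real.cos (g i * u))

/-- `I₀(2x)` -/
noncomputable def bb (x : ℝ) : ℝ := ∑' k : ℕ, (x ^ k / (k.factorial : ℝ)) * (x ^ k / (k.factorial : ℝ))

theorem bb_summable (x : ℝ) : Summable (fun k : ℕ => (x ^ k / (k.factorial : ℝ)) * (x ^ k / (k.factorial : ℝ))) := by
  have h1 : ∀ x : ℝ, 0 ≤ x →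
      Summable (fun k : ℕ => (x ^ k / (k.factorial : ℝ)) * (x ^ k / (k.factorial : ℝ))) := by
    intro x hx
    have h := (sm_exp x).mul_of_nonneg (sm_exp x) (fun k => by positivity) (fun k => by positivity)
    exact h.comp_injective (i := fun k : ℕ => ((k, k) : ℕ × ℕ)) (fun k l hkl => (Prod.mk.inj hkl).1)
  refine (h1 |x| (abs_nonneg x)).congr fun k => ?_
  have : ∀ y : ℝ, y ^ k / (k.factorial : ℝ) * (y ^ k / (k.factorial : ℝ)) = (y ^ 2) ^ k / (k.factorial : ℝ) ^ 2 := by
    intro y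
    rw [div_mul_div_comm, ← pow_mul, ← mul_pow, ← sq, ← sq, ← pow_mul, mul_comm]
  rw [this, this, sq_abs]

theorem one_le_bb (x : ℝ) : 1 ≤ bb x := by
  have h := (bb_summable x).le_tsum 0 (fun k _ => mul_self_nonneg _)
  simpa [bb] using h

theorem bb_le (x : ℝ) (hx : 0 ≤ x) : bb x ≤ Real.exp (2 * x) := by
  have h1 : ∀ k : ℕ, x ^ k / (k.factorial : ℝ) ≤ Real.exp x := fun k => Real.pow_div_factorial_le_exp x hx k
  have h2 : HasSum (fun k : ℕ => Real.exp x * (x ^ k / (k.factorial : ℝ))) (Real.exp x * Real.exp x) := by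
    refine HasSum.mul_left _ ?_
    have := NormedSpace.expSeries_div_hasSum_exp (𝔸 := ℝ) x
    rwa [← Real.exp_eq_exp_ℝ] at this
  have h3 : bb x ≤ ∑' k : ℕ, Real.exp x * (x ^ k / (k.factorial : ℝ)) := by
    refine (bb_summable x).tsum_le_tsum (fun k => ?_) h2.summable
    exact mul_le_mul_of_nonneg_right (h1 k) (by positivity)
  rw [h2.tsum_eq, ← Real.exp_add] at h3
  rwa [two_mul]

theorem I0_eq_bb (x : ℝ) : (I0 ((2 * x : ℝ) : ℂ)).re = bb x := by
  have h1 : I0 ((2 * x : ℝ) : ℂ) = ((bb x : ℝ) : ℂ) := by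
    unfold I0 bb
    rw [Complex.ofReal_tsum]
    refine tsum_congr fun k => ?_
    push_cast
    rw [mul_div_cancel_left₀ _ (two_ne_zero), div_mul_div_comm, two_mul, pow_add, sq]
  rw [h1, Complex.ofReal_re]

/-- one more frequency -/
theorem fam_step {ι : Type} [DecidableEq ι] (g x : ι → ℝ) (hx : ∀ i, 0 < x i) (S : Finset ι) (i : ι) (hi : i ∉ S)
    (M : ℝ) (h : Rp (FS g x S) (TS g S) M) :
    ∃ M', Rp (FS g x (insert i S)) (TS g (insert i S)) M' ∧ M * bb (x i) ≤ M' ∧
      ((∀ q : ℕ, 0 < q → q • g i ∉ TS g S) → M' = M * bb (x i)) ∧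
      ((∃ q : ℕ, 0 < q ∧ q • g i ∈ TS g S) → M * bb (x i) < M') := by
  obtain ⟨M', h1, h2, h3, h4⟩ := h.mul (x i) (g i) (bb (x i)) (hx i) rfl
  refine ⟨M', ?_, h2, h3, h4⟩
  rw [TS_insert] at h1
  have h5 : (fun u => FS g x S u * Real.exp (2 * x i * Real.cos (g i * u))) = FS g x (insert i S) := by
    funext u
    unfold FS
    rw [← Real.exp_add, Finset.sum_insert hi, add_comm]
  rwa [h5] at h1

theorem fam_empty {ι : Type} (g x : ι → ℝ) : Rp (FS g x ∅) (TS g ∅) 1 := by
  have h1 : FS g x ∅ = fun _ => 1 := by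
    funext u
    simp [FS]
  have h2 : TS g ∅ = ⊥ := by
    unfold TS
    rw [Finset.coe_empty, Set.image_empty, AddSubgroup.closure_empty]
  rw [h1, h2]
  exact Rp.one

theorem one_le_prod {ι : Type} (x : ι → ℝ) (S : Finset ι) : 1 ≤ ∏ i ∈ S, bb (x i) := by
  refine Finset.prod_induction (p := fun t : ℝ => 1 ≤ t) (fun i => bb (x i)) ?_ le_rfl (fun i _ => one_le_bb _)
  intro a b ha hb
  nlinarith

theorem fam_grow {ι : Type} [DecidableEq ι] (g x : ι → ℝ) (hx : ∀ i, 0 < x i) (S₁ : Finset ι) (η : ℝ) (hη : 0 ≤ η)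
    (h : ∃ M, Rp (FS g x S₁) (TS g S₁) M ∧ ∏ i ∈ S₁, bb (x i) + η ≤ M) (R : Finset ι) :
    ∃ M, Rp (FS g x (S₁ ∪ R)) (TS g (S₁ ∪ R)) M ∧ ∏ i ∈ S₁ ∪ R, bb (x i) + η ≤ M := by
  induction R using Finset.induction_on with
  | empty => rwa [Finset.union_empty]
  | insert j R hj ih =>
    obtain ⟨M, hM1, hM2⟩ := ih
    rw [Finset.union_insert]
    by_cases hjS : j ∈ S₁ ∪ R
    · rw [Finset.insert_eq_of_mem hjS]
      exact ⟨M, hM1, hM2⟩
    · obtain ⟨M', h1, h2, -, -⟩ := fam_step g x hx _ j hjS M hM1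
      refine ⟨M', h1, ?_⟩
      rw [Finset.prod_insert hjS]
      have h3 := one_le_bb (x j)
      have h4 := one_le_prod x (S₁ ∪ R)
      have h5 : (∏ i ∈ S₁ ∪ R, bb (x i) + η) * bb (x j) ≤ M * bb (x j) :=
        mul_le_mul_of_nonneg_right hM2 (by linarith)
      nlinarith

theorem fam_li {ι : Type} [DecidableEq ι] (g x : ι → ℝ) (hx : ∀ i, 0 < x i) (hg : LinearIndependent ℚ g)
    (R : Finset ι) : Rp (FS g x R) (TS g R) (∏ i ∈ R, bb (x i)) := by
  induction R using Finset.induction_on with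
  | empty => rw [Finset.prod_empty]; exact fam_empty g x
  | insert j R hj ih =>
    obtain ⟨M', h1, -, h2, -⟩ := fam_step g x hx _ j hj _ ih
    rw [Finset.prod_insert hj, mul_comm, ← h2 ?_]
    · exact h1
    · intro q hq hm
      have h3 : TS g R ≤ (Submodule.span ℚ (g '' (R : Set ι))).toAddSubgroup := by
        unfold TS
        rw [AddSubgroup.closure_le]
        exact Submodule.subset_span
      have h4 : q • g j ∈ Submodule.span ℚ (g '' (R : Set ι)) := h3 hm
      have h5 : g j ∈ Submodule.span ℚ (g '' (R : Set ι)) := by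
        have h6 := Submodule.smul_mem _ ((q : ℚ)⁻¹) h4
        have h7 : ((q : ℚ)⁻¹) • (q • g j) = g j := by
          rw [← Nat.cast_smul_eq_nsmul ℚ q (g j), smul_smul, inv_mul_cancel₀ (by exact_mod_cast hq.ne'), one_smul]
        rwa [h7] at h6
      exact hg.notMem_span_image (s := (R : Set ι)) (by exact_mod_cast hj) h5

theorem clear_den {ι : Type} [DecidableEq ι] (g : ι → ℝ) (A : Set ι) (y : ℝ)
    (hy : y ∈ Submodule.span ℚ (g '' A)) : ∃ S : Finset ι, (S : Set ι) ⊆ A ∧ ∃ q : ℕ, 0 < q ∧ q • y ∈ TS g S := by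
  induction hy using Submodule.span_induction with
  | mem y hy =>
    obtain ⟨j, hj, rfl⟩ := hy
    refine ⟨{j}, by simpa using hj, 1, one_pos, ?_⟩
    rw [one_smul]
    exact AddSubgroup.subset_closure ⟨j, by simp, rfl⟩
  | zero => exact ⟨∅, by simp, 1, one_pos, by simp⟩
  | add y z _ _ hy hz =>
    obtain ⟨S1, hS1, q1, hq1, h1⟩ := hy
    obtain ⟨S2, hS2, q2, hq2, h2⟩ := hz
    refine ⟨S1 ∪ S2, by simp [hS1, hS2], q1 * q2, Nat.mul_pos hq1 hq2, ?_⟩
    have e : (q1 * q2) • (y + z) = q2 • (q1 • y) + q1 • (q2 • z) := by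
      simp only [nsmul_eq_mul]
      push_cast
      ring
    rw [e]
    exact AddSubgroup.add_mem _ (AddSubgroup.nsmul_mem _ (TS_mono g Finset.subset_union_left h1) _)
      (AddSubgroup.nsmul_mem _ (TS_mono g Finset.subset_union_right h2) _)
  | smul r y _ hy =>
    obtain ⟨S1, hS1, q1, hq1, h1⟩ := hy
    refine ⟨S1, hS1, q1 * r.den, Nat.mul_pos hq1 r.den_pos, ?_⟩
    have e : (q1 * r.den) • (r • y) = r.num • (q1 • y) := by
      rw [nsmul_eq_mul, zsmul_eq_mul, nsmul_eq_mul, Rat.smul_def]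
      have h3 : (r : ℝ) * (r.den : ℝ) = (r.num : ℝ) := by exact_mod_cast r.mul_den_eq_num
      push_cast
      calc (q1 : ℝ) * (r.den : ℝ) * ((r : ℝ) * y) = ((r : ℝ) * (r.den : ℝ)) * (q1 * y) := by ring
        _ = _ := by rw [h3]
    rw [e]
    exact AddSubgroup.zsmul_mem _ h1 _

theorem fam_nonli {ι : Type} [DecidableEq ι] (g x : ι → ℝ) (hx : ∀ i, 0 < x i) (hg : ¬ LinearIndependent ℚ g) :
    ∃ (S₁ : Finset ι) (η : ℝ), 0 < η ∧ ∃ M, Rp (FS g x S₁) (TS g S₁) M ∧ ∏ i ∈ S₁, bb (x i) + η ≤ M := by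
  rw [linearIndependent_iff_notMem_span] at hg
  push Not at hg
  obtain ⟨i, hi⟩ := hg
  obtain ⟨S, hS, q, hq, hm⟩ := clear_den g _ _ hi
  have hiS : i ∉ S := fun h => (hS (by exact_mod_cast h)).2 rfl
  obtain ⟨M, hM1, hM2⟩ := fam_grow g x hx ∅ 0 le_rfl ⟨1, fam_empty g x, by simp⟩ S
  rw [Finset.empty_union] at hM1 hM2
  obtain ⟨M', h1, -, -, h4⟩ := fam_step g x hx S i hiS M hM1
  have h5 := h4 ⟨q, hq, hm⟩
  refine ⟨insert i S, M' - ∏ j ∈ insert i S, bb (x j), ?_, M', h1, by linarith⟩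
  rw [Finset.prod_insert hiS]
  have h3 := one_le_bb (x i)
  nlinarith

/-! ### Means -/

/-- mean over `[0, U]` -/
noncomputable def mn (F : ℝ → ℝ) (U : ℝ) : ℝ := (1 / U) * ∫ u in (0 : ℝ)..U, F u

theorem cesaro (φ : ℝ → ℝ) (hm : Measurable φ) (B : ℝ) (hB : ∀ u, |φ u| ≤ B) (h0 : Tendsto φ atTop (𝓝 0)) :
    Tendsto (mn φ) atTop (𝓝 0) := by
  rw [Metric.tendsto_atTop]
  intro ε hε
  have hB0 : 0 ≤ B := (abs_nonneg _).trans (hB 0)
  have h1 := Metric.tendsto_atTop.mp h0 (ε / 2) (by positivity)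
  obtain ⟨U0, hU0⟩ := h1
  obtain ⟨U1, hU1⟩ : ∃ U1, U1 = max U0 0 := ⟨_, rfl⟩
  have hU1a : U0 ≤ U1 := by rw [hU1]; exact le_max_left _ _
  have hU1b : 0 ≤ U1 := by rw [hU1]; exact le_max_right _ _
  have hint : ∀ a b : ℝ, IntervalIntegrable φ volume a b := fun a b => by
    refine (intervalIntegrable_const (c := B)).mono_fun' hm.aestronglyMeasurable ?_
    exact Eventually.of_forall fun u => by
      show |φ u| ≤ B
      exact hB u
  refine ⟨U1 + 2 * B * U1 / ε + 1, fun U hU => ?_⟩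
  have hq : 0 ≤ 2 * B * U1 / ε := by positivity
  have hUpos : 0 < U := by linarith
  have hUU1 : U1 ≤ U := by linarith
  have h2 : B * U1 < ε / 2 * U := by
    have h3 : 2 * B * U1 / ε < U := by linarith
    rw [div_lt_iff₀ hε] at h3
    linarith
  have h4 : |∫ u in (0 : ℝ)..U1, φ u| ≤ B * U1 := by
    have := intervalIntegral.norm_integral_le_of_norm_le_const (a := 0) (b := U1) (f := φ) (C := B)
      (fun u _ => by rw [Real.norm_eq_abs]; exact hB u)
    rwa [Real.norm_eq_abs, sub_zero, abs_of_nonneg hU1b] at this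
  have h5 : |∫ u in U1..U, φ u| ≤ ε / 2 * (U - U1) := by
    have := intervalIntegral.norm_integral_le_of_norm_le_const (a := U1) (b := U) (f := φ) (C := ε / 2)
      (fun u hu => by
        rw [Set.uIoc_of_le hUU1] at hu
        have h6 := hU0 u (by linarith [hu.1])
        rw [dist_zero_right] at h6
        exact h6.le)
    rwa [Real.norm_eq_abs, abs_of_nonneg (by linarith : 0 ≤ U - U1)] at this
  have h6 : |∫ u in (0 : ℝ)..U, φ u| < ε * U := by
    rw [← intervalIntegral.integral_add_adjacent_intervals (hint 0 U1) (hint U1 U)]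
    refine (abs_add_le _ _).trans_lt ?_
    nlinarith
  rw [dist_zero_right, mn, norm_mul, Real.norm_eq_abs, Real.norm_eq_abs, abs_of_pos (by positivity : 0 < 1 / U)]
  calc 1 / U * |∫ u in (0 : ℝ)..U, φ u| < 1 / U * (ε * U) := by gcongr
    _ = ε := by field_simp

/-- the full series -/
noncomputable def HH {ι : Type} (g x : ι → ℝ) (u : ℝ) : ℝ := Real.exp (∑' i, 2 * x i * Real.cos (g i * u))

theorem cos_summable {ι : Type} (g x : ι → ℝ) (hx : ∀ i, 0 < x i) (hs : Summable x) (u : ℝ) :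
    Summable (fun i => 2 * x i * Real.cos (g i * u)) := by
  refine Summable.of_norm_bounded (g := fun i => 2 * x i) (hs.mul_left 2) fun i => ?_
  rw [norm_mul, Real.norm_eq_abs, Real.norm_eq_abs, abs_of_pos (by have := hx i; positivity)]
  have := hx i
  calc 2 * x i * |Real.cos (g i * u)| ≤ 2 * x i * 1 := by
        gcongr
        exact Real.abs_cos_le_one _
    _ = 2 * x i := mul_one _

theorem HH_cont {ι : Type} (g x : ι → ℝ) (hx : ∀ i, 0 < x i) (hs : Summable x) : Continuous (HH g x) := by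
  unfold HH
  refine Real.continuous_exp.comp ?_
  refine continuous_tsum (u := fun i => 2 * x i) (fun i => by fun_prop) (hs.mul_left 2) fun i u => ?_
  rw [norm_mul, Real.norm_eq_abs, Real.norm_eq_abs, abs_of_pos (by have := hx i; positivity)]
  have := hx i
  calc 2 * x i * |Real.cos (g i * u)| ≤ 2 * x i * 1 := by
        gcongr
        exact Real.abs_cos_le_one _
    _ = 2 * x i := mul_one _

theorem FS_cont {ι : Type} (g x : ι → ℝ) (S : Finset ι) : Continuous (FS g x S) := by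
  unfold FS
  exact Real.continuous_exp.comp (continuous_finsetSum _ fun i _ => by fun_prop)

/-- the tail -/
noncomputable def tl {ι : Type} (x : ι → ℝ) (S : Finset ι) : ℝ := ∑' i, 2 * x i - ∑ i ∈ S, 2 * x i

theorem HH_low {ι : Type} (g x : ι → ℝ) (hx : ∀ i, 0 < x i) (hs : Summable x) (S : Finset ι) (u : ℝ) :
    Real.exp (-(tl x S)) * FS g x S u ≤ HH g x u := by
  unfold FS HH tl
  rw [← Real.exp_add]
  refine Real.exp_le_exp.mpr ?_
  have h1 := cos_summable g x hx hs u
  have h2 : Summable (fun i => 2 * x i) := hs.mul_left 2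
  have h3 := (h2.add h1).sum_le_tsum S (fun i _ => by
    have h4 := hx i
    have h5 := Real.neg_one_le_cos (g i * u)
    nlinarith)
  rw [h2.tsum_add h1, Finset.sum_add_distrib] at h3
  linarith

theorem HH_up {ι : Type} (g x : ι → ℝ) (hx : ∀ i, 0 < x i) (hs : Summable x) (S : Finset ι) (u : ℝ) :
    HH g x u ≤ Real.exp (tl x S) * FS g x S u := by
  unfold FS HH tl
  rw [← Real.exp_add]
  refine Real.exp_le_exp.mpr ?_
  have h1 := cos_summable g x hx hs u
  have h2 : Summable (fun i => 2 * x i) := hs.mul_left 2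
  have h3 := (h2.sub h1).sum_le_tsum S (fun i _ => by
    have h4 := hx i
    have h5 := Real.cos_le_one (g i * u)
    nlinarith)
  rw [h2.tsum_sub h1, Finset.sum_sub_distrib] at h3
  linarith

theorem tl_tendsto {ι : Type} (x : ι → ℝ) (hs : Summable x) : Tendsto (tl x) atTop (𝓝 0) := by
  have h2 : Summable (fun i => 2 * x i) := hs.mul_left 2
  have h3 : Tendsto (fun S : Finset ι => ∑ i ∈ S, 2 * x i) atTop (𝓝 (∑' i, 2 * x i)) := h2.hasSum
  have h4 := (tendsto_const_nhds (x := ∑' i, 2 * x i)).sub h3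
  rw [sub_self] at h4
  exact h4

theorem mn_mono (F G : ℝ → ℝ) (hF : Continuous F) (hG : Continuous G) (h : ∀ u, F u ≤ G u) (U : ℝ) (hU : 0 < U) :
    mn F U ≤ mn G U := by
  unfold mn
  refine mul_le_mul_of_nonneg_left ?_ (by positivity)
  exact intervalIntegral.integral_mono_on hU.le (hF.intervalIntegrable _ _) (hG.intervalIntegrable _ _)
    (fun u _ => h u)

theorem mn_mul (F : ℝ → ℝ) (a U : ℝ) : mn (fun u => a * F u) U = a * mn F U := by
  unfold mn
  rw [intervalIntegral.integral_const_mul]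
  ring

theorem mn_low {ι : Type} (g x : ι → ℝ) (hx : ∀ i, 0 < x i) (hs : Summable x) (P η : ℝ)
    (hP : Tendsto (fun S : Finset ι => ∏ i ∈ S, bb (x i)) atTop (𝓝 P)) (S₁ : Finset ι)
    (h : ∀ S : Finset ι, S₁ ⊆ S → ∃ M, Rp (FS g x S) (TS g S) M ∧ ∏ i ∈ S, bb (x i) + η ≤ M) (δ : ℝ) (hδ : 0 < δ) :
    ∀ᶠ U in atTop, P + η - δ ≤ mn (HH g x) U := by
  have h1 : Tendsto (fun S : Finset ι => Real.exp (-(tl x S)) * (∏ i ∈ S, bb (x i) + η)) atTop (𝓝 (P + η)) := by
    have h2 : Tendsto (fun S : Finset ι => Real.exp (-(tl x S))) atTop (𝓝 1) := by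
      have := (Real.continuous_exp.tendsto _).comp ((tl_tendsto x hs).neg)
      simpa [Function.comp_def] using this
    have h3 := h2.mul (hP.add_const η)
    rwa [one_mul] at h3
  have h4 : ∀ᶠ S : Finset ι in atTop, P + η - δ < Real.exp (-(tl x S)) * (∏ i ∈ S, bb (x i) + η) :=
    h1.eventually (lt_mem_nhds (by linarith))
  obtain ⟨S, hS1, hS2⟩ := (h4.and (eventually_ge_atTop S₁)).exists
  obtain ⟨M, hM1, hM2⟩ := h S hS2
  have h5 : P + η - δ < Real.exp (-(tl x S)) * M :=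
    hS1.trans_le (mul_le_mul_of_nonneg_left hM2 (Real.exp_pos _).le)
  have h6 : Tendsto (fun U => Real.exp (-(tl x S)) * mn (FS g x S) U) atTop (𝓝 (Real.exp (-(tl x S)) * M)) :=
    hM1.mean.const_mul _
  filter_upwards [h6.eventually (lt_mem_nhds h5), eventually_gt_atTop 0] with U hU hU0
  refine hU.le.trans ?_
  rw [← mn_mul]
  exact mn_mono _ _ (continuous_const.mul (FS_cont g x S)) (HH_cont g x hx hs) (HH_low g x hx hs S) U hU0

theorem mn_up {ι : Type} (g x : ι → ℝ) (hx : ∀ i, 0 < x i) (hs : Summable x) (P : ℝ)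
    (hP : Tendsto (fun S : Finset ι => ∏ i ∈ S, bb (x i)) atTop (𝓝 P))
    (h : ∀ S : Finset ι, Rp (FS g x S) (TS g S) (∏ i ∈ S, bb (x i))) (δ : ℝ) (hδ : 0 < δ) :
    ∀ᶠ U in atTop, mn (HH g x) U ≤ P + δ := by
  have h1 : Tendsto (fun S : Finset ι => Real.exp (tl x S) * (∏ i ∈ S, bb (x i))) atTop (𝓝 P) := by
    have h2 : Tendsto (fun S : Finset ι => Real.exp (tl x S)) atTop (𝓝 1) := by
      have := (Real.continuous_exp.tendsto _).comp (tl_tendsto x hs)
      simpa [Function.comp_def] using this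
    have h3 := h2.mul hP
    rwa [one_mul] at h3
  have h4 : ∀ᶠ S : Finset ι in atTop, Real.exp (tl x S) * (∏ i ∈ S, bb (x i)) < P + δ :=
    h1.eventually (gt_mem_nhds (by linarith))
  obtain ⟨S, hS1⟩ := h4.exists
  have h6 : Tendsto (fun U => Real.exp (tl x S) * mn (FS g x S) U) atTop
      (𝓝 (Real.exp (tl x S) * ∏ i ∈ S, bb (x i))) := (h S).mean.const_mul _
  filter_upwards [h6.eventually (gt_mem_nhds hS1), eventually_gt_atTop 0] with U hU hU0
  refine le_trans ?_ hU.le
  rw [← mn_mul]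
  exact mn_mono _ _ (HH_cont g x hx hs) (continuous_const.mul (FS_cont g x S)) (HH_up g x hx hs S) U hU0

theorem prod_tendsto {ι : Type} (x : ι → ℝ) (hx : ∀ i, 0 < x i) (hs : Summable x) :
    Tendsto (fun S : Finset ι => ∏ i ∈ S, bb (x i)) atTop (𝓝 (∏' i, bb (x i))) := by
  have h0 : ∀ i, 0 < bb (x i) := fun i => lt_of_lt_of_le one_pos (one_le_bb _)
  have h1 : Multipliable (fun i => bb (x i)) := by
    refine Real.multipliable_of_summable_log h0 ?_
    refine Summable.of_nonneg_of_le (fun i => Real.log_nonneg (one_le_bb _)) (fun i => ?_) (hs.mul_left 2)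
    rw [Real.log_le_iff_le_exp (h0 i)]
    exact bb_le _ (hx i).le
  exact h1.hasProd

theorem HH_bdd {ι : Type} (g x : ι → ℝ) (hx : ∀ i, 0 < x i) (hs : Summable x) (u : ℝ) :
    HH g x u ≤ Real.exp (∑' i, 2 * x i) := by
  have h := HH_up g x hx hs ∅ u
  simpa [tl, FS] using h

theorem t_MV : S_MV := by
  classical
  intro ι g c κ lam r hg hc hcs hlam hrm hrB hr0
  obtain ⟨x, hxd⟩ : ∃ x : ι → ℝ, x = fun i => lam * c i := ⟨_, rfl⟩
  have hxe : ∀ i, x i = lam * c i := fun i => by rw [hxd]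
  have hx : ∀ i, 0 < x i := fun i => by rw [hxe]; exact mul_pos hlam (hc i)
  have hs : Summable x := by rw [hxd]; exact hcs.mul_left lam
  have hI : ∀ i, (I0 ((2 * lam * c i : ℝ) : ℂ)).re = bb (x i) := fun i => by
    rw [← I0_eq_bb, hxe, mul_assoc]
  have hP := prod_tendsto x hx hs
  have hprod : (∏' i, (I0 ((2 * lam * c i : ℝ) : ℂ)).re) = ∏' i, bb (x i) := tprod_congr hI
  rw [hprod]
  obtain ⟨P, hPd⟩ : ∃ P, P = ∏' i, bb (x i) := ⟨_, rfl⟩
  rw [← hPd] at hP ⊢
  obtain ⟨G, hG⟩ : ∃ G : ℝ → ℝ, G = fun u => Real.exp (lam * (κ + ∑' i, 2 * c i * Real.cos (g i * u) + r u)) :=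
    ⟨_, rfl⟩
  have hGe : ∀ u, G u = Real.exp (lam * κ) * HH g x u * Real.exp (lam * r u) := by
    intro u
    rw [hG]
    simp only
    unfold HH
    rw [← Real.exp_add, ← Real.exp_add]
    congr 1
    have : ∑' i, 2 * x i * Real.cos (g i * u) = lam * ∑' i, 2 * c i * Real.cos (g i * u) := by
      rw [← tsum_mul_left]
      refine tsum_congr fun i => ?_
      rw [hxe]
      ring
    rw [this]
    ring
  -- the error term
  obtain ⟨φ, hφ⟩ : ∃ φ : ℝ → ℝ, φ = fun u => Real.exp (lam * κ) * HH g x u * (Real.exp (lam * r u) - 1) := ⟨_, rfl⟩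
  obtain ⟨B, hB⟩ := hrB
  have hφm : Measurable φ := by
    rw [hφ]
    have h1 := (HH_cont g x hx hs).measurable
    fun_prop
  have hHpos : ∀ u, 0 < HH g x u := fun u => Real.exp_pos _
  have hHB := HH_bdd g x hx hs
  have hφB : ∀ u, |φ u| ≤ Real.exp (lam * κ) * Real.exp (∑' i, 2 * x i) * (Real.exp (lam * B) + 1) := by
    intro u
    rw [hφ]
    simp only
    rw [abs_mul, abs_of_pos (mul_pos (Real.exp_pos _) (hHpos u))]
    have h1 : |Real.exp (lam * r u) - 1| ≤ Real.exp (lam * B) + 1 := by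
      have h2 : Real.exp (lam * r u) ≤ Real.exp (lam * B) :=
        Real.exp_le_exp.mpr (mul_le_mul_of_nonneg_left ((le_abs_self _).trans (hB u)) hlam.le)
      have h3 := Real.exp_pos (lam * r u)
      rw [abs_le]
      constructor <;> linarith [Real.exp_pos (lam * B)]
    have h4 := hHB u
    gcongr
  have hφ0 : Tendsto φ atTop (𝓝 0) := by
    have h1 : Tendsto (fun u => Real.exp (lam * r u) - 1) atTop (𝓝 0) := by
      have h2 := (Real.continuous_exp.tendsto _).comp (hr0.const_mul lam)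
      have h3 := h2.sub_const 1
      simpa [Function.comp_def] using h3
    have h4 : Tendsto (fun u => Real.exp (lam * κ) * Real.exp (∑' i, 2 * x i) * |Real.exp (lam * r u) - 1|) atTop
        (𝓝 0) := by
      have := (h1.abs).const_mul (Real.exp (lam * κ) * Real.exp (∑' i, 2 * x i))
      simpa using this
    rw [tendsto_zero_iff_abs_tendsto_zero]
    refine squeeze_zero (fun u => abs_nonneg _) (fun u => ?_) h4
    simp only [Function.comp_apply]
    rw [hφ]
    simp only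
    rw [abs_mul, abs_of_pos (mul_pos (Real.exp_pos _) (hHpos u))]
    have h5 := hHB u
    gcongr
  have hces := cesaro φ hφm _ hφB hφ0
  have hdec : ∀ U, mn G U = Real.exp (lam * κ) * mn (HH g x) U + mn φ U := by
    intro U
    rw [← mn_mul]
    unfold mn
    rw [← mul_add, ← intervalIntegral.integral_add]
    · congr 1
      refine intervalIntegral.integral_congr fun u _ => ?_
      show G u = Real.exp (lam * κ) * HH g x u + φ u
      rw [hGe, hφ]
      ring
    · exact (continuous_const.mul (HH_cont g x hx hs)).intervalIntegrable _ _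
    · refine (intervalIntegrable_const
        (c := Real.exp (lam * κ) * Real.exp (∑' i, 2 * x i) * (Real.exp (lam * B) + 1))).mono_fun'
        hφm.aestronglyMeasurable ?_
      exact Eventually.of_forall fun u => by
        show |φ u| ≤ Real.exp (lam * κ) * Real.exp (∑' i, 2 * x i) * (Real.exp (lam * B) + 1)
        exact hφB u
  have hmnG : (fun U : ℝ => (1 / U) *
      ∫ u in (0 : ℝ)..U, Real.exp (lam * (κ + ∑' i, 2 * c i * Real.cos (g i * u) + r u))) = mn G := by
    funext U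
    rw [hG]
    rfl
  have hlow : ∀ (η : ℝ) (S₁ : Finset ι),
      (∀ S : Finset ι, S₁ ⊆ S → ∃ M, Rp (FS g x S) (TS g S) M ∧ ∏ i ∈ S, bb (x i) + η ≤ M) →
      ∀ ε : ℝ, 0 < ε → ∀ᶠ U in atTop, Real.exp (lam * κ) * (P + η) - ε ≤ mn G U := by
    intro η S₁ h ε hε
    obtain ⟨E, hE⟩ : ∃ E, E = Real.exp (lam * κ) := ⟨_, rfl⟩
    have hEpos : 0 < E := by rw [hE]; exact Real.exp_pos _
    have h1 := mn_low g x hx hs P η hP S₁ h (ε / 2 / E) (by positivity)
    have h2 : ∀ᶠ U in atTop, -(ε / 2) < mn φ U := hces.eventually (lt_mem_nhds (by linarith))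
    filter_upwards [h1, h2] with U h3 h4
    rw [hdec, ← hE]
    have h5 := mul_le_mul_of_nonneg_left h3 hEpos.le
    have h6 : E * (P + η - ε / 2 / E) = E * (P + η) - ε / 2 := by field_simp
    rw [h6] at h5
    linarith
  have hbase : ∀ S : Finset ι, ∅ ⊆ S → ∃ M, Rp (FS g x S) (TS g S) M ∧ ∏ i ∈ S, bb (x i) + 0 ≤ M := by
    intro S _
    have := fam_grow g x hx ∅ 0 le_rfl ⟨1, fam_empty g x, by simp⟩ S
    rwa [Finset.empty_union] at this
  have hlim : LinearIndependent ℚ g → Tendsto (mn G) atTop (𝓝 (Real.exp (lam * κ) * P)) := by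
    intro hLI
    have h1 : Tendsto (mn (HH g x)) atTop (𝓝 P) := by
      rw [Metric.tendsto_nhds]
      intro ε hε
      have h2 := mn_low g x hx hs P 0 hP ∅ hbase (ε / 2) (by positivity)
      have h3 := mn_up g x hx hs P hP (fun S => fam_li g x hx hLI S) (ε / 2) (by positivity)
      filter_upwards [h2, h3] with U h4 h5
      rw [Real.dist_eq, abs_lt]
      constructor <;> linarith
    have h2 := (h1.const_mul (Real.exp (lam * κ))).add hces
    rw [add_zero] at h2
    exact h2.congr fun U => (hdec U).symm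
  rw [hmnG]
  refine ⟨?_, hlim⟩
  have hE := Real.exp_pos (lam * κ)
  by_cases hLI : LinearIndependent ℚ g
  · refine ⟨Real.exp (lam * κ) * P, le_rfl, fun h => absurd hLI h, fun _ => rfl, ?_⟩
    intro ε hε
    have h1 := hlow 0 ∅ hbase ε hε
    rw [add_zero] at h1
    filter_upwards [h1] with U hU
    rw [hG] at hU
    exact hU
  · obtain ⟨S₁, η, hη, hM⟩ := fam_nonli g x hx hLI
    refine ⟨Real.exp (lam * κ) * (P + η), ?_, fun _ => ?_, fun h => absurd h hLI, ?_⟩
    · nlinarith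
    · nlinarith
    · intro ε hε
      have h1 := hlow η S₁ (fun S hS => by
        have := fam_grow g x hx S₁ η hη.le hM S
        rwa [Finset.union_eq_right.mpr hS] at this) ε hε
      filter_upwards [h1] with U hU
      rw [hG] at hU
      exact hU

end Pool.Agent.Q151.LQ
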