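import Pool.Agent.Q151.LQ.Base

/-!
# Project LQ (helper145), LMQ: mean and mean square of the local factor (helper151)
-/

set_option autoImplicit false

namespace Pool.Agent.Q151.LQ

open Finset Filter Pool.Agent.Q145.SZ Pool.Agent.Q145.LQ

section
variable {p : ℕ} [Fact p.Prime]

/-- from tuples of residues to tuples of classes -/
theorem sum_range_zmod (M : ℕ) (Φ : (Fin M → ZMod p) → ℝ) :
    ∑ t ∈ Fintype.piFinset (fun _ : Fin M => range p), Φ (fun i => (t i : ZMod p)) = ∑ T : Fin M → ZMod p, Φ T := by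
  classical
  refine Finset.sum_nbij' (fun t i => (t i : ZMod p)) (fun T i => (T i).val) ?_ ?_ ?_ ?_ ?_
  · intro t _
    exact Finset.mem_univ _
  · intro T _
    rw [Fintype.mem_piFinset]
    intro i
    rw [Finset.mem_range]
    exact ZMod.val_lt _
  · intro t ht
    rw [Fintype.mem_piFinset] at ht
    funext i
    simp only
    rw [ZMod.val_natCast, Nat.mod_eq_of_lt (Finset.mem_range.1 (ht i))]
  · intro T _
    funext i
    simp
  · intro t _
    rfl

/-- the indicator of nonzero classes -/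
def nz (c : ZMod p) : ℝ := if c = 0 then 0 else 1

/-- number of classes avoiding all zeros -/
noncomputable def NQ {K : ℕ} (q : Fin K → Polynomial ℤ) (S : Fin K → ZMod p) : ℝ :=
  ∑ x : ZMod p, ∏ i, nz (ev (q i) x + S i)

theorem NQ_eq {K : ℕ} (q : Fin K → Polynomial ℤ) (s : Fin K → ℕ) :
    (p : ℝ) - nuQ q s p = NQ (p := p) q (fun i => (s i : ZMod p)) := by
  classical
  rw [nuQ_eq q s (p := p)]
  have h1 : ∀ x : ZMod p, ∏ i, nz (ev (q i) x + (s i : ZMod p)) =
      1 - if (∃ i, ev (q i) x + (s i : ZMod p) = 0) then (1 : ℝ) else 0 := by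
    intro x
    split_ifs with h
    · obtain ⟨i, hi⟩ := h
      rw [prod_eq_zero (mem_univ i) (by unfold nz; rw [if_pos hi])]
      norm_num
    · rw [prod_eq_one, sub_zero]
      intro i _
      unfold nz
      rw [if_neg]
      intro hi
      exact h ⟨i, hi⟩
  unfold NQ
  rw [sum_congr rfl fun x _ => h1 x, sum_sub_distrib, sum_const, card_univ, ZMod.card, nsmul_eq_mul,
    mul_one, ← sum_boole]

theorem sum_nz (a : ZMod p) : ∑ c : ZMod p, nz (a + c) = (p : ℝ) - 1 := by
  classical
  have h1 : ∀ c : ZMod p, nz (a + c) = 1 - if c = -a then (1 : ℝ) else 0 := by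
    intro c
    unfold nz
    by_cases h : c = -a
    · rw [if_pos h, h, if_pos (by ring)]; norm_num
    · rw [if_neg h, if_neg, sub_zero]
      intro h2
      exact h (eq_neg_of_add_eq_zero_right h2)
  rw [sum_congr rfl fun c _ => h1 c, sum_sub_distrib, sum_const, card_univ, ZMod.card, nsmul_eq_mul,
    mul_one, sum_ite_eq', if_pos (mem_univ _)]

theorem sum_nz2 (a b : ZMod p) : ∑ c : ZMod p, nz (a + c) * nz (b + c) =
    (p : ℝ) - 2 + if a = b then 1 else 0 := by
  classical
  by_cases hab : a = b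
  · subst hab
    rw [if_pos rfl]
    have h1 : ∀ c : ZMod p, nz (a + c) * nz (a + c) = nz (a + c) := by
      intro c
      unfold nz
      split_ifs <;> norm_num
    rw [sum_congr rfl fun c _ => h1 c, sum_nz]
    ring
  · rw [if_neg hab]
    have h1 : ∀ c : ZMod p, nz (a + c) * nz (b + c) =
        1 - (if c = -a then (1 : ℝ) else 0) - if c = -b then (1 : ℝ) else 0 := by
      intro c
      unfold nz
      by_cases h : c = -a
      · have h2 : c ≠ -b := by
          rw [h]
          intro h3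
          exact hab (neg_injective h3)
        rw [if_pos h, if_neg h2, h, if_pos (by ring)]; norm_num
      · have h3 : ¬ (a + c = 0) := fun h2 => h (eq_neg_of_add_eq_zero_right h2)
        rw [if_neg h, if_neg h3]
        by_cases h4 : c = -b
        · rw [if_pos h4, h4, if_pos (by ring)]; norm_num
        · have h5 : ¬ (b + c = 0) := fun h2 => h4 (eq_neg_of_add_eq_zero_right h2)
          rw [if_neg h4, if_neg h5]; norm_num
    rw [sum_congr rfl fun c _ => h1 c, sum_sub_distrib, sum_sub_distrib, sum_const, card_univ,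
      ZMod.card, nsmul_eq_mul, mul_one, sum_ite_eq', if_pos (mem_univ _), sum_ite_eq',
      if_pos (mem_univ _)]
    ring

theorem first {K : ℕ} (q : Fin K → Polynomial ℤ) :
    ∑ S : Fin K → ZMod p, NQ q S = p * ((p : ℝ) - 1) ^ K := by
  classical
  unfold NQ
  rw [sum_comm]
  have h1 : ∀ x : ZMod p, ∑ S : Fin K → ZMod p, ∏ i, nz (ev (q i) x + S i) = ((p : ℝ) - 1) ^ K := by
    intro x
    have h2 := Finset.prod_univ_sum (fun _ : Fin K => (univ : Finset (ZMod p)))
      (fun i c => nz (ev (q i) x + c))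
    rw [Fintype.piFinset_univ] at h2
    rw [← h2, prod_congr rfl fun i _ => sum_nz (ev (q i) x), prod_const, card_univ, Fintype.card_fin]
  rw [sum_congr rfl fun x _ => h1 x, sum_const, card_univ, ZMod.card, nsmul_eq_mul]

theorem second {K : ℕ} (q : Fin K → Polynomial ℤ) :
    ∑ S : Fin K → ZMod p, NQ q S ^ 2 = ∑ x : ZMod p, ∑ y : ZMod p,
      ∏ i, ((p : ℝ) - 2 + if ev (q i) x = ev (q i) y then 1 else 0) := by
  classical
  have h1 : ∀ S : Fin K → ZMod p, NQ q S ^ 2 =
      ∑ x : ZMod p, ∑ y : ZMod p, ∏ i, (nz (ev (q i) x + S i) * nz (ev (q i) y + S i)) := by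
    intro S
    unfold NQ
    rw [sq, sum_mul_sum]
    refine sum_congr rfl fun c _ => sum_congr rfl fun c' _ => ?_
    rw [prod_mul_distrib]
  rw [sum_congr rfl fun S _ => h1 S, sum_comm]
  refine sum_congr rfl fun x _ => ?_
  rw [sum_comm]
  refine sum_congr rfl fun y _ => ?_
  have h2 := Finset.prod_univ_sum (fun _ : Fin K => (univ : Finset (ZMod p)))
      (fun i c => nz (ev (q i) x + c) * nz (ev (q i) y + c))
  rw [Fintype.piFinset_univ] at h2
  rw [← h2]
  exact prod_congr rfl fun i _ => sum_nz2 _ _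

end

theorem exp_le' {y : ℝ} (hy : 0 ≤ y) (hy1 : y ≤ 1) : Real.exp y ≤ 1 + 2 * y := by
  have := Real.abs_exp_sub_one_sub_id_le (x := y) (by rw [abs_of_nonneg hy]; exact hy1)
  rw [abs_le] at this
  nlinarith [this.2]

theorem t_LMQ : S_LMQ := by
  classical
  intro d p K q hp hK hq
  have : Fact p.Prime := ⟨hp⟩
  have hp2 : (2 : ℝ) ≤ p := by exact_mod_cast hp.two_le
  have hp0 : (0 : ℝ) < p := by linarith
  have hq0 : (0 : ℝ) < (p : ℝ) - 1 := by linarith
  have hr : (0 : ℝ) < 1 - 1 / (p : ℝ) := by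
    rw [sub_pos, div_lt_one hp0]; linarith
  have hr1 : 1 - 1 / (p : ℝ) = ((p : ℝ) - 1) / p := by field_simp
  have hloc : ∀ s : Fin K → ℕ, locQ q s p =
      NQ (p := p) q (fun i => (s i : ZMod p)) * ((p : ℝ) * (1 - 1 / (p : ℝ)) ^ K)⁻¹ := by
    intro s
    rw [← NQ_eq]
    unfold locQ
    have : (0 : ℝ) < (1 - 1 / (p : ℝ)) ^ K := by positivity
    field_simp
  have hcard : ((Fintype.piFinset (fun _ : Fin K => range p)).card : ℝ) = (p : ℝ) ^ K := by
    rw [Fintype.card_piFinset, prod_const, card_range, card_univ, Fintype.card_fin]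
    push_cast
    rfl
  have hmean : ∑ s ∈ Fintype.piFinset (fun _ : Fin K => range p), locQ q s p = (p : ℝ) ^ K := by
    rw [sum_congr rfl fun s _ => hloc s, ← sum_mul, sum_range_zmod (p := p) K (fun S => NQ q S), first, hr1]
    rw [div_pow]
    field_simp
  constructor
  · rw [sum_sub_distrib, hmean, sum_const, nsmul_eq_mul, mul_one, hcard, sub_self]
  · have h1 : ∑ s ∈ Fintype.piFinset (fun _ : Fin K => range p), (locQ q s p - 1) ^ 2 =
        (∑ s ∈ Fintype.piFinset (fun _ : Fin K => range p), locQ q s p ^ 2) - (p : ℝ) ^ K := by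
      have : ∀ s ∈ Fintype.piFinset (fun _ : Fin K => range p),
          (locQ q s p - 1) ^ 2 = locQ q s p ^ 2 - 2 * locQ q s p + 1 := fun s _ => by ring
      rw [sum_congr rfl this, sum_add_distrib, sum_sub_distrib, ← mul_sum, hmean, sum_const,
        nsmul_eq_mul, mul_one, hcard]
      ring
    -- the second moment
    have h2 : ∑ s ∈ Fintype.piFinset (fun _ : Fin K => range p), locQ q s p ^ 2 =
        (p : ℝ) ^ K * (((p : ℝ) ^ 2)⁻¹ * ∑ x : ZMod p, ∑ y : ZMod p,
          ∏ i, (((p : ℝ) - 2 + if ev (q i) x = ev (q i) y then 1 else 0) * (p / ((p : ℝ) - 1) ^ 2))) := by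
      have e1 : ∀ s ∈ Fintype.piFinset (fun _ : Fin K => range p), locQ q s p ^ 2 =
          NQ (p := p) q (fun i => (s i : ZMod p)) ^ 2 * (((p : ℝ) * (1 - 1 / (p : ℝ)) ^ K)⁻¹) ^ 2 := fun s _ => by
        rw [hloc s, mul_pow]
      have e2 : ∀ x y : ZMod p, ∏ i, (((p : ℝ) - 2 + if ev (q i) x = ev (q i) y then 1 else 0) * (p / ((p : ℝ) - 1) ^ 2)) =
          (∏ i, ((p : ℝ) - 2 + if ev (q i) x = ev (q i) y then 1 else 0)) * (p / ((p : ℝ) - 1) ^ 2) ^ K := by
        intro x y
        rw [prod_mul_distrib, prod_const, card_univ, Fintype.card_fin]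
      rw [sum_congr rfl e1, ← sum_mul, sum_range_zmod (p := p) K (fun S => NQ q S ^ 2), second,
        sum_congr rfl fun x _ => sum_congr rfl fun y _ => e2 x y]
      simp_rw [← sum_mul]
      rw [hr1, div_pow, div_pow]
      have e3 : (((p : ℝ) - 1) ^ 2) ^ K = ((p : ℝ) - 1) ^ K * ((p : ℝ) - 1) ^ K := by
        rw [← pow_mul, mul_comm, pow_mul, sq]
      rw [e3]
      field_simp
    rcases Nat.eq_zero_or_pos K with hK0 | hK0
    · subst hK0
      rw [h1, h2]
      simp
      rw [← sq, inv_mul_cancel₀ (by positivity)]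
    have hd1 : 1 ≤ d := (hq ⟨0, hK0⟩).1.trans (hq ⟨0, hK0⟩).2.1
    have hKp : K ≤ p - 1 := by
      have : 8 * 1 * (K + 1) ≤ 8 * d * (K + 1) := by gcongr
      omega
    have hKp' : (K : ℝ) ≤ (p : ℝ) - 1 := by
      have h3 : ((K : ℕ) : ℝ) ≤ ((p - 1 : ℕ) : ℝ) := by exact_mod_cast hKp
      rwa [Nat.cast_sub hp.one_lt.le, Nat.cast_one] at h3
    have hfac : ∀ x y : ZMod p, ∏ i, (((p : ℝ) - 2 + if ev (q i) x = ev (q i) y then 1 else 0) * (p / ((p : ℝ) - 1) ^ 2)) ≤
        1 + 4 / p * ∑ i, (if ev (q i) x = ev (q i) y then (1 : ℝ) else 0) := by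
      intro x y
      obtain ⟨κ, hκ⟩ : ∃ κ : ℝ, κ = ∑ i, (if ev (q i) x = ev (q i) y then (1 : ℝ) else 0) := ⟨_, rfl⟩
      have hκ0 : 0 ≤ κ := by
        rw [hκ]
        exact sum_nonneg fun i _ => by split_ifs <;> norm_num
      have hκK : κ ≤ K := by
        rw [hκ]
        refine (sum_le_card_nsmul _ _ 1 fun i _ => ?_).trans ?_
        · split_ifs <;> norm_num
        · simp
      have e1 : ∀ i ∈ (univ : Finset (Fin K)),
          ((p : ℝ) - 2 + if ev (q i) x = ev (q i) y then 1 else 0) * (p / ((p : ℝ) - 1) ^ 2) ≤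
          Real.exp ((if ev (q i) x = ev (q i) y then (1 : ℝ) else 0) * (1 / ((p : ℝ) - 1))) := by
        intro i _
        refine le_trans ?_ (Real.add_one_le_exp _)
        split_ifs
        · rw [mul_div_assoc', div_le_iff₀ (by positivity)]
          have : (1 * (1 / ((p : ℝ) - 1)) + 1) * ((p : ℝ) - 1) ^ 2 = ((p : ℝ) - 1) + ((p : ℝ) - 1) ^ 2 := by
            field_simp
          rw [this]
          apply le_of_eq
          ring
        · rw [mul_div_assoc', div_le_iff₀ (by positivity)]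
          nlinarith
      have e2 : ∀ i ∈ (univ : Finset (Fin K)), 0 ≤
          ((p : ℝ) - 2 + if ev (q i) x = ev (q i) y then 1 else 0) * (p / ((p : ℝ) - 1) ^ 2) := by
        intro i _
        refine mul_nonneg ?_ (by positivity)
        split_ifs <;> linarith
      have e3 := prod_le_prod e2 e1
      refine e3.trans ?_
      rw [← Real.exp_sum, ← sum_mul, ← hκ]
      have e4 : κ * (1 / ((p : ℝ) - 1)) ≤ 1 := by
        rw [mul_one_div, div_le_one hq0]
        linarith
      refine (exp_le' (by positivity) e4).trans ?_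
      have e5 : 2 * (κ * (1 / ((p : ℝ) - 1))) ≤ 4 / p * κ := by
        have e6 : 2 * (1 / ((p : ℝ) - 1)) ≤ 4 / p := by
          rw [mul_one_div, div_le_div_iff₀ hq0 hp0]
          linarith
        nlinarith [mul_le_mul_of_nonneg_right e6 hκ0]
      linarith
    have hκsum : ∑ x : ZMod p, ∑ y : ZMod p, ∑ i, (if ev (q i) x = ev (q i) y then (1 : ℝ) else 0) ≤ d * K * p := by
      have e1 : ∀ x : ZMod p, ∑ y : ZMod p, ∑ i, (if ev (q i) x = ev (q i) y then (1 : ℝ) else 0) ≤ d * K := by
        intro x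
        rw [sum_comm]
        have e2 : ∀ i ∈ (univ : Finset (Fin K)), ∑ y : ZMod p, (if ev (q i) x = ev (q i) y then (1 : ℝ) else 0) ≤ d := by
          intro i _
          have e3 : ∑ y : ZMod p, (if ev (q i) x = ev (q i) y then (1 : ℝ) else 0) =
              ((univ.filter fun y : ZMod p => ev (q i) y = ev (q i) x).card : ℝ) := by
            rw [sum_boole]
            congr 2
            ext y
            simp only [mem_filter, mem_univ, true_and]
            exact eq_comm
          rw [e3]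
          exact_mod_cast roots_le (q i) (hq i).1 (hq i).2.1 (hq i).2.2 _
        refine (sum_le_card_nsmul _ _ _ e2).trans ?_
        rw [card_univ, Fintype.card_fin, nsmul_eq_mul, mul_comm]
      refine (sum_le_card_nsmul _ _ _ fun x _ => e1 x).trans ?_
      rw [card_univ, ZMod.card, nsmul_eq_mul, mul_comm]
    have hmain : ((p : ℝ) ^ 2)⁻¹ * ∑ x : ZMod p, ∑ y : ZMod p,
          ∏ i, (((p : ℝ) - 2 + if ev (q i) x = ev (q i) y then 1 else 0) * (p / ((p : ℝ) - 1) ^ 2)) ≤
        1 + 4 * d * K / (p : ℝ) ^ 2 := by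
      have e1 : ∑ x : ZMod p, ∑ y : ZMod p,
          ∏ i, (((p : ℝ) - 2 + if ev (q i) x = ev (q i) y then 1 else 0) * (p / ((p : ℝ) - 1) ^ 2)) ≤
          ∑ x : ZMod p, ∑ y : ZMod p, (1 + 4 / p * ∑ i, (if ev (q i) x = ev (q i) y then (1 : ℝ) else 0)) :=
        sum_le_sum fun x _ => sum_le_sum fun y _ => hfac x y
      have e2 : ∑ x : ZMod p, ∑ y : ZMod p, (1 + 4 / p * ∑ i, (if ev (q i) x = ev (q i) y then (1 : ℝ) else 0)) =
          (p : ℝ) ^ 2 + 4 / p * ∑ x : ZMod p, ∑ y : ZMod p, ∑ i, (if ev (q i) x = ev (q i) y then (1 : ℝ) else 0) := by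
        simp_rw [sum_add_distrib, ← mul_sum, sum_const, card_univ, ZMod.card, nsmul_eq_mul]
        ring
      have e3 : 4 / (p : ℝ) * ∑ x : ZMod p, ∑ y : ZMod p, ∑ i, (if ev (q i) x = ev (q i) y then (1 : ℝ) else 0) ≤
          4 / p * (d * K * p) := mul_le_mul_of_nonneg_left hκsum (by positivity)
      have e4 : 4 / (p : ℝ) * (d * K * p) = 4 * d * K := by
        field_simp
      rw [inv_mul_le_iff₀ (by positivity)]
      have e5 : (p : ℝ) ^ 2 * (1 + 4 * d * K / (p : ℝ) ^ 2) = (p : ℝ) ^ 2 + 4 * d * K := by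
        field_simp
      rw [e5]
      linarith
    rw [h1, h2]
    have hpK : (0 : ℝ) < (p : ℝ) ^ K := by positivity
    have := mul_le_mul_of_nonneg_left hmain hpK.le
    linarith

end Pool.Agent.Q151.LQ

/-- the job LMQ -/
theorem Pool.Agent.Q145.LQ.t_LMQ : Pool.Agent.Q145.LQ.S_LMQ := Pool.Agent.Q151.LQ.t_LMQ
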