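import Pool.Agent.Q151.LQ.Base

/-!
# Project LQ (helper145), MBQ: the mean value and the singular series (helper151; after helper150, `LS/MBSS.lean`)
-/

set_option autoImplicit false

namespace Pool.Agent.Q151.LQ

open Finset Filter Pool.Agent.Q145.SZ Pool.Agent.Q145.LQ

/-- the number of `x` with all `q_i(x) + s_i` units -/
noncomputable def cG {K : ℕ} (q : Fin K → Polynomial ℤ) (s : Fin K → ℕ) (M : ℕ) : ℕ :=
  Nat.card {x : ZMod M // ∀ i, IsUnit (ev (q i) x + (s i : ZMod M))}

lemma card_GQ {K : ℕ} (q : Fin K → Polynomial ℤ) (s : Fin K → ℕ) (M : ℕ) [NeZero M] :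
    (GQ q (fun i => (s i : ZMod M))).card = cG q s M := by
  classical
  unfold cG
  rw [Nat.subtype_card]
  intro x
  unfold GQ
  simp

lemma cG_mul {K : ℕ} (q : Fin K → Polynomial ℤ) (s : Fin K → ℕ) {M N : ℕ} (h : M.Coprime N) :
    cG q s (M * N) = cG q s M * cG q s N := by
  unfold cG
  rw [← Nat.card_prod]
  refine Nat.card_congr ?_
  refine (Equiv.subtypeEquiv (q := fun c : ZMod M × ZMod N =>
    (∀ i, IsUnit (ev (q i) c.1 + (s i : ZMod M))) ∧
      ∀ i, IsUnit (ev (q i) c.2 + (s i : ZMod N)))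
    (ZMod.chineseRemainder h).toEquiv ?_).trans
      (Equiv.subtypeProdEquivProd
        (p := fun x : ZMod M => ∀ i, IsUnit (ev (q i) x + (s i : ZMod M)))
        (q := fun x : ZMod N => ∀ i, IsUnit (ev (q i) x + (s i : ZMod N))))
  intro x
  have h1 : ∀ i, IsUnit (ev (q i) x + (s i : ZMod (M * N))) ↔
      IsUnit (ev (q i) ((ZMod.chineseRemainder h) x).1 + (s i : ZMod M)) ∧
      IsUnit (ev (q i) ((ZMod.chineseRemainder h) x).2 + (s i : ZMod N)) := by
    intro i
    have h2 : IsUnit (ev (q i) x + (s i : ZMod (M * N))) ↔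
        IsUnit ((ZMod.chineseRemainder h) (ev (q i) x + (s i : ZMod (M * N)))) :=
      (MulEquiv.isUnit_map (ZMod.chineseRemainder h)).symm
    have h3 : ((ZMod.chineseRemainder h) (ev (q i) x)).1 = ev (q i) ((ZMod.chineseRemainder h) x).1 :=
      ev_hom ((RingHom.fst (ZMod M) (ZMod N)).comp (ZMod.chineseRemainder h).toRingHom) (q i) x
    have h4 : ((ZMod.chineseRemainder h) (ev (q i) x)).2 = ev (q i) ((ZMod.chineseRemainder h) x).2 :=
      ev_hom ((RingHom.snd (ZMod M) (ZMod N)).comp (ZMod.chineseRemainder h).toRingHom) (q i) x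
    rw [h2, map_add, map_natCast, Prod.isUnit_iff, Prod.fst_add, Prod.snd_add, h3, h4]
    rfl
  rw [forall_congr' h1, forall_and]
  exact Iff.rfl

lemma cG_one {K : ℕ} (q : Fin K → Polynomial ℤ) (s : Fin K → ℕ) : cG q s 1 = 1 := by
  unfold cG
  have : Unique {x : ZMod 1 // ∀ i, IsUnit (ev (q i) x + (s i : ZMod 1))} :=
    { default := ⟨0, fun i => by
        have : ev (q i) (0 : ZMod 1) + (s i : ZMod 1) = 1 := Subsingleton.elim _ _
        rw [this]
        exact isUnit_one⟩
      uniq := fun a => Subtype.ext (Subsingleton.elim _ _) }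
  exact Nat.card_unique

lemma cG_prime {K : ℕ} (q : Fin K → Polynomial ℤ) (s : Fin K → ℕ) {p : ℕ} (hp : p.Prime) :
    cG q s p = p - nuQ q s p := by
  classical
  have : Fact p.Prime := ⟨hp⟩
  unfold cG
  rw [Nat.subtype_card (univ \ (univ.filter fun x : ZMod p => ∃ i, ev (q i) x + (s i : ZMod p) = 0))]
  · rw [Finset.card_univ_sdiff, ZMod.card, nuQ_eq q s (p := p)]
  · intro x
    simp only [Finset.mem_sdiff, Finset.mem_univ, true_and, Finset.mem_filter,
      not_exists, isUnit_iff_ne_zero, ne_eq]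

lemma filter_succ (z : ℕ) : (Icc 1 (z + 1)).filter Nat.Prime =
    if (z + 1).Prime then insert (z + 1) ((Icc 1 z).filter Nat.Prime) else
      (Icc 1 z).filter Nat.Prime := by
  have : Icc 1 (z + 1) = insert (z + 1) (Icc 1 z) := by
    ext n
    simp only [mem_Icc, mem_insert]
    omega
  rw [this, Finset.filter_insert]

lemma notMem_filter (z : ℕ) : z + 1 ∉ (Icc 1 z).filter Nat.Prime := by
  simp

lemma PW_succ_prime {z : ℕ} (h : (z + 1).Prime) : PW (z + 1) = PW z * (z + 1) := by
  unfold PW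
  rw [filter_succ, if_pos h, Finset.prod_insert (notMem_filter z), mul_comm]

lemma PW_succ_not {z : ℕ} (h : ¬ (z + 1).Prime) : PW (z + 1) = PW z := by
  unfold PW
  rw [filter_succ, if_neg h]

lemma PW_zero : PW 0 = 1 := by
  unfold PW
  simp

lemma coprime_PW {z : ℕ} (h : (z + 1).Prime) : (PW z).Coprime (z + 1) := by
  unfold PW
  refine Nat.Coprime.prod_left fun p hp => ?_
  rw [mem_filter, mem_Icc] at hp
  rw [Nat.coprime_primes hp.2 h]
  omega

lemma cG_PW {K : ℕ} (q : Fin K → Polynomial ℤ) (s : Fin K → ℕ) (z : ℕ) :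
    cG q s (PW z) = ∏ p ∈ (Icc 1 z).filter Nat.Prime, (p - nuQ q s p) := by
  induction z with
  | zero =>
    rw [PW_zero, cG_one]
    simp
  | succ z ih =>
    by_cases h : (z + 1).Prime
    · rw [PW_succ_prime h, cG_mul q s (coprime_PW h), ih, cG_prime q s h, filter_succ, if_pos h,
        Finset.prod_insert (notMem_filter z), mul_comm]
    · rw [PW_succ_not h, ih, filter_succ, if_neg h]

lemma vv_mul {M N : ℕ} (h : M.Coprime N) : vv (M * N) = vv M * vv N := by
  unfold vv
  rw [Nat.totient_mul h]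
  push_cast
  rw [mul_div_mul_comm]

lemma main_eq {K : ℕ} (q : Fin K → Polynomial ℤ) (s : Fin K → ℕ) (z : ℕ) :
    (cG q s (PW z) : ℝ) / (PW z : ℝ) * vv (PW z) ^ K = singPQ q s z := by
  induction z with
  | zero =>
    rw [PW_zero, cG_one]
    simp [vv, singPQ]
  | succ z ih =>
    by_cases h : (z + 1).Prime
    · have e1 : singPQ q s (z + 1) = locQ q s (z + 1) * singPQ q s z := by
        unfold singPQ
        rw [filter_succ, if_pos h, Finset.prod_insert (notMem_filter z)]
      rw [e1, ← ih, PW_succ_prime h, cG_mul q s (coprime_PW h), vv_mul (coprime_PW h), mul_pow,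
        cG_prime q s h]
      have hp1 : (1 : ℝ) < ((z + 1 : ℕ) : ℝ) := by exact_mod_cast h.one_lt
      have hpW : ((PW z : ℕ) : ℝ) ≠ 0 := by
        exact_mod_cast (NeZero.ne (PW z))
      have e2 : vv (z + 1) = (1 - 1 / ((z + 1 : ℕ) : ℝ))⁻¹ := by
        unfold vv
        rw [Nat.totient_prime h, Nat.cast_sub h.one_lt.le, Nat.cast_one]
        have h1 : ((z + 1 : ℕ) : ℝ) - 1 ≠ 0 := by linarith
        have h2 : ((z + 1 : ℕ) : ℝ) ≠ 0 := by linarith
        field_simp
      have e3 : ((z + 1 - nuQ q s (z + 1) : ℕ) : ℝ) = ((z + 1 : ℕ) : ℝ) - nuQ q s (z + 1) := by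
        rw [Nat.cast_sub (nuQ_le q s (z + 1))]
      rw [e2, Nat.cast_mul, Nat.cast_mul, e3]
      unfold locQ
      have h2 : ((z + 1 : ℕ) : ℝ) ≠ 0 := by linarith
      have h3 : 1 - 1 / ((z + 1 : ℕ) : ℝ) ≠ 0 := by
        have : 1 / ((z + 1 : ℕ) : ℝ) < 1 := by
          rw [div_lt_one (by linarith)]
          exact hp1
        linarith
      rw [inv_pow]
      field_simp
    · have e1 : singPQ q s (z + 1) = singPQ q s z := by
        unfold singPQ
        rw [filter_succ, if_neg h]
      rw [e1, PW_succ_not h, ih]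

theorem t_MBQ : S_MBQ := by
  classical
  intro d z Y K q s
  constructor
  · unfold MbQ
    rw [card_GQ, ← main_eq]
    ring
  · intro hK hq
    rw [← Finset.card_pos, card_GQ, cG_PW]
    rw [Nat.pos_iff_ne_zero, Finset.prod_ne_zero_iff]
    constructor
    · intro h p hp
      rw [mem_filter] at hp
      have := h p hp.2
      omega
    · intro h p hp
      by_cases hz : p ≤ z
      · have := h p (mem_filter.2 ⟨mem_Icc.2 ⟨hp.one_lt.le, hz⟩, hp⟩)
        omega
      · have := nuQ_le_mul (d := d) q s hp (fun i =>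
          ⟨(hq i).1, (hq i).2.1, not_dvd_lead (hq i).1 (hq i).2.2 (not_le.1 hz)⟩)
        omega

end Pool.Agent.Q151.LQ

/-- the job MBQ -/
theorem Pool.Agent.Q145.LQ.t_MBQ : Pool.Agent.Q145.LQ.S_MBQ := Pool.Agent.Q151.LQ.t_MBQ
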