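import Pool.Agent.Q145.LQ.Stm2

/-!
# Project LQ (helper145): basic facts on `ev`, `nuQ` (helper151)
-/

set_option autoImplicit false

namespace Pool.Agent.Q151.LQ

open Finset Filter Pool.Agent.Q145.SZ Pool.Agent.Q145.LQ

/-- evaluation commutes with ring homomorphisms -/
theorem ev_hom {A B : ℕ} (f : ZMod A →+* ZMod B) (q : Polynomial ℤ) (x : ZMod A) :
    f (ev q x) = ev q (f x) := by
  unfold ev
  rw [Polynomial.aeval_def, Polynomial.aeval_def, Polynomial.hom_eval₂]
  congr 1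
  exact RingHom.ext_int _ _

theorem ev_natCast {W : ℕ} (q : Polynomial ℤ) (n : ℕ) :
    ev q (n : ZMod W) = ((q.eval (n : ℤ) : ℤ) : ZMod W) := by
  unfold ev
  rw [Polynomial.aeval_def]
  have h := Polynomial.hom_eval₂ q (RingHom.id ℤ) (Int.castRingHom (ZMod W)) (n : ℤ)
  rw [Polynomial.eval₂_id] at h
  rw [eq_intCast, eq_intCast] at h
  rw [h]
  congr 1
  · simp

theorem ev_eq_eval {W : ℕ} (q : Polynomial ℤ) (x : ZMod W) :
    ev q x = (q.map (Int.castRingHom (ZMod W))).eval x := by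
  unfold ev
  rw [Polynomial.aeval_def, Polynomial.eval_map]
  rfl

/-- at most `d` solutions of `q(x) = c` -/
theorem roots_le {p d : ℕ} [Fact p.Prime] (q : Polynomial ℤ) (h1 : 1 ≤ q.natDegree) (hd : q.natDegree ≤ d)
    (hp : ¬ (p : ℤ) ∣ q.leadingCoeff) (c : ZMod p) [DecidablePred fun x : ZMod p => ev q x = c] :
    (univ.filter fun x : ZMod p => ev q x = c).card ≤ d := by
  have hlc : (Int.castRingHom (ZMod p)) q.leadingCoeff ≠ 0 := by
    intro h
    rw [eq_intCast, ZMod.intCast_zmod_eq_zero_iff_dvd] at h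
    exact hp h
  obtain ⟨f, hf⟩ : ∃ f : Polynomial (ZMod p), f = q.map (Int.castRingHom (ZMod p)) - Polynomial.C c := ⟨_, rfl⟩
  have hdeg : f.natDegree = q.natDegree := by
    rw [hf, Polynomial.natDegree_sub_C, Polynomial.natDegree_map_of_leadingCoeff_ne_zero _ hlc]
  have hf0 : f ≠ 0 := by
    intro h
    rw [h, Polynomial.natDegree_zero] at hdeg
    omega
  have hsub : (univ.filter fun x : ZMod p => ev q x = c) ⊆ f.roots.toFinset := by
    intro x hx
    rw [mem_filter] at hx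
    rw [Multiset.mem_toFinset, Polynomial.mem_roots hf0, Polynomial.IsRoot.def, hf,
      Polynomial.eval_sub, Polynomial.eval_C, ← ev_eq_eval, hx.2, sub_self]
  refine (card_le_card hsub).trans ?_
  refine (Multiset.toFinset_card_le _).trans ?_
  exact (Polynomial.card_roots' f).trans (by omega)

theorem nuQ_le {K : ℕ} (q : Fin K → Polynomial ℤ) (s : Fin K → ℕ) (p : ℕ) : nuQ q s p ≤ p := by
  unfold nuQ
  exact (Finset.card_filter_le _ _).trans (by simp)

open Classical in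
theorem nuQ_eq {K : ℕ} (q : Fin K → Polynomial ℤ) (s : Fin K → ℕ) {p : ℕ} [Fact p.Prime] :
    nuQ q s p = (univ.filter fun x : ZMod p => ∃ i, ev (q i) x + (s i : ZMod p) = 0).card := by
  have hkey : ∀ (n : ℕ) (i : Fin K), (p : ℤ) ∣ (q i).eval (n : ℤ) + s i ↔
      ev (q i) (n : ZMod p) + (s i : ZMod p) = 0 := by
    intro n i
    rw [ev_natCast, ← ZMod.intCast_zmod_eq_zero_iff_dvd]
    push_cast
    exact Iff.rfl
  have e1 : (univ.filter fun x : ZMod p => ∃ i, ev (q i) x + (s i : ZMod p) = 0) =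
      ((range p).filter fun n : ℕ => ∃ i, (p : ℤ) ∣ (q i).eval (n : ℤ) + s i).image
        (fun n : ℕ => (n : ZMod p)) := by
    ext x
    simp only [mem_filter, mem_univ, true_and, mem_image, mem_range]
    constructor
    · rintro ⟨i, hi⟩
      refine ⟨x.val, ⟨ZMod.val_lt x, i, ?_⟩, ZMod.natCast_zmod_val x⟩
      rw [hkey, ZMod.natCast_zmod_val]
      exact hi
    · rintro ⟨n, ⟨hn, i, hi⟩, rfl⟩
      exact ⟨i, (hkey n i).1 hi⟩
  rw [e1, Finset.card_image_of_injOn]
  · unfold nuQ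
    congr 1
  · intro m hm n hn hmn
    simp only [coe_filter, mem_range, Set.mem_ofPred_eq] at hm hn
    have h2 : ((m : ℕ) : ZMod p) = ((n : ℕ) : ZMod p) := hmn
    rw [ZMod.natCast_eq_natCast_iff'] at h2
    rwa [Nat.mod_eq_of_lt hm.1, Nat.mod_eq_of_lt hn.1] at h2

theorem nuQ_le_mul {K d : ℕ} (q : Fin K → Polynomial ℤ) (s : Fin K → ℕ) {p : ℕ} (hp : p.Prime)
    (hq : ∀ i, 1 ≤ (q i).natDegree ∧ (q i).natDegree ≤ d ∧ ¬ (p : ℤ) ∣ (q i).leadingCoeff) :
    nuQ q s p ≤ d * K := by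
  classical
  have : Fact p.Prime := ⟨hp⟩
  rw [nuQ_eq q s (p := p)]
  have h1 : (univ.filter fun x : ZMod p => ∃ i, ev (q i) x + (s i : ZMod p) = 0) ⊆
      univ.biUnion fun i => univ.filter fun x : ZMod p => ev (q i) x = -(s i : ZMod p) := by
    intro x hx
    rw [mem_filter] at hx
    obtain ⟨i, hi⟩ := hx.2
    rw [mem_biUnion]
    refine ⟨i, mem_univ _, ?_⟩
    rw [mem_filter]
    exact ⟨mem_univ _, eq_neg_of_add_eq_zero_left hi⟩
  refine (card_le_card h1).trans (card_biUnion_le.trans ?_)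
  refine (sum_le_card_nsmul _ _ d fun i _ => ?_).trans ?_
  · exact roots_le (q i) (hq i).1 (hq i).2.1 (hq i).2.2 _
  · simp [mul_comm]

/-- large primes do not divide small leading coefficients -/
theorem not_dvd_lead {q : Polynomial ℤ} {p z : ℕ} (h1 : 1 ≤ q.natDegree) (hz : q.leadingCoeff.natAbs ≤ z)
    (hp : z < p) : ¬ (p : ℤ) ∣ q.leadingCoeff := by
  intro h
  have h2 := Int.natAbs_dvd_natAbs.2 h
  rw [Int.natAbs_natCast] at h2
  have h0 : q.leadingCoeff ≠ 0 := by
    rw [Ne, Polynomial.leadingCoeff_eq_zero]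
    rintro rfl
    simp at h1
  have h3 := Nat.le_of_dvd (Int.natAbs_pos.2 h0) h2
  omega

end Pool.Agent.Q151.LQ
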