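import Pool.Agent.Q151.LQ.Bas

/-!
# Project LQ, job AA: the number of the classes with the local conditions
-/

set_option autoImplicit false

namespace Pool.Agent.Q151.LQ

open NumberField IsDedekindDomain Filter Topology Finset
open Pool.Agent.Q283.LQ

/-- counting by finitely many equivalence relations -/
theorem card_le_prod {α ι : Type} [DecidableEq α] [DecidableEq ι] (R : ι → α → α → Prop) (k : ι → ℕ)
    (I : Finset ι) : ∀ B : Finset α,
    (∀ i ∈ I, ∀ b ∈ B, R i b b) → (∀ i ∈ I, ∀ b ∈ B, ∀ b' ∈ B, R i b b' → R i b' b) →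
    (∀ i ∈ I, ∀ b ∈ B, ∀ b' ∈ B, ∀ b'' ∈ B, R i b b' → R i b' b'' → R i b b'') →
    (∀ i ∈ I, ∀ T ⊆ B, (∀ b ∈ T, ∀ b' ∈ T, b ≠ b' → ¬ R i b b') → T.card ≤ k i) →
    (∀ b ∈ B, ∀ b' ∈ B, b ≠ b' → ∃ i ∈ I, ¬ R i b b') → B.card ≤ ∏ i ∈ I, k i := by
  classical
  induction I using Finset.induction_on with
  | empty =>
    intro B _ _ _ _ h
    rw [Finset.prod_empty]
    refine Finset.card_le_one.2 fun b hb b' hb' => ?_
    by_contra hne
    obtain ⟨i, hi, _⟩ := h b hb b' hb' hne
    exact absurd hi (Finset.notMem_empty i)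
  | insert i I hi ih =>
    intro B hrefl hsymm htrans hnum hsep
    obtain ⟨Q, hQ⟩ : ∃ Q : Finset (Finset α), ∀ T, T ∈ Q ↔
        T ⊆ B ∧ ∀ b ∈ T, ∀ b' ∈ T, b ≠ b' → ¬ R i b b' :=
      ⟨B.powerset.filter fun T => ∀ b ∈ T, ∀ b' ∈ T, b ≠ b' → ¬ R i b b', fun T => by
        rw [Finset.mem_filter, Finset.mem_powerset]⟩
    obtain ⟨T, hT, hmax⟩ := Finset.exists_max_image Q Finset.card
      ⟨∅, (hQ ∅).2 ⟨Finset.empty_subset B, fun b hb => absurd hb (Finset.notMem_empty b)⟩⟩
    obtain ⟨hTB, hTR⟩ := (hQ T).1 hT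
    have hcov : ∀ b ∈ B, ∃ t ∈ T, R i t b := by
      intro b hb
      by_contra hno
      push Not at hno
      have hbT : b ∉ T := fun h => hno b h (hrefl i (Finset.mem_insert_self i I) b hb)
      have h1 : insert b T ∈ Q := by
        refine (hQ _).2 ⟨Finset.insert_subset hb hTB, ?_⟩
        intro x hx x' hx' hne
        rcases Finset.mem_insert.1 hx with h5 | h5
        · rcases Finset.mem_insert.1 hx' with h6 | h6
          · exact absurd (h5.trans h6.symm) hne
          · intro h
            rw [h5] at h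
            exact hno x' h6 (hsymm i (Finset.mem_insert_self i I) b hb x' (hTB h6) h)
        · rcases Finset.mem_insert.1 hx' with h6 | h6
          · rw [h6]
            exact hno x h5
          · exact hTR x h5 x' h6 hne
      have h2 := hmax _ h1
      rw [Finset.card_insert_of_notMem hbT] at h2
      omega
    have hsub : B ⊆ T.biUnion fun t => B.filter fun b => R i t b := by
      intro b hb
      obtain ⟨t, ht, h⟩ := hcov b hb
      exact Finset.mem_biUnion.2 ⟨t, ht, Finset.mem_filter.2 ⟨hb, h⟩⟩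
    have hcl : ∀ t ∈ T, (B.filter fun b => R i t b).card ≤ ∏ j ∈ I, k j := by
      intro t ht
      have hfB : (B.filter fun b => R i t b) ⊆ B := Finset.filter_subset _ _
      refine ih _ (fun j hj b hb => hrefl j (Finset.mem_insert_of_mem hj) b (hfB hb))
        (fun j hj b hb b' hb' => hsymm j (Finset.mem_insert_of_mem hj) b (hfB hb) b' (hfB hb'))
        (fun j hj b hb b' hb' b'' hb'' => htrans j (Finset.mem_insert_of_mem hj) b (hfB hb) b'
          (hfB hb') b'' (hfB hb''))
        (fun j hj U hU => hnum j (Finset.mem_insert_of_mem hj) U (hU.trans hfB)) ?_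
      intro b hb b' hb' hne
      obtain ⟨j, hj, h⟩ := hsep b (hfB hb) b' (hfB hb') hne
      rcases Finset.mem_insert.1 hj with rfl | hj
      · exfalso
        have h1 := (Finset.mem_filter.1 hb).2
        have h2 := (Finset.mem_filter.1 hb').2
        have hi' := Finset.mem_insert_self j I
        exact h (htrans j hi' b (hfB hb) t (hTB ht) b' (hfB hb')
          (hsymm j hi' t (hTB ht) b (hfB hb) h1) h2)
      · exact ⟨j, hj, h⟩
    have hTc : T.card ≤ k i := hnum i (Finset.mem_insert_self i I) T hTB hTR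
    rw [Finset.prod_insert hi]
    calc B.card ≤ (T.biUnion fun t => B.filter fun b => R i t b).card := Finset.card_le_card hsub
      _ ≤ T.card * ∏ j ∈ I, k j := Finset.card_biUnion_le_card_mul _ _ _ hcl
      _ ≤ k i * ∏ j ∈ I, k j := Nat.mul_le_mul_right _ hTc

theorem card_le_two_of {α : Type} [DecidableEq α] (T : Finset α) (R : α → α → Prop) (P : α → Prop)
    (hR : ∀ b ∈ T, ∀ b' ∈ T, (P b ↔ P b') → R b b')
    (hT : ∀ b ∈ T, ∀ b' ∈ T, b ≠ b' → ¬ R b b') : T.card ≤ 2 := by
  by_contra h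
  have h3 : 2 < T.card := not_le.1 h
  obtain ⟨a, ha, b, hb, c, hc, hab, hac, hbc⟩ := Finset.two_lt_card.1 h3
  have h1 := fun h => hT a ha b hb hab (hR a ha b hb h)
  have h2 := fun h => hT a ha c hc hac (hR a ha c hc h)
  have h4 := fun h => hT b hb c hc hbc (hR b hb c hc h)
  tauto

variable {F : Type} [Field F] [NumberField F]

theorem finite_realHom (F : Type) [Field F] [NumberField F] : Finite (F →+* ℝ) := by
  have hinj : Function.Injective (fun φ : F →+* ℝ => (Complex.ofRealHom.comp φ : F →+* ℂ)) := by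
    intro φ ψ h
    ext x
    have h1 : (Complex.ofRealHom.comp φ) x = (Complex.ofRealHom.comp ψ) x := by
      have h2 : (Complex.ofRealHom.comp φ : F →+* ℂ) = Complex.ofRealHom.comp ψ := h
      rw [h2]
    exact Complex.ofReal_injective h1
  exact Finite.of_injective _ hinj

/-- **JOB AA** -/
theorem AA (hB : S_BAS) : S_AA := by
  classical
  intro F _ _ A c hL y D hy hD hfin B hBc hBn
  have : Finite (F →+* ℝ) := finite_realHom F
  have hc0 : ∀ v : HeightOneSpectrum (𝓞 F), ¬ Sm y v → c v = 0 := by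
    intro v hv
    refine hL.zero v fun h => hv ⟨2, Nat.prime_two, hy, ?_⟩
    have h' : (2 : 𝓞 F) ∈ v.asIdeal := h
    exact_mod_cast h'
  obtain ⟨S, hS⟩ : ∃ S, S = hfin.toFinset := ⟨_, rfl⟩
  have hmS : ∀ v, v ∈ S ↔ Sm y v := fun v => by
    rw [hS, Set.Finite.mem_toFinset]
    rfl
  have hnfin : {φ : F →+* ℝ | φ D < 0}.Finite := Set.toFinite _
  obtain ⟨Ng, hNg⟩ : ∃ Ng, Ng = hnfin.toFinset := ⟨_, rfl⟩
  have hmN : ∀ φ, φ ∈ Ng ↔ φ D < 0 := fun φ => by
    rw [hNg, Set.Finite.mem_toFinset]
    rfl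
  have hcardS : nS F y = S.card := by
    rw [hS]
    unfold nS
    exact Nat.card_eq_card_finite_toFinset hfin
  have hcardN : Nat.card {φ : F →+* ℝ // φ D < 0} = Ng.card := by
    rw [hNg]
    exact Nat.card_eq_card_finite_toFinset hnfin
  have hsumc : ∑ᶠ v, c v = ∑ v ∈ S, c v := by
    refine finsum_eq_sum_of_support_subset c ?_
    intro v hv
    by_contra h
    exact hv (hc0 v fun h' => h ((hmS v).2 h'))
  -- the relations
  obtain ⟨R, hR⟩ : ∃ R : HeightOneSpectrum (𝓞 F) ⊕ (F →+* ℝ) → F → F → Prop,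
      R = fun i b b' => Sum.elim (fun v => Lsq v (b * b')) (fun φ => 0 < φ (b * b')) i := ⟨_, rfl⟩
  have hRl : ∀ v b b', R (Sum.inl v) b b' ↔ Lsq v (b * b') := fun v b b' => by rw [hR]; rfl
  have hRr : ∀ φ b b', R (Sum.inr φ) b b' ↔ 0 < φ (b * b') := fun φ b b' => by rw [hR]; rfl
  have key := card_le_prod R (Sum.elim (fun v => 2 ^ (c v + 1)) fun _ => 2)
    (S.disjSum Ng) B ?_ ?_ ?_ ?_ ?_
  · refine key.trans (le_of_eq ?_)
    rw [Finset.prod_disjSum]
    have h1 : ∏ v ∈ S, (2 : ℕ) ^ (c v + 1) = 2 ^ (∑ v ∈ S, c v + S.card) := by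
      rw [Finset.prod_pow_eq_pow_sum, Finset.sum_add_distrib, Finset.sum_const, smul_eq_mul, mul_one]
    have h2 : ∏ _φ ∈ Ng, (2 : ℕ) = 2 ^ Ng.card := Finset.prod_const 2
    show (∏ v ∈ S, (2 : ℕ) ^ (c v + 1)) * (∏ _φ ∈ Ng, (2 : ℕ)) = _
    rw [h1, h2, ← pow_add, hcardS, hcardN, hsumc]
    congr 1
    omega
  · -- reflexive
    intro i _ b hb
    have hb0 := (hBc b hb).ne
    rcases i with v | φ
    · rw [hRl, ← sq]
      exact lsq_sq hB v hb0
    · rw [hRr, map_mul]
      exact mul_self_pos.2 (real_ne φ hb0)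
  · -- symmetric
    intro i _ b hb b' hb' h
    rcases i with v | φ
    · rw [hRl] at h ⊢
      rwa [mul_comm]
    · rw [hRr] at h ⊢
      rwa [mul_comm]
  · -- transitive
    intro i _ b hb b' hb' b'' hb'' h h'
    have hb0 := (hBc b' hb').ne
    rcases i with v | φ
    · rw [hRl] at h h' ⊢
      have h1 := lsq_mul hB h h'
      have h2 : b * b' * (b' * b'') = b * b'' * b' ^ 2 := by ring
      rw [h2] at h1
      exact lsq_of_mul_sq hB hb0 h1
    · rw [hRr] at h h' ⊢
      have h1 := mul_pos h h'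
      rw [← map_mul] at h1
      have h2 : b * b' * (b' * b'') = b * b'' * b' ^ 2 := by ring
      rw [h2, map_mul, map_pow] at h1
      exact pos_of_mul_pos_left h1 (sq_nonneg _)
  · -- the numbers of the classes
    intro i hi T hTB hT
    rcases i with v | φ
    · show T.card ≤ 2 ^ (c v + 1)
      have hT' : ∀ b ∈ T, ∀ b' ∈ T, b ≠ b' → ¬ Lsq v (b * b') := fun b hb b' hb' hne h =>
        hT b hb b' hb' hne ((hRl v b b').2 h)
      have hv : Sm y v := (hmS v).1 (by
        have := Finset.inl_mem_disjSum.1 hi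
        exact this)
      by_cases hdy : Dy v
      · exact hL.num v D hdy hD T (fun b hb => (hBc b (hTB hb)).two v hdy) hT'
      · rw [hL.zero v hdy, zero_add, pow_one]
        by_cases hod : Od v D
        · refine card_le_two_of T (fun b b' => Lsq v (b * b')) (fun b => Lsq v b) ?_ hT'
          intro b hb b' hb' hiff
          have h1 := (hBc b (hTB hb)).odd v hv hdy hod
          have h2 := (hBc b' (hTB hb')).odd v hv hdy hod
          show Lsq v (b * b')
          by_cases h3 : Lsq v b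
          · exact lsq_mul hB h3 (hiff.1 h3)
          · have h4 : Lsq v (b * D) := h1.resolve_left h3
            have h5 : Lsq v (b' * D) := h2.resolve_left fun h => h3 (hiff.2 h)
            have h6 := lsq_mul hB h4 h5
            have h7 : b * D * (b' * D) = b * b' * D ^ 2 := by ring
            rw [h7] at h6
            exact lsq_of_mul_sq hB hD h6
        · refine card_le_two_of T (fun b b' => Lsq v (b * b')) (fun b => Lsq v b) ?_ hT'
          intro b hb b' hb' hiff
          show Lsq v (b * b')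
          by_cases h3 : Lsq v b
          · exact lsq_mul hB h3 (hiff.1 h3)
          · have hb1 := hBc b (hTB hb)
            have hb2 := hBc b' (hTB hb')
            exact (hB F v).2.2.2.2.2 hdy b b' hb1.ne hb2.ne (hb1.even v hv hdy hod)
              (hb2.even v hv hdy hod) h3 fun h => h3 (hiff.2 h)
    · show T.card ≤ 2
      refine card_le_two_of T (fun b b' => 0 < φ (b * b')) (fun b => 0 < φ b) ?_
        (fun b hb b' hb' hne h => hT b hb b' hb' hne ((hRr φ b b').2 h))
      intro b hb b' hb' hiff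
      show 0 < φ (b * b')
      rw [map_mul]
      have h1 := real_ne φ (hBc b (hTB hb)).ne
      have h2 := real_ne φ (hBc b' (hTB hb')).ne
      by_cases h3 : 0 < φ b
      · exact mul_pos h3 (hiff.1 h3)
      · have h4 : φ b < 0 := lt_of_le_of_ne (not_lt.1 h3) h1
        have h5 : φ b' < 0 := lt_of_le_of_ne (not_lt.1 fun h => h3 (hiff.2 h)) h2
        exact mul_pos_of_neg_of_neg h4 h5
  · -- separation
    intro b hb b' hb' hne
    by_contra hno
    push Not at hno
    have hb1 := hBc b hb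
    have hb2 := hBc b' hb'
    refine hBn b hb b' hb' hne ⟨mul_ne_zero hb1.ne hb2.ne, fun v hv => ?_, fun φ => ?_⟩
    · exact (hRl v b b').1 (hno (Sum.inl v) (Finset.inl_mem_disjSum.2 ((hmS v).2 hv)))
    · rcases lt_trichotomy (φ D) 0 with h | h | h
      · exact (hRr φ b b').1 (hno (Sum.inr φ) (Finset.inr_mem_disjSum.2 ((hmN φ).2 h)))
      · exact absurd h (real_ne φ hD)
      · rw [map_mul]
        exact mul_pos (hb1.real φ h) (hb2.real φ h)

end Pool.Agent.Q151.LQ
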