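import Pool.Agent.Q283.LQ.Stm

/-!
# Project LQ: elementary consequences of `S_BAS` for `Od`, `Lsq`, `Nn`, `mon`
-/

set_option autoImplicit false

namespace Pool.Agent.Q151.LQ

open NumberField IsDedekindDomain Filter Topology Finset
open Pool.Agent.Q283.LQ

variable {F : Type} [Field F] [NumberField F]

theorem lsq_ne (hB : S_BAS) {v : HeightOneSpectrum (𝓞 F)} {a : F} (h : Lsq v a) : a ≠ 0 :=
  ((hB F v).1 a h).1

theorem lsq_nod (hB : S_BAS) {v : HeightOneSpectrum (𝓞 F)} {a : F} (h : Lsq v a) : ¬ Od v a :=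
  ((hB F v).1 a h).2

theorem lsq_mul (hB : S_BAS) {v : HeightOneSpectrum (𝓞 F)} {a b : F} (h : Lsq v a) (h' : Lsq v b) :
    Lsq v (a * b) := (hB F v).2.1 a b h h'

theorem lsq_sq (hB : S_BAS) (v : HeightOneSpectrum (𝓞 F)) {a : F} (h : a ≠ 0) : Lsq v (a ^ 2) :=
  (hB F v).2.2.1 a h

theorem od_mul (hB : S_BAS) (v : HeightOneSpectrum (𝓞 F)) {a b : F} (ha : a ≠ 0) (hb : b ≠ 0) :
    Od v (a * b) ↔ (Od v a ↔ ¬ Od v b) := (hB F v).2.2.2.1 a b ha hb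

theorem lsq_of_mul_sq (hB : S_BAS) {v : HeightOneSpectrum (𝓞 F)} {a x : F} (hx : x ≠ 0)
    (h : Lsq v (a * x ^ 2)) : Lsq v a := by
  have h1 := lsq_mul hB h (lsq_sq hB v (inv_ne_zero hx))
  have h2 : a * x ^ 2 * x⁻¹ ^ 2 = a := by
    rw [mul_assoc, ← mul_pow, mul_inv_cancel₀ hx, one_pow, mul_one]
  rwa [h2] at h1

theorem real_ne (φ : F →+* ℝ) {a : F} (ha : a ≠ 0) : φ a ≠ 0 := by
  intro h
  exact ha ((map_eq_zero φ).1 h)

theorem nn_mul (hB : S_BAS) {y : ℕ} {a b : F} (ha : Nn y a) (hb : Nn y b) : Nn y (a * b) :=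
  ⟨mul_ne_zero ha.1 hb.1, fun v hv => lsq_mul hB (ha.2.1 v hv) (hb.2.1 v hv), fun φ => by
    rw [map_mul]
    exact mul_pos (ha.2.2 φ) (hb.2.2 φ)⟩

theorem nn_sq (hB : S_BAS) (y : ℕ) {a : F} (ha : a ≠ 0) : Nn y (a ^ 2) :=
  ⟨pow_ne_zero 2 ha, fun v _ => lsq_sq hB v ha, fun φ => by
    rw [map_pow]
    exact pow_pos_of_ne φ ha⟩
where
  pow_pos_of_ne (φ : F →+* ℝ) {a : F} (ha : a ≠ 0) : 0 < (φ a) ^ 2 := by
    have := real_ne φ ha
    positivity

theorem nn_of_mul_sq (hB : S_BAS) {y : ℕ} {a x : F} (hx : x ≠ 0) (h : Nn y (a * x ^ 2)) :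
    Nn y a := by
  have h1 := nn_mul hB h (nn_sq hB y (inv_ne_zero hx))
  have h2 : a * x ^ 2 * x⁻¹ ^ 2 = a := by
    rw [mul_assoc, ← mul_pow, mul_inv_cancel₀ hx, one_pow, mul_one]
  rwa [h2] at h1

theorem nn_of_isSquare (hB : S_BAS) (y : ℕ) {a : F} (ha : a ≠ 0) (h : IsSquare a) : Nn y a := by
  obtain ⟨x, rfl⟩ := h
  have hx : x ≠ 0 := fun h0 => ha (by rw [h0, mul_zero])
  have h1 := nn_sq hB y hx
  rwa [sq] at h1

theorem mon_ne {f : ℕ} {u : Fin f → F} (hu : ∀ l, u l ≠ 0) (c : Fin f → ZMod 2) : mon u c ≠ 0 := by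
  unfold mon
  exact Finset.prod_ne_zero_iff.2 fun l _ => pow_ne_zero _ (hu l)

theorem val_add_mod (a b : ZMod 2) : ∃ e : ℕ, a.val + b.val = (a + b).val + 2 * e := by
  fin_cases a <;> fin_cases b
  · exact ⟨0, rfl⟩
  · exact ⟨0, rfl⟩
  · exact ⟨0, rfl⟩
  · exact ⟨1, rfl⟩

theorem mon_mul {f : ℕ} {u : Fin f → F} (hu : ∀ l, u l ≠ 0) (c c' : Fin f → ZMod 2) :
    ∃ x : F, x ≠ 0 ∧ mon u c * mon u c' = mon u (c + c') * x ^ 2 := by
  choose e he using fun l => val_add_mod (c l) (c' l)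
  refine ⟨∏ l, u l ^ e l, Finset.prod_ne_zero_iff.2 fun l _ => pow_ne_zero _ (hu l), ?_⟩
  unfold mon
  rw [← Finset.prod_mul_distrib, ← Finset.prod_pow, ← Finset.prod_mul_distrib]
  refine Finset.prod_congr rfl fun l _ => ?_
  rw [← pow_add, he l, pow_add, mul_comm 2 (e l), pow_mul]
  rfl

theorem mon_zero {f : ℕ} (u : Fin f → F) : mon u 0 = 1 := by
  unfold mon
  exact Finset.prod_eq_one fun l _ => by
    show u l ^ ((0 : ZMod 2).val) = 1
    rw [ZMod.val_zero, pow_zero]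

theorem mon_sum {f : ℕ} {u : Fin f → F} (hu : ∀ l, u l ≠ 0) {ι : Type} (s : Finset ι)
    (c : ι → Fin f → ZMod 2) :
    ∃ x : F, x ≠ 0 ∧ ∏ j ∈ s, mon u (c j) = mon u (∑ j ∈ s, c j) * x ^ 2 := by
  classical
  induction s using Finset.induction_on with
  | empty => exact ⟨1, one_ne_zero, by rw [Finset.prod_empty, Finset.sum_empty, mon_zero]; ring⟩
  | insert i s hi ih =>
    obtain ⟨x, hx, h⟩ := ih
    obtain ⟨z, hz, h'⟩ := mon_mul hu (c i) (∑ j ∈ s, c j)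
    refine ⟨z * x, mul_ne_zero hz hx, ?_⟩
    rw [Finset.prod_insert hi, Finset.sum_insert hi, h, ← mul_assoc, h', mul_pow]
    ring

theorem nod_mon (hB : S_BAS) {f : ℕ} {u : Fin f → F} (hu : ∀ l, u l ≠ 0)
    {v : HeightOneSpectrum (𝓞 F)} (h : ∀ l, ¬ Od v (u l)) (c : Fin f → ZMod 2) : ¬ Od v (mon u c) := by
  have h1 : ¬ Od v (1 : F) := by
    have := lsq_nod hB (lsq_sq hB v (one_ne_zero (α := F)))
    rwa [one_pow] at this
  have h2 : ∀ (a : F) (n : ℕ), a ≠ 0 → ¬ Od v a → ¬ Od v (a ^ n) := by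
    intro a n ha h
    induction n with
    | zero => rwa [pow_zero]
    | succ n ih =>
      rw [pow_succ, od_mul hB v (pow_ne_zero n ha) ha]
      tauto
  have h3 : ∀ s : Finset (Fin f), ¬ Od v (∏ l ∈ s, u l ^ (c l).val) := by
    intro s
    induction s using Finset.induction_on with
    | empty => rwa [Finset.prod_empty]
    | insert i s hi ih =>
      rw [Finset.prod_insert hi, od_mul hB v (pow_ne_zero _ (hu i))
        (Finset.prod_ne_zero_iff.2 fun l _ => pow_ne_zero _ (hu l))]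
      have := h2 (u i) (c i).val (hu i) (h i)
      tauto
  exact h3 Finset.univ

end Pool.Agent.Q151.LQ
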