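import Pool.Agent.Q151.LQ.AA

/-!
# Project LQ, job EE: the local classes
-/

set_option autoImplicit false

namespace Pool.Agent.Q151.LQ

open NumberField IsDedekindDomain Filter Topology Finset
open Pool.Agent.Q283.LQ

theorem card_realHom_le (F : Type) [Field F] [NumberField F] :
    Nat.card (F →+* ℝ) ≤ InfinitePlace.nrRealPlaces F := by
  classical
  have hreal : ∀ φ : F →+* ℝ, ComplexEmbedding.IsReal (Complex.ofRealHom.comp φ) := by
    intro φ
    rw [ComplexEmbedding.isReal_iff]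
    ext x
    rw [ComplexEmbedding.conjugate_coe_eq]
    exact Complex.conj_ofReal (φ x)
  have hinj : Function.Injective (fun φ : F →+* ℝ =>
      (⟨Complex.ofRealHom.comp φ, hreal φ⟩ : {φ : F →+* ℂ // ComplexEmbedding.IsReal φ})) := by
    intro φ ψ h
    ext x
    have h2 : (Complex.ofRealHom.comp φ : F →+* ℂ) = Complex.ofRealHom.comp ψ :=
      congrArg Subtype.val h
    have h1 : (Complex.ofRealHom.comp φ) x = (Complex.ofRealHom.comp ψ) x := by rw [h2]
    exact Complex.ofReal_injective h1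
  have h1 := Nat.card_le_card_of_injective _ hinj
  refine h1.trans (le_of_eq ?_)
  rw [Nat.card_eq_fintype_card]
  exact InfinitePlace.card_real_embeddings F

theorem pos_add_neg_le (F : Type) [Field F] [NumberField F] {D0 : F} :
    Nat.card {φ : F →+* ℝ // 0 < φ D0} + Nat.card {φ : F →+* ℝ // φ D0 < 0} ≤
      InfinitePlace.nrRealPlaces F := by
  have : Finite (F →+* ℝ) := finite_realHom F
  refine le_trans ?_ (card_realHom_le F)
  rw [← Nat.card_sum]
  refine Nat.card_le_card_of_injective (Sum.elim Subtype.val Subtype.val) ?_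
  rintro (⟨φ, hφ⟩ | ⟨φ, hφ⟩) (⟨ψ, hψ⟩ | ⟨ψ, hψ⟩) h
  · have h1 : φ = ψ := h
    subst h1
    rfl
  · have h1 : φ = ψ := h
    subst h1
    exact absurd hφ (not_lt.2 hψ.le)
  · have h1 : φ = ψ := h
    subst h1
    exact absurd hψ (not_lt.2 hφ.le)
  · have h1 : φ = ψ := h
    subst h1
    rfl

/-- **JOB EE** -/
theorem EE (hB : S_BAS) (hAA : S_AA) : S_EE := by
  classical
  intro F _ _ y f u r π g B hf hfin A c hL D0 hD0
  obtain ⟨E, hE⟩ : ∃ E : Finset ((Fin f → ZMod 2) × (Fin f → ZMod 2)), ∀ p, p ∈ E ↔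
      ∃ a, CondS A y D0 a ∧ Nn y (a * mon r p.1 * mon u p.2) :=
    ⟨Finset.univ.filter fun p => ∃ a, CondS A y D0 a ∧ Nn y (a * mon r p.1 * mon u p.2),
      fun p => by rw [Finset.mem_filter]; exact ⟨fun h => h.2, fun h => ⟨Finset.mem_univ p, h⟩⟩⟩
  refine ⟨E, fun a p ha hp => (hE p).2 ⟨a, ha, hp⟩, ?_⟩
  have hch : ∀ p : (Fin f → ZMod 2) × (Fin f → ZMod 2), ∃ a : F, p ∈ E →
      CondS A y D0 a ∧ Nn y (a * mon r p.1 * mon u p.2) := by
    intro p
    by_cases hp : p ∈ E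
    · obtain ⟨a, ha⟩ := (hE p).1 hp
      exact ⟨a, fun _ => ha⟩
    · exact ⟨0, fun h => absurd h hp⟩
  choose a ha using hch
  have hkey : ∀ p ∈ E, ∀ p' ∈ E, Nn y (a p * a p') → p = p' := by
    intro p hp p' hp' h
    have h1 := nn_mul hB h (ha p hp).2
    have h2 : a p * a p' * (a p * mon r p.1 * mon u p.2) = a p' * mon r p.1 * mon u p.2 * (a p) ^ 2 := by
      ring
    rw [h2] at h1
    have h3 := nn_of_mul_sq hB (ha p hp).1.ne h1
    obtain ⟨x, _, hx⟩ := B.cls (a p') (ha p' hp').1.ne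
    exact (hx p h3).trans (hx p' (ha p' hp').2).symm
  have hinj : ∀ p ∈ E, ∀ p' ∈ E, a p = a p' → p = p' := by
    intro p hp p' hp' h
    refine hkey p hp p' hp' ?_
    rw [← h, ← sq]
    exact nn_sq hB y (ha p hp).1.ne
  have hcard : (E.image a).card = E.card := Finset.card_image_of_injOn fun p hp p' hp' h =>
    hinj p hp p' hp' h
  have h1 := hAA F A c hL y D0 B.two hD0 hfin (E.image a) (fun b hb => by
    obtain ⟨p, hp, rfl⟩ := Finset.mem_image.1 hb
    exact (ha p hp).1) (fun b hb b' hb' hne h => by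
    obtain ⟨p, hp, rfl⟩ := Finset.mem_image.1 hb
    obtain ⟨p', hp', rfl⟩ := Finset.mem_image.1 hb'
    exact hne (by rw [hkey p hp p' hp' h]))
  rw [hcard] at h1
  have h2 := pos_add_neg_le F (D0 := D0)
  obtain ⟨C, hC⟩ : ∃ C, C = ∑ᶠ v, c v := ⟨_, rfl⟩
  rw [← hC] at h1 ⊢
  obtain ⟨ng, hng⟩ : ∃ ng, ng = Nat.card {φ : F →+* ℝ // φ D0 < 0} := ⟨_, rfl⟩
  rw [← hng] at h1 h2
  have h3 : nS F y + ng + ex D0 ≤ f := by
    unfold ex
    omega
  have h4 : (E.card : ℝ) ≤ 2 ^ (nS F y + C + ng) := by exact_mod_cast h1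
  have h5 : (2 : ℝ) ^ (nS F y + C + ng) * 2 ^ ex D0 ≤ 2 ^ C * 2 ^ f := by
    rw [← pow_add, ← pow_add]
    exact pow_le_pow_right₀ (by norm_num) (by omega)
  have h6 : (0 : ℝ) < 2 ^ f := by positivity
  have h7 : (0 : ℝ) < 2 ^ ex D0 := by positivity
  rw [one_div, inv_pow, div_le_iff₀ h6]
  have h8 : (2 : ℝ) ^ C * (2 ^ ex D0)⁻¹ * 2 ^ f = (2 ^ C * 2 ^ f) / 2 ^ ex D0 := by
    rw [div_eq_mul_inv]
    ring
  rw [h8, le_div_iff₀ h7]
  exact (mul_le_mul_of_nonneg_right h4 h7.le).trans h5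

end Pool.Agent.Q151.LQ
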