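import Pool.Agent.Q283.LQ.Stm

/-!
# Project LQ, job LEO: Leopoldt's conjecture says that the defect is `0`
-/

set_option autoImplicit false

namespace Pool.Agent.Q151.LQ

open NumberField Filter Topology Finset
open Pool.Agent.Q283.LQ

theorem mem_two_pow {K : Type} [Field K] [NumberField K] (N : ℕ) (x : 𝓞 K) :
    x ∈ (Ideal.span {(2 : 𝓞 K)}) ^ N ↔ ((2 : ℕ) : 𝓞 K) ^ N ∣ x := by
  rw [Ideal.span_singleton_pow, Ideal.mem_span_singleton]
  norm_num

theorem exists_exponent (K : Type) [Field K] [NumberField K] : ∃ h : ℕ, 0 < h ∧ ∀ u : (𝓞 K)ˣ,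
    (((u ^ h : (𝓞 K)ˣ) : 𝓞 K) - 1) ∈ Ideal.span {(2 : 𝓞 K)} := by
  have h2 : (Ideal.span {(2 : 𝓞 K)}) ≠ ⊥ := by
    rw [Ne, Ideal.span_singleton_eq_bot]
    exact two_ne_zero
  have : Finite (𝓞 K ⧸ Ideal.span {(2 : 𝓞 K)}) := Ideal.finiteQuotientOfFreeOfNeBot _ h2
  have : Finite (𝓞 K ⧸ Ideal.span {(2 : 𝓞 K)})ˣ := inferInstance
  refine ⟨Nat.card (𝓞 K ⧸ Ideal.span {(2 : 𝓞 K)})ˣ, Nat.card_pos, fun u => ?_⟩
  have h3 : (Units.map (Ideal.Quotient.mk (Ideal.span {(2 : 𝓞 K)})).toMonoidHom u) ^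
      (Nat.card (𝓞 K ⧸ Ideal.span {(2 : 𝓞 K)})ˣ) = 1 := pow_card_eq_one'
  rw [← Ideal.Quotient.eq_zero_iff_mem, map_sub, map_one, sub_eq_zero]
  have h4 := congrArg Units.val h3
  rw [← map_pow] at h4
  exact h4

/-- **JOB LEO** -/
theorem LEO : S_LEO := by
  intro K _ _
  constructor
  · rintro hL ⟨n, ε, hε, a, ha, hrel⟩
    obtain ⟨h, hpos, hh⟩ := exists_exponent K
    obtain ⟨m, hm, hN⟩ := hrel 0
    have h0 : a 0 = 0 := by
      refine hL n (fun i => ε i ^ h) (fun i => ?_) (fun c hc => ?_) (a 0) m hm (fun N => ?_)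
      · have h1 : (Ideal.span {((2 : ℕ) : 𝓞 K)}) = Ideal.span {(2 : 𝓞 K)} := by norm_num
        rw [h1]
        exact Ideal.le_radical (hh (ε i))
      · have h1 : ∏ i, ε i ^ ((h : ℤ) * c i) = 1 := by
          rw [← hc]
          refine Finset.prod_congr rfl fun i _ => ?_
          show ε i ^ ((h : ℤ) * c i) = (ε i ^ h) ^ c i
          rw [zpow_mul, zpow_natCast]
        have h2 := hε (fun i => (h : ℤ) * c i) h1
        funext i
        have h3 : (h : ℤ) * c i = 0 := congrFun h2 i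
        rcases mul_eq_zero.1 h3 with h4 | h4
        · omega
        · exact h4
      · filter_upwards [hN N] with k hk
        have h1 : (∏ i, (ε i ^ h) ^ m k i : (𝓞 K)ˣ) = (∏ i, ε i ^ m k i) ^ h := by
          rw [← Finset.prod_pow]
          refine Finset.prod_congr rfl fun i _ => ?_
          rw [← zpow_natCast, ← zpow_natCast, ← zpow_mul, ← zpow_mul, mul_comm]
        show ((2 : ℕ) : 𝓞 K) ^ N ∣ (((∏ i, (ε i ^ h) ^ m k i : (𝓞 K)ˣ) : 𝓞 K) - 1)
        rw [h1]
        refine ((mem_two_pow N _).1 hk).trans ?_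
        have h2 := sub_dvd_pow_sub_pow (((∏ i, ε i ^ m k i : (𝓞 K)ˣ) : 𝓞 K)) 1 h
        rw [one_pow] at h2
        rw [Units.val_pow_eq_pow_val]
        exact h2
    exact ha.ne_zero 0 h0
  · intro hD n ε _ hε a m hm hN
    by_contra ha
    refine hD ⟨n, ε, hε, fun _ => a, ?_, fun _ => ⟨m, hm, fun N => ?_⟩⟩
    · rw [Fintype.linearIndependent_iff]
      intro c hc i
      have h1 : c 0 • a = 0 := by
        rw [Fin.sum_univ_one] at hc
        exact hc
      have h2 : i = 0 := Subsingleton.elim _ _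
      rw [h2]
      obtain ⟨j, hj⟩ := Function.ne_iff.1 ha
      have h3 : c 0 * a j = 0 := congrFun h1 j
      rcases mul_eq_zero.1 h3 with h4 | h4
      · exact h4
      · exact absurd h4 hj
    · filter_upwards [hN N] with k hk
      exact (mem_two_pow N _).2 hk

end Pool.Agent.Q151.LQ
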