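import Pool.Agent.Q151.LQ.PFg
import Pool.Agent.Q119.HV.Zd
import Pool.Agent.Q253.LQ.Stm
import Pool.Agent.H24R2.JP.B1
import Pool.Agent.H24R2.JP.Grow

set_option autoImplicit false

/-!
# Project LQ, job PF: partial fractions for the completed Dirichlet L-functions
-/

namespace Pool.Agent.Q151.LQ

open Complex Filter Topology Set
open DirichletCharacter (completedLFunction LFunction)
open Pool.Agent.Q253.LQ (GRHc mc xi XL S_PF)

/-- order under multiplication with a nonvanishing factor and a shift -/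
theorem ord_shift {F L A : ℂ → ℂ} {z₀ : ℂ} (h : F =ᶠ[𝓝 z₀] fun z => A z * L (1 / 2 + z)) (hA : AnalyticAt ℂ A z₀)
    (hA0 : A z₀ ≠ 0) (hL : AnalyticAt ℂ L (1 / 2 + z₀)) :
    analyticOrderNatAt F z₀ = analyticOrderNatAt L (1 / 2 + z₀) := by
  unfold analyticOrderNatAt
  congr 1
  rw [analyticOrderAt_congr h]
  have hc : AnalyticAt ℂ (fun z => L (1 / 2 + z)) z₀ := AnalyticAt.fun_comp hL (by fun_prop)
  have e : (fun z => A z * L (1 / 2 + z)) = A * (fun z => L (1 / 2 + z)) := rfl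
  rw [e, analyticOrderAt_mul hA hc, hA.analyticOrderAt_eq_zero.2 hA0, zero_add]
  have h1 := analyticOrderAt_comp_of_deriv_ne_zero (f := L) (g := fun z : ℂ => 1 / 2 + z) (z₀ := z₀) (by fun_prop)
    (by rw [deriv_const_add, deriv_id'']; exact one_ne_zero)
  exact h1

/-- order under multiplication with a nonvanishing factor -/
theorem ord_mul {F L A : ℂ → ℂ} {z₀ : ℂ} (h : F =ᶠ[𝓝 z₀] fun z => L z * A z) (hA : AnalyticAt ℂ A z₀)
    (hA0 : A z₀ ≠ 0) (hL : AnalyticAt ℂ L z₀) : analyticOrderNatAt F z₀ = analyticOrderNatAt L z₀ := by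
  unfold analyticOrderNatAt
  congr 1
  rw [analyticOrderAt_congr h]
  have e : (fun z => L z * A z) = L * A := rfl
  rw [e, analyticOrderAt_mul hL hA, hA.analyticOrderAt_eq_zero.2 hA0, add_zero]

/-- the Euler factors -/
theorem eul {N : ℕ} (ψ : DirichletCharacter ℂ N) (q : ℕ) :
    Differentiable ℂ (fun s : ℂ => ∏ p ∈ q.primeFactors, (1 - ψ (p : ZMod N) * (p : ℂ) ^ (-s))) ∧
    ∀ s : ℂ, 1 / 2 ≤ s.re → ∏ p ∈ q.primeFactors, (1 - ψ (p : ZMod N) * (p : ℂ) ^ (-s)) ≠ 0 := by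
  constructor
  · have h1 : ∀ p ∈ q.primeFactors, Differentiable ℂ (fun s : ℂ => 1 - ψ (p : ZMod N) * (p : ℂ) ^ (-s)) := by
      intro p hp s
      have hpc : (p : ℂ) ≠ 0 := by exact_mod_cast (Nat.prime_of_mem_primeFactors hp).ne_zero
      have h1 : HasDerivAt (fun s : ℂ => -s) (-1) s := (hasDerivAt_id s).neg
      exact (((h1.const_cpow (Or.inl hpc)).const_mul (ψ (p : ZMod N))).const_sub 1).differentiableAt
    exact Differentiable.fun_finsetProd h1
  · intro s hs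
    rw [Finset.prod_ne_zero_iff]
    intro p hp
    exact (Pool.Agent.Q119.HV.logDeriv_factor (Nat.prime_of_mem_primeFactors hp) (ψ.norm_le_one _) hs).1

theorem gr_an {s : ℂ} (hs : 0 < s.re) : AnalyticAt ℂ Gammaℝ s := by
  have h1 : AnalyticAt ℂ (fun s => (Gammaℝ s)⁻¹) s := differentiable_Gammaℝ_inv.analyticAt s
  have h2 := h1.inv (inv_ne_zero (Gammaℝ_ne_zero_of_re_pos hs))
  have e : (fun s : ℂ => (Gammaℝ s)⁻¹)⁻¹ = Gammaℝ := by
    funext w
    simp
  rwa [e] at h2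

theorem zeta_an {s : ℂ} (hs : s ≠ 1) : AnalyticAt ℂ riemannZeta s := by
  have h1 : DifferentiableOn ℂ riemannZeta {1}ᶜ := fun z hz =>
    (differentiableAt_riemannZeta hz).differentiableWithinAt
  exact h1.analyticAt (isOpen_compl_singleton.mem_nhds hs)

theorem half_ne (γ : ℝ) : (1 / 2 : ℂ) + (γ : ℂ) * I ≠ 1 := by
  intro h
  have := congrArg Complex.re h
  simp at this

theorem re_half (γ : ℝ) : ((1 / 2 : ℂ) + (γ : ℂ) * I).re = 1 / 2 := by
  simp

theorem re_half' (z : ℂ) : ((1 / 2 : ℂ) + z).re = 1 / 2 + z.re := by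
  simp

/-- the logarithmic derivative of a shifted function -/
theorem ld_shift {F X : ℂ → ℂ} {c : ℂ} (hc : c ≠ 0) (h : ∀ z, F (1 / 2 + z) = c * X z) (z : ℂ) :
    logDeriv F (1 / 2 + z) = logDeriv X z := by
  have h1 : (fun z => F (1 / 2 + z)) = fun z => c * X z := funext h
  have h2 : logDeriv (fun z => F (1 / 2 + z)) z = logDeriv F (1 / 2 + z) := by
    rw [logDeriv_apply, logDeriv_apply, deriv_comp_const_add]
  rw [← h2, h1, logDeriv_const_mul z c hc]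

/-- the case of a nonprincipal character -/
theorem pf_ne {q : ℕ} [NeZero q] (χ : DirichletCharacter ℂ q) (h1 : χ ≠ 1) (hG : GRHc χ) :
    ∃ (X : ℂ → ℂ) (c : ℂ), c ≠ 0 ∧ (∀ z, XL χ (1 / 2 + z) = c * X z) ∧ Differentiable ℂ X ∧
      (∀ z : ℂ, X (-((starRingEnd ℂ) z)) = (starRingEnd ℂ) (X z)) ∧
      (∃ K : ℝ, 0 < K ∧ ∀ z : ℂ, ‖X z‖ ≤ Real.exp (K * (1 + ‖z‖) ^ (3 / 2 : ℝ))) ∧
      (∀ s : ℂ, X s = 0 → s.re = 0) ∧ ∀ γ : ℝ, mc χ γ = analyticOrderNatAt X (γ * I) := by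
  have hNe : NeZero χ.conductor := ⟨χ.conductor_ne_zero⟩
  have hN : 1 < χ.conductor := by
    have h2 := χ.conductor_ne_zero
    have h3 : χ.conductor ≠ 1 := fun h => h1 ((DirichletCharacter.eq_one_iff_conductor_eq_one).2 h)
    omega
  have hψ : χ.primitiveCharacter.IsPrimitive := χ.primitiveCharacter_isPrimitive
  have hψ1 := H855R2.SF.ne_one_of_prim hN hψ
  obtain ⟨A, hA⟩ : ∃ A : ℂ → ℂ, A = fun s : ℂ => ∏ p ∈ q.primeFactors,
    (1 - χ.primitiveCharacter (p : ZMod χ.conductor) * (p : ℂ) ^ (-s)) := ⟨_, rfl⟩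
  obtain ⟨hAd, hA0⟩ := eul χ.primitiveCharacter q
  have hAd' : Differentiable ℂ A := by rw [hA]; exact hAd
  have hA0' : ∀ s : ℂ, 1 / 2 ≤ s.re → A s ≠ 0 := by rw [hA]; exact hA0
  have hLA : ∀ s : ℂ, LFunction χ s = LFunction χ.primitiveCharacter s * A s := by
    intro s
    have h2 := DirichletCharacter.LFunction_changeLevel χ.conductor_dvd_level χ.primitiveCharacter (s := s)
      (Or.inl hψ1)
    rw [DirichletCharacter.changeLevel_primitiveCharacter] at h2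
    rw [h2, hA]
  have hL : ∀ s : ℂ, 1 / 2 < s.re → LFunction χ.primitiveCharacter s ≠ 0 := by
    intro s hs h0
    have h2 : LFunction χ s = 0 := by rw [hLA, h0, zero_mul]
    rcases lt_or_ge s.re 1 with h3 | h3
    · exact hG s hs h3 h2
    · exact DirichletCharacter.LFunction_ne_zero_of_one_le_re χ (Or.inl h1) h3 h2
  refine ⟨Pool.Agent.Q119.HV.X χ.primitiveCharacter,
    (χ.conductor : ℂ) ^ (1 / 4 : ℂ) * (Pool.Agent.Q119.HV.cc χ.primitiveCharacter)⁻¹, ?_, ?_,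
    Pool.Agent.Q119.HV.X_diff hψ1, Pool.Agent.Q119.HV.X_sym hN hψ, ?_, ?_, ?_⟩
  · refine mul_ne_zero ?_ (inv_ne_zero (Pool.Agent.Q119.HV.cc_ne hψ))
    rw [Ne, cpow_eq_zero_iff]
    exact fun h => Pool.Agent.Q119.HV.Nne h.1
  · intro z
    unfold XL Pool.Agent.Q119.HV.X
    rw [if_neg h1]
    have hc := Pool.Agent.Q119.HV.cc_ne hψ
    have e1 : (χ.conductor : ℂ) ^ ((1 / 2 + z) / 2) = (χ.conductor : ℂ) ^ (1 / 4 : ℂ) * (χ.conductor : ℂ) ^ (z / 2) := by
      rw [← cpow_add _ _ Pool.Agent.Q119.HV.Nne]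
      congr 1
      ring
    rw [e1]
    field_simp
  · refine ⟨_, ?_, fun z => Pool.Agent.Q119.HV.X_growth hN hψ z⟩
    have : 0 ≤ Real.log χ.conductor := Real.log_natCast_nonneg _
    positivity
  · intro s hs
    rcases lt_trichotomy s.re 0 with h | h | h
    · exfalso
      have h2 := Pool.Agent.Q119.HV.X_sym hN hψ s
      rw [hs, map_zero] at h2
      exact Pool.Agent.Q119.HV.X_zero hN hψ hL (z := -((starRingEnd ℂ) s)) (by rw [neg_re, conj_re]; linarith) h2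
    · exact h
    · exact absurd hs (Pool.Agent.Q119.HV.X_zero hN hψ hL h)
  · intro γ
    have hLd := DirichletCharacter.differentiable_LFunction hψ1
    have h2 : mc χ γ = analyticOrderNatAt (LFunction χ.primitiveCharacter) (1 / 2 + (γ : ℂ) * I) := by
      unfold mc
      refine ord_mul (A := A) (Eventually.of_forall hLA) (hAd'.analyticAt _) (hA0' _ ?_) (hLd.analyticAt _)
      rw [re_half]
    rw [h2]
    symm
    have haa := H429.GP.aa_re_nonneg (χ := χ.primitiveCharacter)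
    have hre : 0 < (1 / 2 + (γ : ℂ) * I + H370.DL.aa χ.primitiveCharacter).re := by
      rw [add_re, re_half]
      linarith
    refine ord_shift (A := fun z => Pool.Agent.Q119.HV.cc χ.primitiveCharacter * (χ.conductor : ℂ) ^ (z / 2) *
      Gammaℝ (1 / 2 + z + H370.DL.aa χ.primitiveCharacter)) ?_ ?_ ?_ (hLd.analyticAt _)
    · have hmem : {z : ℂ | -(1 / 2) < z.re} ∈ 𝓝 ((γ : ℂ) * I) :=
        (isOpen_lt continuous_const continuous_re).mem_nhds (by
          show -(1 / 2) < ((γ : ℂ) * I).re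
          simp)
      filter_upwards [hmem] with w hw
      rw [Pool.Agent.Q119.HV.X_eq hN hw, sub_neg_eq_add]
      ring
    · have h3 : AnalyticAt ℂ (fun z : ℂ => Gammaℝ (1 / 2 + z + H370.DL.aa χ.primitiveCharacter)) ((γ : ℂ) * I) :=
        AnalyticAt.fun_comp (gr_an hre) (by fun_prop)
      have h4 : Differentiable ℂ (fun z : ℂ => (χ.conductor : ℂ) ^ (z / 2)) := fun z => by
        apply DifferentiableAt.const_cpow _ (Or.inl Pool.Agent.Q119.HV.Nne)
        fun_prop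
      exact (analyticAt_const.mul (h4.analyticAt _)).mul h3
    · refine mul_ne_zero (mul_ne_zero (Pool.Agent.Q119.HV.cc_ne hψ) ?_) (Gammaℝ_ne_zero_of_re_pos hre)
      rw [Ne, cpow_eq_zero_iff]
      exact fun h => Pool.Agent.Q119.HV.Nne h.1

open Pool.Agent.H24R2.JP (XX FF) in
/-- the case of the principal character -/
theorem pf_one {q : ℕ} [NeZero q] (hG : GRHc (1 : DirichletCharacter ℂ q)) :
    ∃ (X : ℂ → ℂ) (c : ℂ), c ≠ 0 ∧ (∀ z, XL (1 : DirichletCharacter ℂ q) (1 / 2 + z) = c * X z) ∧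
      Differentiable ℂ X ∧ (∀ z : ℂ, X (-((starRingEnd ℂ) z)) = (starRingEnd ℂ) (X z)) ∧
      (∃ K : ℝ, 0 < K ∧ ∀ z : ℂ, ‖X z‖ ≤ Real.exp (K * (1 + ‖z‖) ^ (3 / 2 : ℝ))) ∧
      (∀ s : ℂ, X s = 0 → s.re = 0) ∧
      ∀ γ : ℝ, mc (1 : DirichletCharacter ℂ q) γ = analyticOrderNatAt X (γ * I) := by
  obtain ⟨A, hA⟩ : ∃ A : ℂ → ℂ, A = fun s : ℂ => ∏ p ∈ q.primeFactors,
    (1 - (1 : DirichletCharacter ℂ 1) (p : ZMod 1) * (p : ℂ) ^ (-s)) := ⟨_, rfl⟩
  obtain ⟨hAd, hA0⟩ := eul (1 : DirichletCharacter ℂ 1) q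
  have hAd' : Differentiable ℂ A := by rw [hA]; exact hAd
  have hA0' : ∀ s : ℂ, 1 / 2 ≤ s.re → A s ≠ 0 := by rw [hA]; exact hA0
  have hLA : ∀ s : ℂ, s ≠ 1 → LFunction (1 : DirichletCharacter ℂ q) s = riemannZeta s * A s := by
    intro s hs
    have h2 := DirichletCharacter.LFunctionTrivChar_eq_mul_riemannZeta (N := q) hs
    have h3 : LFunction (1 : DirichletCharacter ℂ q) s = DirichletCharacter.LFunctionTrivChar q s := rfl
    rw [h3, h2, hA, mul_comm]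
    congr 1
    refine Finset.prod_congr rfl fun p _ => ?_
    have h4 : (1 : DirichletCharacter ℂ 1) (p : ZMod 1) = 1 := MulChar.one_apply (isUnit_of_subsingleton _)
    rw [h4, one_mul]
  have hXX : ∀ z : ℂ, 1 / 2 + z ≠ 0 → 1 / 2 + z ≠ 1 →
      XX z = 4 * ((1 / 2 + z) * ((1 / 2 + z) - 1)) * completedRiemannZeta (1 / 2 + z) := by
    intro z h0 h1
    have h1' : 1 - (1 / 2 + z) ≠ 0 := fun h => h1 (sub_eq_zero.1 h).symm
    rw [completedRiemannZeta_eq]
    unfold XX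
    generalize completedRiemannZeta₀ (1 / 2 + z) = Λ
    have e : z = (1 / 2 + z) - 1 / 2 := by ring
    generalize (1 / 2 + z) = s at *
    subst e
    field_simp
    ring
  have hXz : ∀ z : ℂ, 1 / 2 + z ≠ 0 → 1 / 2 + z ≠ 1 → 0 < (1 / 2 + z).re →
      XX z = 4 * ((1 / 2 + z) * ((1 / 2 + z) - 1)) * Gammaℝ (1 / 2 + z) * riemannZeta (1 / 2 + z) := by
    intro z h0 h1 h2
    have h3 := Gammaℝ_ne_zero_of_re_pos h2
    rw [hXX z h0 h1, riemannZeta_def_of_ne_zero h0, mul_assoc (4 * ((1 / 2 + z) * ((1 / 2 + z) - 1))),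
      mul_div_cancel₀ _ h3]
  have hpos : ∀ z : ℂ, 0 < z.re → XX z ≠ 0 := by
    intro z hz
    by_cases h1 : 1 / 2 + z = 1
    · have hz' : z = 1 / 2 := by linear_combination h1
      rw [hz']
      unfold XX
      norm_num
    · have hre : 0 < (1 / 2 + z).re := by rw [re_half']; linarith
      have h0 : 1 / 2 + z ≠ 0 := fun h => by
        rw [h] at hre
        simp at hre
      rw [hXz z h0 h1 hre]
      refine mul_ne_zero (mul_ne_zero (mul_ne_zero (by norm_num) (mul_ne_zero h0 (sub_ne_zero.2 h1)))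
        (Gammaℝ_ne_zero_of_re_pos hre)) ?_
      rcases lt_or_ge (1 / 2 + z).re 1 with h3 | h3
      · intro h4
        refine hG (1 / 2 + z) (by rw [re_half']; linarith) h3 ?_
        rw [hLA _ h1, h4, zero_mul]
      · exact riemannZeta_ne_zero_of_one_le_re h3
  refine ⟨XX, 1 / 8, by norm_num, ?_, Pool.Agent.H24R2.JP.B1h.XX_diff, ?_, ?_, ?_, ?_⟩
  · intro z
    unfold XL xi XX
    rw [if_pos rfl]
    ring
  · intro z
    rw [Pool.Agent.H24R2.JP.B1h.XX_neg, Pool.Agent.H24R2.JP.B1h.XX_conj]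
  · obtain ⟨K, hK⟩ := Pool.Agent.H24R2.JP.grow Pool.Agent.H24R2.JP.b1
    refine ⟨|K| + 1, by positivity, fun z => ?_⟩
    have h1 := hK (z ^ 2)
    rw [Pool.Agent.H24R2.JP.b1.2.1 z] at h1
    refine h1.trans (Real.exp_le_exp.2 ?_)
    have h2 : (1 + ‖z ^ 2‖) ^ (3 / 4 : ℝ) ≤ (1 + ‖z‖) ^ (3 / 2 : ℝ) := by
      have h3 : (1 + ‖z‖) ^ (3 / 2 : ℝ) = ((1 + ‖z‖) ^ (2 : ℝ)) ^ (3 / 4 : ℝ) := by
        rw [← Real.rpow_mul (by positivity)]
        norm_num
      rw [h3]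
      refine Real.rpow_le_rpow (by positivity) ?_ (by norm_num)
      rw [norm_pow, Real.rpow_two]
      have := norm_nonneg z
      nlinarith
    have h4 : 0 ≤ (1 + ‖z ^ 2‖) ^ (3 / 4 : ℝ) := by positivity
    calc K * (1 + ‖z ^ 2‖) ^ (3 / 4 : ℝ) ≤ (|K| + 1) * (1 + ‖z ^ 2‖) ^ (3 / 4 : ℝ) := by
          have := le_abs_self K
          gcongr
          linarith
      _ ≤ _ := by gcongr
  · intro s hs
    rcases lt_trichotomy s.re 0 with h | h | h
    · exfalso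
      have h2 := Pool.Agent.H24R2.JP.B1h.XX_neg s
      rw [hs] at h2
      exact hpos (-s) (by rw [neg_re]; linarith) h2
    · exact h
    · exact absurd hs (hpos s h)
  · intro γ
    have h2 : mc (1 : DirichletCharacter ℂ q) γ = analyticOrderNatAt riemannZeta (1 / 2 + (γ : ℂ) * I) := by
      unfold mc
      refine ord_mul (A := A) ?_ (hAd'.analyticAt _) (hA0' _ ?_) (zeta_an (half_ne γ))
      · filter_upwards [isOpen_compl_singleton.mem_nhds (half_ne γ)] with s hs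
        exact hLA s hs
      · rw [re_half]
    rw [h2]
    symm
    have hre : 0 < (1 / 2 + (γ : ℂ) * I).re := by rw [re_half]; norm_num
    have h0 : (1 / 2 : ℂ) + (γ : ℂ) * I ≠ 0 := fun h => by
      rw [h] at hre
      simp at hre
    refine ord_shift (A := fun z => 4 * ((1 / 2 + z) * ((1 / 2 + z) - 1)) * Gammaℝ (1 / 2 + z)) ?_ ?_ ?_
      (zeta_an (half_ne γ))
    · have hc : Continuous (fun z : ℂ => 1 / 2 + z) := by fun_prop
      have m1 : {z : ℂ | 1 / 2 + z ≠ 1} ∈ 𝓝 ((γ : ℂ) * I) :=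
        (isOpen_ne.preimage hc).mem_nhds (half_ne γ)
      have m2 : {z : ℂ | 1 / 2 + z ≠ 0} ∈ 𝓝 ((γ : ℂ) * I) :=
        (isOpen_ne.preimage hc).mem_nhds h0
      have m3 : {z : ℂ | 0 < (1 / 2 + z).re} ∈ 𝓝 ((γ : ℂ) * I) :=
        (isOpen_lt continuous_const (continuous_re.comp hc)).mem_nhds hre
      filter_upwards [m1, m2, m3] with w w1 w2 w3
      exact hXz w w2 w1 w3
    · have h3 : AnalyticAt ℂ (fun z : ℂ => Gammaℝ (1 / 2 + z)) ((γ : ℂ) * I) :=
        AnalyticAt.fun_comp (gr_an hre) (by fun_prop)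
      have h4 : AnalyticAt ℂ (fun z : ℂ => 4 * ((1 / 2 + z) * ((1 / 2 + z) - 1))) ((γ : ℂ) * I) := by fun_prop
      exact h4.mul h3
    · exact mul_ne_zero (mul_ne_zero (by norm_num) (mul_ne_zero h0 (sub_ne_zero.2 (half_ne γ))))
        (Gammaℝ_ne_zero_of_re_pos hre)

theorem t_PF : S_PF := by
  intro q _ χ hG
  have key : ∃ (X : ℂ → ℂ) (c : ℂ), c ≠ 0 ∧ (∀ z, XL χ (1 / 2 + z) = c * X z) ∧ Differentiable ℂ X ∧
      (∀ z : ℂ, X (-((starRingEnd ℂ) z)) = (starRingEnd ℂ) (X z)) ∧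
      (∃ K : ℝ, 0 < K ∧ ∀ z : ℂ, ‖X z‖ ≤ Real.exp (K * (1 + ‖z‖) ^ (3 / 2 : ℝ))) ∧
      (∀ s : ℂ, X s = 0 → s.re = 0) ∧ ∀ γ : ℝ, mc χ γ = analyticOrderNatAt X (γ * I) := by
    by_cases h : χ = 1
    · subst h
      exact pf_one hG
    · exact pf_ne χ h hG
  obtain ⟨X, c, hc, hXL, hd, hsym, hgr, hz, hm⟩ := key
  obtain ⟨h1, h2, h3⟩ := pf_gen hd hsym hgr hz (mc χ) hm
  refine ⟨h1, fun z hz0 => ?_, fun z w hz0 hw0 => ?_⟩
  · rw [ld_shift hc hXL]
    exact h2 z hz0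
  · rw [ld_shift hc hXL, ld_shift hc hXL]
    exact h3 z w hz0 hw0

end Pool.Agent.Q151.LQ
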