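import Pool.Agent.Y275.GL.Had1

set_option autoImplicit false

/-!
# Project LQ, job PF: partial fractions of the logarithmic derivative of an entire function of order less than two
with zeros on the imaginary axis
-/

namespace Pool.Agent.Q151.LQ

open Complex Filter Topology Metric Set
open Pool.Agent.Y275.GL (base1 lim1)

/-- division by a power of a linear factor -/
theorem div_pw (a : ℂ) (m : ℕ) : ∀ f : ℂ → ℂ, Differentiable ℂ f → (m : ℕ∞) ≤ analyticOrderAt f a →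
    ∃ g : ℂ → ℂ, Differentiable ℂ g ∧ ∀ z, f z = (z - a) ^ m * g z := by
  induction m with
  | zero => exact fun f hf _ => ⟨f, hf, by simp⟩
  | succ m ih =>
    intro f hf hm
    have h0 : f a = 0 := by
      by_contra h
      rw [(hf.analyticAt a).analyticOrderAt_eq_zero.2 h] at hm
      simp at hm
    have hg : Differentiable ℂ (dslope f a) := by
      rw [← differentiableOn_univ]
      exact (Complex.differentiableOn_dslope univ_mem).2 hf.differentiableOn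
    have hfg : ∀ z, f z = (z - a) * dslope f a z := by
      intro z
      have := sub_smul_dslope f a z
      rw [h0, sub_zero, smul_eq_mul] at this
      exact this.symm
    have hfg' : f = (fun z => z - a) * dslope f a := by
      funext z
      exact hfg z
    have hord : analyticOrderAt f a = 1 + analyticOrderAt (dslope f a) a := by
      conv_lhs => rw [hfg']
      rw [analyticOrderAt_mul (by fun_prop) (hg.analyticAt a), analyticOrderAt_id_sub_const_self]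
    have hm' : (m : ℕ∞) ≤ analyticOrderAt (dslope f a) a := by
      rw [hord] at hm
      push_cast at hm
      rw [add_comm] at hm
      exact (ENat.add_le_add_iff_left (by simp)).1 hm
    obtain ⟨g, hg1, hg2⟩ := ih (dslope f a) hg hm'
    exact ⟨g, hg1, fun z => by rw [hfg z, hg2 z]; ring⟩

/-- division by all the factors belonging to finitely many points -/
theorem div_fin {f : ℂ → ℂ} (hf : Differentiable ℂ f) (hfin : ∀ a, analyticOrderAt f a ≠ ⊤) (S : Finset ℂ) :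
    ∃ g : ℂ → ℂ, Differentiable ℂ g ∧ (∀ z, f z = (∏ a ∈ S, (z - a) ^ analyticOrderNatAt f a) * g z) ∧
      ∀ a ∈ S, g a ≠ 0 := by
  induction S using Finset.induction_on with
  | empty => exact ⟨f, hf, by simp, by simp⟩
  | insert b S hb ih =>
    obtain ⟨g, hg1, hg2, hg3⟩ := ih
    obtain ⟨P, hP⟩ : ∃ P : ℂ → ℂ, P = fun z => ∏ a ∈ S, (z - a) ^ analyticOrderNatAt f a := ⟨_, rfl⟩
    have hPd : Differentiable ℂ P := by
      rw [hP]
      fun_prop
    have hPb : P b ≠ 0 := by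
      rw [hP]
      simp only
      rw [Finset.prod_ne_zero_iff]
      intro a ha
      exact pow_ne_zero _ (sub_ne_zero.2 fun h => hb (h ▸ ha))
    have hfP : f = P * g := by
      funext z
      rw [hg2 z, hP]
      rfl
    have ho : analyticOrderAt f b = analyticOrderAt g b := by
      conv_lhs => rw [hfP]
      rw [analyticOrderAt_mul (hPd.analyticAt b) (hg1.analyticAt b),
        (hPd.analyticAt b).analyticOrderAt_eq_zero.2 hPb, zero_add]
    have hcast : ((analyticOrderNatAt f b : ℕ) : ℕ∞) = analyticOrderAt f b := Nat.cast_analyticOrderNatAt (hfin b)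
    obtain ⟨g', h1, h2⟩ := div_pw b (analyticOrderNatAt f b) g hg1 (by rw [hcast, ho])
    have hgg : g = (fun z => z - b) ^ (analyticOrderNatAt f b) * g' := by
      funext z
      exact h2 z
    have ho2 : analyticOrderAt g b = analyticOrderNatAt f b + analyticOrderAt g' b := by
      conv_lhs => rw [hgg]
      rw [analyticOrderAt_mul (by fun_prop) (h1.analyticAt b)]
      congr 1
      exact analyticOrderAt_centeredMonomial
    have ho3 : analyticOrderAt g' b = 0 := by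
      rw [← ho, ← hcast] at ho2
      have h4 : ((analyticOrderNatAt f b : ℕ) : ℕ∞) + analyticOrderAt g' b = (analyticOrderNatAt f b : ℕ) + 0 := by
        rw [← ho2, add_zero]
      exact ENat.add_right_injective_of_ne_top (n := ((analyticOrderNatAt f b : ℕ) : ℕ∞)) (by simp) h4
    have hg'b : g' b ≠ 0 := (h1.analyticAt b).analyticOrderAt_eq_zero.1 ho3
    refine ⟨g', h1, fun z => ?_, fun a ha => ?_⟩
    · rw [hg2 z, h2 z, Finset.prod_insert hb]
      ring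
    · rw [Finset.mem_insert] at ha
      rcases ha with rfl | ha
      · exact hg'b
      · intro h0
        refine hg3 a ha ?_
        rw [h2 a, h0, mul_zero]

theorem fin_zeros {f : ℂ → ℂ} (hf : Differentiable ℂ f) (hne : ∃ z, f z ≠ 0) (p : ℂ) (R : ℝ) :
    {z : ℂ | f z = 0 ∧ ‖z - p‖ ≤ R}.Finite := by
  by_contra h
  obtain ⟨x, -, hx⟩ := Set.Infinite.exists_accPt_of_subset_isCompact (K := closedBall p R) h
    (isCompact_closedBall p R) (fun z hz => by rw [mem_closedBall, dist_eq_norm]; exact hz.2)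
  rw [accPt_iff_frequently] at hx
  have han : AnalyticOnNhd ℂ f Set.univ := fun z _ => hf.analyticAt z
  have h1 : ∃ᶠ z in 𝓝[≠] x, f z = 0 := by
    rw [frequently_nhdsWithin_iff]
    refine hx.mono fun z hz => ⟨hz.2.1, hz.1⟩
  have h2 := han.eqOn_zero_of_preconnected_of_frequently_eq_zero isPreconnected_univ (Set.mem_univ x) h1
  obtain ⟨z, hz⟩ := hne
  exact hz (h2 (Set.mem_univ z))

theorem ord_fin {f : ℂ → ℂ} (hf : Differentiable ℂ f) (hne : ∃ z, f z ≠ 0) (a : ℂ) : analyticOrderAt f a ≠ ⊤ := by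
  intro h
  rw [analyticOrderAt_eq_top] at h
  have han : AnalyticOnNhd ℂ f Set.univ := fun z _ => hf.analyticAt z
  obtain ⟨z, hz⟩ := hne
  exact hz (han.eqOn_zero_of_preconnected_of_eventuallyEq_zero isPreconnected_univ (Set.mem_univ a) h
    (Set.mem_univ z))

/-- one step: all the zeros in the disc of radius `N + 1` about `p` -/
theorem had_step {X : ℂ → ℂ} (hX : Differentiable ℂ X) (p : ℂ) (hp : X p ≠ 0) {K : ℝ}
    (hb : ∀ z, ‖X z‖ ≤ Real.exp (K * (1 + ‖z - p‖) ^ (3 / 2 : ℝ))) (N : ℕ) :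
    ∃ (S : Finset ℂ) (β : ℂ) (E : ℂ → ℂ), (∀ z, z ∈ S ↔ X z = 0 ∧ ‖z - p‖ ≤ (N : ℝ) + 1) ∧
      ∀ z : ℂ, ‖z - p‖ < ((N : ℝ) + 1) / 2 →
        X z = X p * (∏ a ∈ S, ((z - a) / (p - a)) ^ analyticOrderNatAt X a) * cexp (β * (z - p)) * cexp (E z) ∧
        ‖E z‖ ≤ 16 * (K * (1 + 2 * ((N : ℝ) + 1)) ^ (3 / 2 : ℝ) + |Real.log ‖X p‖|) *
          (‖z - p‖ / ((N : ℝ) + 1)) ^ 2 := by
  have hρ : 0 < (N : ℝ) + 1 := by positivity
  obtain ⟨ρ, hρd⟩ : ∃ ρ : ℝ, ρ = (N : ℝ) + 1 := ⟨_, rfl⟩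
  rw [← hρd] at hρ ⊢
  have hne : ∃ z, X z ≠ 0 := ⟨p, hp⟩
  have hfinS := fin_zeros hX hne p ρ
  obtain ⟨S, hS⟩ : ∃ S : Finset ℂ, ∀ z, z ∈ S ↔ X z = 0 ∧ ‖z - p‖ ≤ ρ :=
    ⟨hfinS.toFinset, fun z => by rw [Set.Finite.mem_toFinset]; rfl⟩
  obtain ⟨G, hG, hXG, hGS⟩ := div_fin hX (ord_fin hX hne) S
  obtain ⟨P, hP⟩ : ∃ P : ℂ → ℂ, P = fun z => ∏ a ∈ S, (z - a) ^ analyticOrderNatAt X a := ⟨_, rfl⟩
  have hPe : ∀ z, P z = ∏ a ∈ S, (z - a) ^ analyticOrderNatAt X a := fun z => by rw [hP]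
  have hXG' : ∀ z, X z = P z * G z := fun z => by rw [hPe, hXG z]
  have hPp : P p ≠ 0 := fun h => hp (by rw [hXG', h, zero_mul])
  have hGp : G p ≠ 0 := fun h => hp (by rw [hXG', h, mul_zero])
  have hGnz : ∀ z ∈ ball p ρ, G z ≠ 0 := by
    intro z hz h0
    rw [mem_ball, dist_eq_norm] at hz
    have hz0 : X z = 0 := by rw [hXG', h0, mul_zero]
    exact hGS z ((hS z).2 ⟨hz0, hz.le⟩) h0
  have hPn : ∀ z, ‖z - p‖ = 2 * ρ → ‖P p‖ ≤ ‖P z‖ := by
    intro z hz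
    rw [hPe, hPe, norm_prod, norm_prod]
    refine Finset.prod_le_prod (fun a _ => norm_nonneg _) fun a ha => ?_
    rw [norm_pow, norm_pow]
    refine pow_le_pow_left₀ (norm_nonneg _) ?_ _
    have h1 := ((hS a).1 ha).2
    have h2 : ‖z - p‖ ≤ ‖z - a‖ + ‖a - p‖ := by
      have := norm_add_le (z - a) (a - p)
      rwa [sub_add_sub_cancel] at this
    rw [norm_sub_rev p a]
    linarith
  have hXp0 : 0 < ‖X p‖ := norm_pos_iff.2 hp
  have hGp0 : 0 < ‖G p‖ := norm_pos_iff.2 hGp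
  obtain ⟨B, hB⟩ : ∃ B : ℝ, B = K * (1 + 2 * ρ) ^ (3 / 2 : ℝ) := ⟨_, rfl⟩
  have hGb : ∀ z ∈ ball p ρ, ‖G z‖ ≤ Real.exp (B + Real.log ‖G p‖ - Real.log ‖X p‖) := by
    intro z hz
    refine Complex.norm_le_of_forall_mem_frontier_norm_le (U := ball p (2 * ρ)) isBounded_ball
      hG.diffContOnCl ?_ (subset_closure (ball_subset_ball (by linarith) hz))
    intro y hy
    rw [frontier_ball p (by positivity), mem_sphere, dist_eq_norm] at hy
    have h1 := hPn y hy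
    have h2 : ‖X y‖ = ‖P y‖ * ‖G y‖ := by rw [hXG', norm_mul]
    have h3 : ‖X p‖ = ‖P p‖ * ‖G p‖ := by rw [hXG', norm_mul]
    have h4 := hb y
    rw [hy, ← hB] at h4
    rw [Real.exp_sub, Real.exp_add, Real.exp_log hGp0, Real.exp_log hXp0, le_div_iff₀ hXp0, h3]
    calc ‖G y‖ * (‖P p‖ * ‖G p‖) = ‖P p‖ * ‖G y‖ * ‖G p‖ := by ring
      _ ≤ ‖P y‖ * ‖G y‖ * ‖G p‖ := by gcongr
      _ = ‖X y‖ * ‖G p‖ := by rw [h2]
      _ ≤ Real.exp B * ‖G p‖ := by gcongr
  obtain ⟨hA, E, hE⟩ := base1 (F := fun w => G (p + w)) (ρ := ρ) (M := B + Real.log ‖G p‖ - Real.log ‖X p‖)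
    (hG.comp (by fun_prop)) hρ (fun u hu => hGnz _ (by simpa using hu)) (fun w hw => hGb _ (by simpa using hw))
  simp only [add_zero] at hA hE
  refine ⟨S, deriv (fun w => G (p + w)) 0 / G p, fun z => E (z - p), hS, fun z hz => ?_⟩
  obtain ⟨h1, h2⟩ := hE (z - p) hz
  rw [add_sub_cancel] at h1
  constructor
  · have h3 : ∏ a ∈ S, ((z - a) / (p - a)) ^ analyticOrderNatAt X a = P z / P p := by
      rw [hPe, hPe, ← Finset.prod_div_distrib]
      exact Finset.prod_congr rfl fun a _ => _root_.div_pow _ _ _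
    rw [h3, hXG' z, h1, Complex.exp_add, hXG' p]
    field_simp
  · refine h2.trans ?_
    apply mul_le_mul_of_nonneg_right _ (sq_nonneg _)
    rw [← hB]
    have := neg_abs_le (Real.log ‖X p‖)
    linarith

/-- the genus one products converge -/
theorem had_pf {X : ℂ → ℂ} (hX : Differentiable ℂ X) (p : ℂ) (hp : X p ≠ 0) {K : ℝ} (hK : 0 ≤ K)
    (hb : ∀ z, ‖X z‖ ≤ Real.exp (K * (1 + ‖z - p‖) ^ (3 / 2 : ℝ))) :
    ∃ (S : ℕ → Finset ℂ) (β : ℕ → ℂ), (∀ N z, z ∈ S N ↔ X z = 0 ∧ ‖z - p‖ ≤ (N : ℝ) + 1) ∧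
      TendstoLocallyUniformly (fun (N : ℕ) (z : ℂ) => X p * (∏ a ∈ S N, ((z - a) / (p - a)) ^
        analyticOrderNatAt X a) * cexp (β N * (z - p))) X atTop := by
  choose S β E h1 h2 using had_step hX p hp hb
  refine ⟨S, β, h1, ?_⟩
  rw [Metric.tendstoLocallyUniformly_iff]
  intro ε hε x
  obtain ⟨r, hr⟩ : ∃ r : ℝ, r = ‖x - p‖ + 1 := ⟨_, rfl⟩
  have hr0 : 0 < r := by rw [hr]; positivity
  obtain ⟨B, hB⟩ : ∃ B : ℝ, B = Real.exp (K * (1 + r) ^ (3 / 2 : ℝ)) := ⟨_, rfl⟩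
  have hB0 : 0 < B := by rw [hB]; exact Real.exp_pos _
  refine ⟨ball p r, ?_, ?_⟩
  · apply isOpen_ball.mem_nhds
    rw [mem_ball, dist_eq_norm, hr]
    linarith
  have hδ : 0 < min 1 (ε / (2 * B)) := by positivity
  filter_upwards [lim1 hK hr0 (abs_nonneg (Real.log ‖X p‖)) hδ] with N hN
  intro y hy
  have hyr : ‖y - p‖ < r := by rwa [mem_ball, dist_eq_norm] at hy
  obtain ⟨hN1, hN2⟩ := hN
  obtain ⟨h3, h4⟩ := h2 N y (hyr.trans hN1)
  have hN0 : 0 < (N : ℝ) + 1 := by positivity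
  have h5 : (‖y - p‖ / ((N : ℝ) + 1)) ^ 2 ≤ (r / ((N : ℝ) + 1)) ^ 2 :=
    pow_le_pow_left₀ (by positivity) (div_le_div_of_nonneg_right hyr.le hN0.le) 2
  have h6 : 0 ≤ 16 * (K * (1 + 2 * ((N : ℝ) + 1)) ^ (3 / 2 : ℝ) + |Real.log ‖X p‖|) := by positivity
  have h6' : 0 < 1 / ((N : ℝ) + 1) := by positivity
  have h7 : ‖E N y‖ < min 1 (ε / (2 * B)) := by
    refine lt_of_le_of_lt h4 ?_
    have := mul_le_mul_of_nonneg_left h5 h6
    linarith
  have h8 : ‖E N y‖ < 1 := h7.trans_le (min_le_left _ _)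
  have h9 : ‖E N y‖ < ε / (2 * B) := h7.trans_le (min_le_right _ _)
  obtain ⟨Φ, hΦ⟩ : ∃ Φ : ℂ, Φ = X p * (∏ a ∈ S N, ((y - a) / (p - a)) ^ analyticOrderNatAt X a) *
    cexp (β N * (y - p)) := ⟨_, rfl⟩
  rw [← hΦ] at h3 ⊢
  have h10 : Φ = X y * cexp (-(E N y)) := by
    rw [h3, mul_assoc, ← Complex.exp_add]
    simp
  rw [dist_eq_norm, h10]
  have h11 : X y - X y * cexp (-(E N y)) = -(X y * (cexp (-(E N y)) - 1)) := by ring
  rw [h11, norm_neg, norm_mul]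
  have h12 : ‖cexp (-(E N y)) - 1‖ ≤ 2 * ‖-(E N y)‖ :=
    Complex.norm_exp_sub_one_le (by rw [norm_neg]; exact h8.le)
  rw [norm_neg] at h12
  have h13 : ‖X y‖ ≤ B := by
    rw [hB]
    refine (hb y).trans (Real.exp_le_exp.2 (mul_le_mul_of_nonneg_left ?_ hK))
    exact Real.rpow_le_rpow (by positivity) (by linarith) (by norm_num)
  calc ‖X y‖ * ‖cexp (-(E N y)) - 1‖ ≤ B * (2 * ‖E N y‖) :=
        mul_le_mul h13 h12 (norm_nonneg _) hB0.le
    _ < B * (2 * (ε / (2 * B))) := by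
        apply mul_lt_mul_of_pos_left _ hB0
        linarith
    _ = ε := by field_simp

/-- lower bound for the distance to the point `iγ` -/
theorem dist_low (z : ℂ) (hz : z.re ≠ 0) : ∃ C : ℝ, 0 < C ∧ ∀ γ : ℝ, 1 + γ ^ 2 ≤ C * ‖z - γ * I‖ ^ 2 := by
  have hz2 : 0 < z.re ^ 2 := by positivity
  refine ⟨(1 + 2 * z.im ^ 2) / z.re ^ 2 + 2, by positivity, fun γ => ?_⟩
  have h1 : ‖z - γ * I‖ ^ 2 = z.re ^ 2 + (z.im - γ) ^ 2 := by
    rw [← Complex.normSq_eq_norm_sq, Complex.normSq_apply]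
    simp
    ring
  rw [h1]
  have h2 : (1 + 2 * z.im ^ 2) / z.re ^ 2 * z.re ^ 2 = 1 + 2 * z.im ^ 2 := div_mul_cancel₀ _ hz2.ne'
  have h3 : 0 ≤ (1 + 2 * z.im ^ 2) / z.re ^ 2 * (z.im - γ) ^ 2 := by positivity
  nlinarith [sq_nonneg (γ - 2 * z.im)]

theorem sub_ne_of_re {z : ℂ} (hz : z.re ≠ 0) (γ : ℝ) : z - γ * I ≠ 0 := by
  intro h
  have := congrArg Complex.re h
  simp at this
  exact hz this

/-- bound of the terms -/
theorem term_bound (z w : ℂ) (hz : z.re ≠ 0) (hw : w.re ≠ 0) :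
    ∃ C : ℝ, 0 < C ∧ ∀ γ : ℝ, ‖1 / (z - γ * I) - 1 / (w - γ * I)‖ ≤ C / (1 + γ ^ 2) := by
  obtain ⟨C1, hC1, h1⟩ := dist_low z hz
  obtain ⟨C2, hC2, h2⟩ := dist_low w hw
  refine ⟨(‖w - z‖ + 1) * (C1 + C2), by positivity, fun γ => ?_⟩
  have hz' := sub_ne_of_re hz γ
  have hw' := sub_ne_of_re hw γ
  have e : 1 / (z - γ * I) - 1 / (w - γ * I) = (w - z) / ((z - γ * I) * (w - γ * I)) := by
    field_simp
    ring
  have hg : 0 < 1 + γ ^ 2 := by positivity
  have a1 := h1 γ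
  have a2 := h2 γ
  have p1 : 0 < ‖z - γ * I‖ := norm_pos_iff.2 hz'
  have p2 : 0 < ‖w - γ * I‖ := norm_pos_iff.2 hw'
  rw [e, norm_div, norm_mul, div_le_div_iff₀ (by positivity) hg]
  -- ‖w - z‖ (1 + γ²) ≤ (‖w - z‖ + 1) (C1 + C2) ‖z - iγ‖ ‖w - iγ‖
  have key : 1 + γ ^ 2 ≤ (C1 + C2) * (‖z - γ * I‖ * ‖w - γ * I‖) := by
    rcases le_total ‖z - γ * I‖ ‖w - γ * I‖ with h | h
    · have h3 : ‖z - γ * I‖ ^ 2 ≤ ‖z - γ * I‖ * ‖w - γ * I‖ := by nlinarith
      have h4 : 0 ≤ C2 * (‖z - γ * I‖ * ‖w - γ * I‖) := by positivity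
      nlinarith
    · have h3 : ‖w - γ * I‖ ^ 2 ≤ ‖z - γ * I‖ * ‖w - γ * I‖ := by nlinarith
      have h4 : 0 ≤ C1 * (‖z - γ * I‖ * ‖w - γ * I‖) := by positivity
      nlinarith
  have hn : 0 ≤ ‖w - z‖ := norm_nonneg _
  calc ‖w - z‖ * (1 + γ ^ 2) ≤ (‖w - z‖ + 1) * (1 + γ ^ 2) := by gcongr; linarith
    _ ≤ (‖w - z‖ + 1) * ((C1 + C2) * (‖z - γ * I‖ * ‖w - γ * I‖)) := by gcongr
    _ = _ := by ring

/-- the reflection of the logarithmic derivative -/
theorem logDeriv_refl {X : ℂ → ℂ} (hX : Differentiable ℂ X)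
    (hsym : ∀ z : ℂ, X (-((starRingEnd ℂ) z)) = (starRingEnd ℂ) (X z)) (z : ℂ) :
    logDeriv X (-((starRingEnd ℂ) z)) = -((starRingEnd ℂ) (logDeriv X z)) := by
  obtain ⟨Y, hY⟩ : ∃ Y : ℂ → ℂ, Y = fun w => X (-w) := ⟨_, rfl⟩
  have hYd : HasDerivAt Y (-(deriv X (-((starRingEnd ℂ) z)))) ((starRingEnd ℂ) z) := by
    rw [hY]
    have h1 := (hX (-((starRingEnd ℂ) z))).hasDerivAt
    have h2 : HasDerivAt (fun w : ℂ => -w) (-1) ((starRingEnd ℂ) z) := (hasDerivAt_id _).neg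
    have h3 := HasDerivAt.comp ((starRingEnd ℂ) z) h1 h2
    have h4 : deriv X (-((starRingEnd ℂ) z)) * (-1) = -(deriv X (-((starRingEnd ℂ) z))) := by ring
    rw [h4] at h3
    exact h3
  have h5 := hYd.conj_conj
  have h6 : ((starRingEnd ℂ) ∘ Y ∘ (starRingEnd ℂ)) = X := by
    funext w
    simp only [Function.comp_apply]
    rw [hY]
    simp only
    rw [hsym, Complex.conj_conj]
  rw [h6, Complex.conj_conj] at h5
  have h7 : deriv X z = (starRingEnd ℂ) (-(deriv X (-((starRingEnd ℂ) z)))) := h5.deriv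
  have h8 : deriv X (-((starRingEnd ℂ) z)) = -((starRingEnd ℂ) (deriv X z)) := by
    rw [h7, Complex.conj_conj, neg_neg]
  rw [logDeriv_apply, logDeriv_apply, h8, hsym, map_div₀, neg_div]

theorem pf_gen {X : ℂ → ℂ} (hX : Differentiable ℂ X)
    (hsym : ∀ z : ℂ, X (-((starRingEnd ℂ) z)) = (starRingEnd ℂ) (X z))
    (hgr : ∃ K : ℝ, 0 < K ∧ ∀ z : ℂ, ‖X z‖ ≤ Real.exp (K * (1 + ‖z‖) ^ (3 / 2 : ℝ)))
    (hz : ∀ s : ℂ, X s = 0 → s.re = 0) (m : ℝ → ℕ) (hm : ∀ γ : ℝ, m γ = analyticOrderNatAt X (γ * I)) :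
    Summable (fun γ : ℝ => (m γ : ℝ) / (1 + γ ^ 2)) ∧
    (∀ z : ℂ, 0 < z.re → (logDeriv X z).re = ∑' γ : ℝ, (m γ : ℝ) * (1 / (z - γ * I)).re) ∧
    (∀ z w : ℂ, 0 < z.re → 0 < w.re → logDeriv X z - logDeriv X w =
      ∑' γ : ℝ, (m γ : ℂ) * (1 / (z - γ * I) - 1 / (w - γ * I))) := by
  classical
  obtain ⟨K0, hK0, hb0⟩ := hgr
  have hnz : ∀ z : ℂ, z.re ≠ 0 → X z ≠ 0 := fun z h h0 => h (hz z h0)
  have h1ne : X 1 ≠ 0 := hnz 1 (by simp)
  have hK : 0 ≤ K0 * (2 : ℝ) ^ (3 / 2 : ℝ) := by positivity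
  have hb : ∀ z, ‖X z‖ ≤ Real.exp (K0 * (2 : ℝ) ^ (3 / 2 : ℝ) * (1 + ‖z - 1‖) ^ (3 / 2 : ℝ)) := by
    intro z
    refine (hb0 z).trans (Real.exp_le_exp.2 ?_)
    rw [mul_assoc, ← Real.mul_rpow (by positivity) (by positivity)]
    refine mul_le_mul_of_nonneg_left (Real.rpow_le_rpow (by positivity) ?_ (by norm_num)) hK0.le
    have h2 : ‖z‖ ≤ ‖z - 1‖ + 1 := by
      have := norm_add_le (z - 1) 1
      rwa [sub_add_cancel, norm_one] at this
    have := norm_nonneg (z - 1)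
    linarith
  obtain ⟨S, β, hS, hlim⟩ := had_pf hX 1 h1ne hK hb
  -- the zeros are on the axis
  have haxis : ∀ a : ℂ, X a = 0 → a = ((a.im : ℝ) : ℂ) * I := by
    intro a ha
    apply Complex.ext
    · simp [hz a ha]
    · simp
  obtain ⟨Γ, hΓ⟩ : ∃ Γ : ℕ → Finset ℝ, Γ = fun N => (S N).image Complex.im := ⟨_, rfl⟩
  have hΓm : ∀ N γ, γ ∈ Γ N ↔ X (γ * I) = 0 ∧ ‖(γ : ℂ) * I - 1‖ ≤ (N : ℝ) + 1 := by
    intro N γ
    rw [hΓ]
    simp only
    rw [Finset.mem_image]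
    constructor
    · rintro ⟨a, ha, rfl⟩
      have h1 := (hS N a).1 ha
      rw [← haxis a h1.1]
      exact h1
    · intro h
      exact ⟨γ * I, (hS N _).2 h, by simp⟩
  have hm0 : ∀ γ : ℝ, X (γ * I) ≠ 0 → m γ = 0 := by
    intro γ h
    rw [hm, analyticOrderNatAt, (hX.analyticAt _).analyticOrderAt_eq_zero.2 h]
    rfl
  -- sums
  have hsum : ∀ (N : ℕ) (h : ℂ → ℂ), ∑ a ∈ S N, (analyticOrderNatAt X a : ℂ) * h a =
      ∑ γ ∈ Γ N, (m γ : ℂ) * h (γ * I) := by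
    intro N h
    rw [hΓ]
    simp only
    rw [Finset.sum_image]
    · refine Finset.sum_congr rfl fun a ha => ?_
      have h1 := haxis a ((hS N a).1 ha).1
      rw [hm, ← h1]
    · intro a ha b hb hab
      have h1 := haxis a ((hS N a).1 ha).1
      have h2 := haxis b ((hS N b).1 hb).1
      rw [h1, h2, hab]
  -- the logarithmic derivative of the approximations
  have hld : ∀ (N : ℕ) (z : ℂ), z.re ≠ 0 → logDeriv (fun z : ℂ => X 1 * (∏ a ∈ S N, ((z - a) / (1 - a)) ^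
      analyticOrderNatAt X a) * cexp (β N * (z - 1))) z = ∑ γ ∈ Γ N, (m γ : ℂ) * (1 / (z - γ * I)) + β N := by
    intro N z hz0
    have hS1 : ∀ a ∈ S N, a.re = 0 := fun a ha => hz a ((hS N a).1 ha).1
    have hza : ∀ a ∈ S N, z - a ≠ 0 := fun a ha h => hz0 (by
      have := congrArg Complex.re h
      rw [sub_re, hS1 a ha] at this
      simpa using this)
    have h1a : ∀ a ∈ S N, (1 : ℂ) - a ≠ 0 := fun a ha h => by
      have := congrArg Complex.re h
      rw [sub_re, hS1 a ha] at this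
      simp at this
    have hP0 : (∏ a ∈ S N, ((z - a) / (1 - a)) ^ analyticOrderNatAt X a) ≠ 0 := by
      rw [Finset.prod_ne_zero_iff]
      exact fun a ha => pow_ne_zero _ (div_ne_zero (hza a ha) (h1a a ha))
    have hmul := logDeriv_mul (f := fun z : ℂ => X 1 * (∏ a ∈ S N, ((z - a) / (1 - a)) ^ analyticOrderNatAt X a))
      (g := fun z : ℂ => cexp (β N * (z - 1))) z (mul_ne_zero h1ne hP0) (Complex.exp_ne_zero _) (by fun_prop)
      (by fun_prop)
    rw [logDeriv_const_mul z _ h1ne] at hmul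
    refine hmul.trans ?_
    congr 1
    · rw [← hsum N (fun a => 1 / (z - a))]
      rw [logDeriv_prod (f := fun a z => ((z - a) / (1 - a)) ^ analyticOrderNatAt X a)
        (fun a ha => pow_ne_zero _ (div_ne_zero (hza a ha) (h1a a ha))) (fun a _ => by fun_prop)]
      refine Finset.sum_congr rfl fun a ha => ?_
      rw [logDeriv_fun_pow (by fun_prop)]
      congr 1
      have h3 := h1a a ha
      have h4 := hza a ha
      have h5 : HasDerivAt (fun z : ℂ => (z - a) / (1 - a)) (1 / (1 - a)) z :=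
        ((hasDerivAt_id z).sub_const a).div_const (1 - a)
      rw [logDeriv_apply, h5.deriv]
      field_simp
    · have h5 : HasDerivAt (fun z : ℂ => cexp (β N * (z - 1))) (cexp (β N * (z - 1)) * (β N * 1)) z :=
        (((hasDerivAt_id z).sub_const 1).const_mul (β N)).cexp
      rw [logDeriv_apply, h5.deriv, mul_one, mul_div_cancel_left₀ _ (Complex.exp_ne_zero _)]
  have hlim1 : ∀ z : ℂ, z.re ≠ 0 → Tendsto (fun N => ∑ γ ∈ Γ N, (m γ : ℂ) * (1 / (z - γ * I)) + β N) atTop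
      (𝓝 (logDeriv X z)) := by
    intro z hz0
    have h1 := Complex.logDeriv_tendsto isOpen_univ (Set.mem_univ z)
      (hlim.tendstoLocallyUniformlyOn (s := Set.univ))
      (Eventually.of_forall fun n => by
        apply Differentiable.differentiableOn
        fun_prop) (hnz z hz0)
    exact h1.congr fun N => hld N z hz0
  have hlim2 : ∀ z w : ℂ, z.re ≠ 0 → w.re ≠ 0 → Tendsto (fun N => ∑ γ ∈ Γ N, (m γ : ℂ) *
      (1 / (z - γ * I) - 1 / (w - γ * I))) atTop (𝓝 (logDeriv X z - logDeriv X w)) := by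
    intro z w hz0 hw0
    refine ((hlim1 z hz0).sub (hlim1 w hw0)).congr fun N => ?_
    rw [add_sub_add_right_eq_sub, ← Finset.sum_sub_distrib]
    exact Finset.sum_congr rfl fun γ _ => by ring
  -- summability
  have hsm : Summable (fun γ : ℝ => (m γ : ℝ) / (1 + γ ^ 2)) := by
    have h1 := hlim2 1 (-1) (by simp) (by simp)
    obtain ⟨B, hB⟩ := (h1.norm.bddAbove_range)
    have hB' : ∀ N, ∑ γ ∈ Γ N, (m γ : ℝ) / (1 + γ ^ 2) ≤ B := by
      intro N
      have h2 : ‖∑ γ ∈ Γ N, (m γ : ℂ) * (1 / (1 - γ * I) - 1 / (-1 - γ * I))‖ ≤ B := hB ⟨N, rfl⟩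
      have h3 : ∑ γ ∈ Γ N, (m γ : ℂ) * (1 / (1 - γ * I) - 1 / (-1 - γ * I)) =
          ((∑ γ ∈ Γ N, (m γ : ℝ) * (2 / (1 + γ ^ 2)) : ℝ) : ℂ) := by
        push_cast
        refine Finset.sum_congr rfl fun γ _ => ?_
        congr 1
        have e1 : (1 : ℂ) - γ * I ≠ 0 := sub_ne_of_re (z := 1) (by simp) γ
        have e2 : (-1 : ℂ) - γ * I ≠ 0 := sub_ne_of_re (z := -1) (by simp) γ
        have e3 : (1 : ℂ) + (γ : ℂ) ^ 2 ≠ 0 := by
          have : (0 : ℝ) < 1 + γ ^ 2 := by positivity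
          exact_mod_cast this.ne'
        rw [div_sub_div _ _ e1 e2, div_eq_div_iff (mul_ne_zero e1 e2) e3]
        linear_combination (-2 * (γ : ℂ) ^ 2) * Complex.I_sq
      rw [h3, Complex.norm_real, Real.norm_eq_abs] at h2
      have h4 := (le_abs_self _).trans h2
      refine le_trans (Finset.sum_le_sum fun γ _ => ?_) h4
      rw [mul_div_assoc', div_le_div_iff_of_pos_right (by positivity)]
      have : (0 : ℝ) ≤ m γ := Nat.cast_nonneg _
      linarith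
    refine summable_of_sum_le (c := B) (fun γ => by positivity) fun u => ?_
    -- a large `N`
    obtain ⟨N, hN⟩ : ∃ N : ℕ, ∀ γ ∈ u, ‖(γ : ℂ) * I - 1‖ ≤ (N : ℝ) + 1 := by
      obtain ⟨N, hN⟩ := exists_nat_ge (∑ γ ∈ u, ‖(γ : ℂ) * I - 1‖)
      refine ⟨N, fun γ hγ => ?_⟩
      have := Finset.single_le_sum (f := fun γ : ℝ => ‖(γ : ℂ) * I - 1‖) (fun γ _ => norm_nonneg _) hγ
      linarith
    refine le_trans ?_ (hB' N)
    have h5 : ∑ γ ∈ u, (m γ : ℝ) / (1 + γ ^ 2) = ∑ γ ∈ u with γ ∈ Γ N, (m γ : ℝ) / (1 + γ ^ 2) := by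
      symm
      refine Finset.sum_subset (Finset.filter_subset _ _) fun γ hγ hn => ?_
      have h6 : X (γ * I) ≠ 0 := by
        intro h0
        exact hn (Finset.mem_filter.2 ⟨hγ, (hΓm N γ).2 ⟨h0, hN γ hγ⟩⟩)
      rw [hm0 γ h6]
      simp
    rw [h5]
    refine Finset.sum_le_sum_of_subset_of_nonneg (fun γ hγ => (Finset.mem_filter.1 hγ).2) fun γ _ _ => ?_
    positivity
  -- the main formula
  have hmain : ∀ z w : ℂ, z.re ≠ 0 → w.re ≠ 0 → logDeriv X z - logDeriv X w =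
      ∑' γ : ℝ, (m γ : ℂ) * (1 / (z - γ * I) - 1 / (w - γ * I)) := by
    intro z w hz0 hw0
    obtain ⟨C, hC, hCb⟩ := term_bound z w hz0 hw0
    have h1 : Tendsto (fun N : ℕ => ∑' γ : ℝ, if ‖(γ : ℂ) * I - 1‖ ≤ (N : ℝ) + 1 then
        (m γ : ℂ) * (1 / (z - γ * I) - 1 / (w - γ * I)) else 0) atTop
        (𝓝 (∑' γ : ℝ, (m γ : ℂ) * (1 / (z - γ * I) - 1 / (w - γ * I)))) := by
      refine tendsto_tsum_of_dominated_convergence (bound := fun γ : ℝ => C * ((m γ : ℝ) / (1 + γ ^ 2)))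
        (hsm.mul_left C) (fun γ => ?_) (Eventually.of_forall fun N γ => ?_)
      · refine tendsto_const_nhds.congr' ?_
        have h2 : ∀ᶠ N : ℕ in atTop, ‖(γ : ℂ) * I - 1‖ ≤ (N : ℝ) + 1 := by
          obtain ⟨N0, hN0⟩ := exists_nat_ge ‖(γ : ℂ) * I - 1‖
          filter_upwards [eventually_ge_atTop N0] with N hN
          have : (N0 : ℝ) ≤ N := by exact_mod_cast hN
          linarith
        filter_upwards [h2] with N hN
        rw [if_pos hN]
      · have h3 : ‖(m γ : ℂ) * (1 / (z - γ * I) - 1 / (w - γ * I))‖ ≤ C * ((m γ : ℝ) / (1 + γ ^ 2)) := by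
          rw [norm_mul, Complex.norm_natCast]
          calc (m γ : ℝ) * ‖1 / (z - γ * I) - 1 / (w - γ * I)‖ ≤ (m γ : ℝ) * (C / (1 + γ ^ 2)) := by
                have := hCb γ
                gcongr
            _ = _ := by ring
        split_ifs
        · exact h3
        · rw [norm_zero]
          positivity
    refine tendsto_nhds_unique (hlim2 z w hz0 hw0) (h1.congr fun N => ?_)
    rw [tsum_eq_sum (s := Γ N)]
    · refine Finset.sum_congr rfl fun γ hγ => ?_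
      rw [if_pos ((hΓm N γ).1 hγ).2]
    · intro γ hγ
      split_ifs with h4
      · rw [hm0 γ fun h0 => hγ ((hΓm N γ).2 ⟨h0, h4⟩)]
        simp
      · rfl
  refine ⟨hsm, fun z hz0 => ?_, fun z w hz0 hw0 => hmain z w hz0.ne' hw0.ne'⟩
  have h1 := hmain z (-((starRingEnd ℂ) z)) hz0.ne' (by simpa using hz0.ne')
  rw [logDeriv_refl hX hsym, sub_neg_eq_add, Complex.add_conj] at h1
  have h2 : ∀ γ : ℝ, (m γ : ℂ) * (1 / (z - γ * I) - 1 / (-((starRingEnd ℂ) z) - γ * I)) =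
      ((2 * ((m γ : ℝ) * (1 / (z - γ * I)).re) : ℝ) : ℂ) := by
    intro γ
    have e : (1 : ℂ) / (-((starRingEnd ℂ) z) - γ * I) = -((starRingEnd ℂ) (1 / (z - γ * I))) := by
      rw [map_div₀, map_one, map_sub, map_mul, Complex.conj_ofReal, Complex.conj_I, ← div_neg]
      congr 1
      ring
    rw [e, sub_neg_eq_add, Complex.add_conj]
    push_cast
    ring
  have h3 : ∑' γ : ℝ, (m γ : ℂ) * (1 / (z - γ * I) - 1 / (-((starRingEnd ℂ) z) - γ * I)) =
      ((∑' γ : ℝ, 2 * ((m γ : ℝ) * (1 / (z - γ * I)).re) : ℝ) : ℂ) := by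
    rw [Complex.ofReal_tsum]
    exact tsum_congr h2
  rw [h3] at h1
  have h4 : 2 * (logDeriv X z).re = ∑' γ : ℝ, 2 * ((m γ : ℝ) * (1 / (z - γ * I)).re) := by exact_mod_cast h1
  rw [tsum_mul_left] at h4
  linarith

end Pool.Agent.Q151.LQ
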