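import Pool.Agent.Q151.LQ.Bas

/-!
# Project LQ, job SH1: when does some `D` fit?
-/

set_option autoImplicit false

namespace Pool.Agent.Q151.LQ

open NumberField IsDedekindDomain Filter Topology Finset
open Pool.Agent.Q283.LQ

variable {F : Type} [Field F] [NumberField F]

/-- the valuations of a product of generators of different primes -/
theorem od_prod (hB : S_BAS) {y f : ℕ} {u r : Fin f → F} {π : HeightOneSpectrum (𝓞 F) → F}
    {g : (Fin f → ZMod 2) → (Fin f → ZMod 2) → ZMod 2} (B : Base y f u r π g) {k : ℕ}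
    (q : Fin k → HeightOneSpectrum (𝓞 F)) (hq : Function.Injective q) (hS : ∀ i, ¬ Sm y (q i))
    (v : HeightOneSpectrum (𝓞 F)) (hv : ¬ Sm y v) (s : Finset (Fin k)) :
    Od v (∏ j ∈ s, π (q j)) ↔ ∃ j ∈ s, q j = v := by
  induction s using Finset.induction_on with
  | empty =>
    rw [Finset.prod_empty]
    have h1 := lsq_nod hB (lsq_sq hB v (one_ne_zero (α := F)))
    rw [one_pow] at h1
    constructor
    · intro h
      exact absurd h h1
    · rintro ⟨j, hj, _⟩
      exact absurd hj (Finset.notMem_empty j)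
  | insert i s hi ih =>
    rw [Finset.prod_insert hi, od_mul hB v (B.po (q i) (hS i)).1
      (Finset.prod_ne_zero_iff.2 fun j _ => (B.po (q j) (hS j)).1), ih, (B.po (q i) (hS i)).2 v hv]
    constructor
    · intro h
      by_cases h1 : v = q i
      · exact ⟨i, Finset.mem_insert_self i s, h1.symm⟩
      · by_contra h2
        have h3 : ¬ ∃ j ∈ s, q j = v := fun ⟨j, hj, h4⟩ => h2 ⟨j, Finset.mem_insert_of_mem hj, h4⟩
        exact h1 (h.2 h3)
    · rintro ⟨j, hj, rfl⟩
      rcases Finset.mem_insert.1 hj with rfl | hj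
      · refine ⟨fun _ => ?_, fun _ => rfl⟩
        rintro ⟨l, hl, h⟩
        exact hi (hq h ▸ hl)
      · refine ⟨fun h => ?_, fun h => absurd ⟨j, hj, rfl⟩ h⟩
        exact absurd (hq h ▸ hj) hi

/-- **JOB SH1** -/
theorem SH1 (hB : S_BAS) : S_SH1 := by
  intro F _ _ y f u r π g B D0 ψ w hD0 hw k q hq hS τ hτ
  obtain ⟨P, hP⟩ : ∃ P, P = ∏ j, π (q j) := ⟨_, rfl⟩
  have hP0 : P ≠ 0 := by
    rw [hP]
    exact Finset.prod_ne_zero_iff.2 fun j _ => (B.po (q j) (hS j)).1
  have hod : ∀ v, ¬ Sm y v → (Od v P ↔ ∃ i, q i = v) := by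
    intro v hv
    rw [hP, od_prod hB B q hq hS v hv Finset.univ]
    constructor
    · rintro ⟨j, _, h⟩
      exact ⟨j, h⟩
    · rintro ⟨j, h⟩
      exact ⟨j, Finset.mem_univ j, h⟩
  -- the class of the product
  have hPc : Nn y (P * mon r (∑ j, τ.1 j)) := by
    have h1 : ∀ s : Finset (Fin k), Nn y (∏ j ∈ s, (π (q j) * mon r (τ.1 j))) := by
      intro s
      induction s using Finset.induction_on with
      | empty =>
        rw [Finset.prod_empty]
        have := nn_sq hB y (one_ne_zero (α := F))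
        rwa [one_pow] at this
      | insert i s hi ih =>
        rw [Finset.prod_insert hi]
        refine nn_mul hB ?_ ih
        have h2 := B.pc (q i) (hS i)
        have h3 : (fun l => sb (q i) (u l)) = τ.1 i := funext fun l => hτ.1 i l
        rwa [h3] at h2
    have h2 := h1 Finset.univ
    obtain ⟨x, hx, h3⟩ := mon_sum B.re Finset.univ τ.1
    rw [Finset.prod_mul_distrib, h3, ← hP, ← mul_assoc] at h2
    exact nn_of_mul_sq hB hx h2
  have hmr : mon r (∑ j, τ.1 j) ≠ 0 := mon_ne B.re _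
  have key : ∀ D, Fits y D0 q D → ∑ j, τ.1 j = ψ ∧ IsSquare (D * mon u w * P) := by
    intro D hD
    have hDP : ∀ v, ¬ Sm y v → ¬ Od v (D * P) := by
      intro v hv
      rw [od_mul hB v hD.ne hP0, hod v hv, hD.ram v hv]
      tauto
    obtain ⟨c, hc⟩ := B.full (D * P) (mul_ne_zero hD.ne hP0) hDP
    have hmc : mon u c ≠ 0 := mon_ne B.ue c
    have h1 : Nn y (D * P * mon u c) :=
      nn_of_isSquare hB y (mul_ne_zero (mul_ne_zero hD.ne hP0) hmc) hc
    have h2 : Nn y (D * D0) := ⟨mul_ne_zero hD.ne hD0, hD.loc, hD.real⟩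
    have h3 := nn_mul hB (nn_mul hB h2 h1) hPc
    have h4 : D * D0 * (D * P * mon u c) * (P * mon r (∑ j, τ.1 j)) =
        (D0 * mon r (∑ j, τ.1 j) * mon u c) * (D * P) ^ 2 := by ring
    rw [h4] at h3
    have h5 := nn_of_mul_sq hB (mul_ne_zero hD.ne hP0) h3
    obtain ⟨p, _, hp⟩ := B.cls D0 hD0
    have h6 := hp (∑ j, τ.1 j, c) h5
    have h7 := hp (ψ, w) hw
    have h8 : ((∑ j, τ.1 j, c) : (Fin f → ZMod 2) × (Fin f → ZMod 2)) = (ψ, w) := h6.trans h7.symm
    have h9 : ∑ j, τ.1 j = ψ := congrArg Prod.fst h8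
    have h10 : c = w := congrArg Prod.snd h8
    refine ⟨h9, ?_⟩
    have h11 : D * mon u w * P = D * P * mon u c := by rw [h10]; ring
    rw [h11]
    exact hc
  refine ⟨⟨fun ⟨D, hD⟩ => (key D hD).1, fun h => ?_⟩, fun D hD => by rw [← hP]; exact (key D hD).2⟩
  have hmw : mon u w ≠ 0 := mon_ne B.ue w
  have hNn : Nn y (mon u w * P * D0) := by
    have h1 := nn_mul hB hPc hw
    rw [h] at h1 hmr
    have h2 : P * mon r ψ * (D0 * mon r ψ * mon u w) = mon u w * P * D0 * (mon r ψ) ^ 2 := by ring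
    rw [h2] at h1
    exact nn_of_mul_sq hB hmr h1
  refine ⟨mon u w * P, mul_ne_zero hmw hP0, fun v hv => ?_, hNn.2.1, hNn.2.2⟩
  rw [od_mul hB v hmw hP0, hod v hv]
  have := nod_mon hB B.ue (v := v) (fun l => B.uo l v hv) w
  tauto

end Pool.Agent.Q151.LQ
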